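import Pool.Agent.Helper76.MM.A1

/-!
# MM-C2: the first cut into thin slabs and arcs

`slb b₀ H L S l` is the part of `S` with `⌊uu b₀ k · L / H⌋₊ = l`.
PROOF of `slb_thin`. `uu b k = uu b₀ k (1 + (b - b₀) tt b₀ k)`, `|tt b₀ k| ≤ 5`, `|tt b₀ k - tt b₀ k'| ≤ 12/M^(4m)` in one arc, `|uu b₀ k - uu b₀ k'| ≤ H/M^(4m)`, `uu b₀ k' ≤ 8H`: the difference is
`≤ (1 + 5/55) H/M^(4m) + (1/55) 8H (12/M^(4m)) ≤ 3 H/M^(4m) ≤ H/M^(3m+3)` as `M^m ≥ M^4 ≥ 3 M^3`.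
PROOF of `tf_cut`. `reg b₀ H` is the disjoint union of the `9 M^(4m) · M^(4m)` pieces `slb .. (arc b₀ (reg b₀ H) (M^(4m)) j) l` (`uu b₀ k ≤ 8H`, `0 ≤ (tt + 6)/12 < 1`), `‖∑_{i ∈ Q} z_i‖^12 ≤ |Q|^11 ∑ ‖z_i‖^12`
(`pow_sum_div_card_le_sum_pow`), integrate over `c ∈ Tq`.
-/

open MeasureTheory Real Set Filter Topology

set_option autoImplicit false

namespace Pool.Agent.Helper76.MM

open Pool.Agent.Helper22.AE
open Pool.Agent.Helper92.GC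
open Pool.Agent.Helper92.DT (m12)
open Pool.Agent.Helper78.CE (p2 p3 hs mu2 InReg)
open Pool.Agent.Helper22.AC (IsWt)

open Classical in
/-- a slab -/
noncomputable def slb (b₀ H L : ℝ) (S : Finset (ℤ × ℤ)) (l : ℕ) : Finset (ℤ × ℤ) := S.filter (fun k => ⌊uu b₀ k * L / H⌋₊ = l)

private theorem mem_slb92 {b₀ H L : ℝ} {S : Finset (ℤ × ℤ)} {l : ℕ} {k : ℤ × ℤ} :
    k ∈ slb b₀ H L S l ↔ k ∈ S ∧ ⌊uu b₀ k * L / H⌋₊ = l := by
  unfold slb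
  rw [Finset.mem_filter]

private theorem mem_arcc92 {β : ℝ} {S : Finset (ℤ × ℤ)} {N j : ℕ} {k : ℤ × ℤ} :
    k ∈ arc β S N j ↔ k ∈ S ∧ ⌊(N : ℝ) * ((tt β k + 6) / 12)⌋₊ = j := by
  classical
  unfold arc
  rw [Finset.mem_filter]

private theorem mem_regg92 {β H : ℝ} {k : ℤ × ℤ} (hk : k ∈ reg β H) :
    H / 4 ≤ uu β k ∧ uu β k ≤ 8 * H ∧ |(k.2 : ℝ)| ≤ 5 * uu β k := by
  classical
  unfold reg at hk
  exact (Finset.mem_filter.1 hk).2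

private theorem fl_close92 {x y : ℝ} (hx : 0 ≤ x) (hy : 0 ≤ y) (h : ⌊x⌋₊ = ⌊y⌋₊) : |x - y| ≤ 1 := by
  have h1 := Nat.floor_le hx
  have h2 := Nat.lt_floor_add_one x
  have h3 := Nat.floor_le hy
  have h4 := Nat.lt_floor_add_one y
  rw [h] at h1 h2
  rw [abs_le]
  constructor <;> linarith

private theorem tt_le92 {β H : ℝ} (hH : 0 < H) {k : ℤ × ℤ} (hk : k ∈ reg β H) : 0 < uu β k ∧ |tt β k| ≤ 5 ∧ (k.2 : ℝ) = uu β k * tt β k := by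
  obtain ⟨h1, h2, h3⟩ := mem_regg92 hk
  have hu : 0 < uu β k := by linarith
  refine ⟨hu, ?_, ?_⟩
  · unfold tt
    rw [abs_div, abs_of_pos hu, div_le_iff₀ hu]
    exact h3
  · unfold tt
    field_simp

theorem slb_thin {M m l j : ℕ} (hM : 36 ≤ M) (hm : 4 ≤ m) {b₀ b H : ℝ} (hH : 0 < H) (hb : |b - b₀| ≤ 1 / 55) {k k' : ℤ × ℤ}
    (hk : k ∈ slb b₀ H ((M : ℝ) ^ (4 * m)) (arc b₀ (reg b₀ H) (M ^ (4 * m)) j) l)
    (hk' : k' ∈ slb b₀ H ((M : ℝ) ^ (4 * m)) (arc b₀ (reg b₀ H) (M ^ (4 * m)) j) l) :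
    |uu b k - uu b k'| ≤ (1 / (M : ℝ)) ^ (3 * m + 3) * H := by
  have hMr : (36 : ℝ) ≤ M := by exact_mod_cast hM
  have hM0 : (0 : ℝ) < M := by linarith
  obtain ⟨L, hL⟩ : ∃ L : ℝ, L = (M : ℝ) ^ (4 * m) := ⟨_, rfl⟩
  have hL0 : 0 < L := by
    rw [hL]
    positivity
  rw [mem_slb92, mem_arcc92] at hk hk'
  obtain ⟨⟨hr, ha⟩, hs⟩ := hk
  obtain ⟨⟨hr', ha'⟩, hs'⟩ := hk'
  obtain ⟨hu, ht, hkt⟩ := tt_le92 hH hr
  obtain ⟨hu', ht', hkt'⟩ := tt_le92 hH hr'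
  obtain ⟨-, hub', -⟩ := mem_regg92 hr'
  rw [abs_le] at ht ht'
  rw [Nat.cast_pow, ← hL] at ha ha'
  rw [← hL] at hs hs'
  have h1 : |uu b₀ k * L / H - uu b₀ k' * L / H| ≤ 1 :=
    fl_close92 (by positivity) (by positivity) (hs.trans hs'.symm)
  have h2 : |L * ((tt b₀ k + 6) / 12) - L * ((tt b₀ k' + 6) / 12)| ≤ 1 :=
    fl_close92 (mul_nonneg hL0.le (by linarith)) (mul_nonneg hL0.le (by linarith)) (ha.trans ha'.symm)
  have h3 : |uu b₀ k - uu b₀ k'| ≤ H / L := by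
    have e : uu b₀ k * L / H - uu b₀ k' * L / H = (uu b₀ k - uu b₀ k') * (L / H) := by ring
    rw [e, abs_mul, abs_of_pos (div_pos hL0 hH)] at h1
    calc |uu b₀ k - uu b₀ k'| = |uu b₀ k - uu b₀ k'| * (L / H) * (H / L) := by
          field_simp
      _ ≤ 1 * (H / L) := mul_le_mul_of_nonneg_right h1 (by positivity)
      _ = H / L := one_mul _
  have h4 : |tt b₀ k - tt b₀ k'| ≤ 12 / L := by
    have e : L * ((tt b₀ k + 6) / 12) - L * ((tt b₀ k' + 6) / 12) = (tt b₀ k - tt b₀ k') * (L / 12) := by ring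
    rw [e, abs_mul, abs_of_pos (show 0 < L / 12 by positivity)] at h2
    calc |tt b₀ k - tt b₀ k'| = |tt b₀ k - tt b₀ k'| * (L / 12) * (12 / L) := by
          field_simp
      _ ≤ 1 * (12 / L) := mul_le_mul_of_nonneg_right h2 (by positivity)
      _ = 12 / L := one_mul _
  have e5 : uu b k - uu b k' = (uu b₀ k - uu b₀ k') + (b - b₀) * ((k.2 : ℝ) - (k'.2 : ℝ)) := by
    unfold uu
    ring
  have e6 : (k.2 : ℝ) - (k'.2 : ℝ) = (uu b₀ k - uu b₀ k') * tt b₀ k + uu b₀ k' * (tt b₀ k - tt b₀ k') := by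
    rw [hkt, hkt']
    ring
  have h7 : |(k.2 : ℝ) - (k'.2 : ℝ)| ≤ H / L * 5 + 8 * H * (12 / L) := by
    rw [e6]
    refine (abs_add_le _ _).trans (add_le_add ?_ ?_)
    · rw [abs_mul]
      exact mul_le_mul h3 (abs_le.2 ht) (abs_nonneg _) (by positivity)
    · rw [abs_mul, abs_of_pos hu']
      exact mul_le_mul hub' h4 (abs_nonneg _) (by positivity)
  have h8 : |uu b k - uu b k'| ≤ 3 * (H / L) := by
    rw [e5]
    calc |(uu b₀ k - uu b₀ k') + (b - b₀) * ((k.2 : ℝ) - (k'.2 : ℝ))|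
        ≤ |uu b₀ k - uu b₀ k'| + |b - b₀| * |(k.2 : ℝ) - (k'.2 : ℝ)| := by
          refine (abs_add_le _ _).trans (le_of_eq ?_)
          rw [abs_mul]
      _ ≤ H / L + 1 / 55 * (H / L * 5 + 8 * H * (12 / L)) :=
          add_le_add h3 (mul_le_mul hb h7 (abs_nonneg _) (by norm_num))
      _ = (1 + 101 / 55) * (H / L) := by ring
      _ ≤ 3 * (H / L) := mul_le_mul_of_nonneg_right (by norm_num) (by positivity)
  refine h8.trans ?_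
  obtain ⟨m', rfl⟩ : ∃ m', m = m' + 4 := ⟨m - 4, by omega⟩
  have h9 : L = (M : ℝ) ^ (3 * (m' + 4) + 3) * (M : ℝ) ^ (m' + 1) := by
    rw [hL, ← pow_add]
    congr 1
    ring
  have h10 : (36 : ℝ) ≤ (M : ℝ) ^ (m' + 1) := by
    calc (36 : ℝ) ≤ M := hMr
      _ = (M : ℝ) ^ 1 := (pow_one _).symm
      _ ≤ (M : ℝ) ^ (m' + 1) := pow_le_pow_right₀ (by linarith) (by omega)
  have h11 : 0 < (M : ℝ) ^ (3 * (m' + 4) + 3) := by positivity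
  rw [one_div, inv_pow, h9]
  rw [show 3 * (H / ((M : ℝ) ^ (3 * (m' + 4) + 3) * (M : ℝ) ^ (m' + 1))) =
    ((M : ℝ) ^ (3 * (m' + 4) + 3))⁻¹ * H * (3 / (M : ℝ) ^ (m' + 1)) by field_simp]
  have h12 : 3 / (M : ℝ) ^ (m' + 1) ≤ 1 := by
    rw [div_le_one (by positivity)]
    linarith
  calc ((M : ℝ) ^ (3 * (m' + 4) + 3))⁻¹ * H * (3 / (M : ℝ) ^ (m' + 1)) ≤ ((M : ℝ) ^ (3 * (m' + 4) + 3))⁻¹ * H * 1 :=
        mul_le_mul_of_nonneg_left h12 (by positivity)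
    _ = ((M : ℝ) ^ (3 * (m' + 4) + 3))⁻¹ * H := mul_one _

/-- arcs of slabs are slabs of arcs -/
theorem slb_arc (b₀ H L : ℝ) (S : Finset (ℤ × ℤ)) (N j l : ℕ) : arc b₀ (slb b₀ H L S l) N j = slb b₀ H L (arc b₀ S N j) l := by
  ext k
  rw [mem_arcc92, mem_slb92, mem_slb92, mem_arcc92]
  tauto

/-- power mean for a double sum -/
private theorem pm92 (A B : Finset ℕ) (z : ℕ → ℕ → ℂ) :
    ‖∑ l ∈ A, ∑ j ∈ B, z l j‖ ^ 12 ≤ ((A.card : ℝ) * B.card) ^ 11 * ∑ l ∈ A, ∑ j ∈ B, ‖z l j‖ ^ 12 := by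
  rcases (A ×ˢ B).eq_empty_or_nonempty with h0 | h0
  · have e1 : ∑ l ∈ A, ∑ j ∈ B, z l j = 0 := by
      rw [← Finset.sum_product', h0, Finset.sum_empty]
    have e2 : ∑ l ∈ A, ∑ j ∈ B, ‖z l j‖ ^ 12 = 0 := by
      rw [← Finset.sum_product' (f := fun l j => ‖z l j‖ ^ 12), h0, Finset.sum_empty]
    rw [e1, e2]
    simp
  have h1 : ‖∑ l ∈ A, ∑ j ∈ B, z l j‖ ≤ ∑ p ∈ A ×ˢ B, ‖z p.1 p.2‖ := by
    rw [← Finset.sum_product']
    exact norm_sum_le _ _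
  have h2 := pow_sum_div_card_le_sum_pow (s := A ×ˢ B) (f := fun p => ‖z p.1 p.2‖) (fun _ _ => norm_nonneg _) 11
  have hc : (0 : ℝ) < ((A ×ˢ B).card : ℝ) := by exact_mod_cast Finset.card_pos.2 h0
  rw [div_le_iff₀ (by positivity)] at h2
  have e3 : ((A ×ˢ B).card : ℝ) = (A.card : ℝ) * B.card := by
    rw [Finset.card_product]
    push_cast
    rfl
  rw [← Finset.sum_product' (f := fun l j => ‖z l j‖ ^ 12), ← e3]
  calc ‖∑ l ∈ A, ∑ j ∈ B, z l j‖ ^ 12 ≤ (∑ p ∈ A ×ˢ B, ‖z p.1 p.2‖) ^ (11 + 1) :=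
        pow_le_pow_left₀ (norm_nonneg _) h1 12
    _ ≤ (∑ p ∈ A ×ˢ B, ‖z p.1 p.2‖ ^ (11 + 1)) * ((A ×ˢ B).card : ℝ) ^ 11 := h2
    _ = ((A ×ˢ B).card : ℝ) ^ 11 * ∑ p ∈ A ×ˢ B, ‖z p.1 p.2‖ ^ 12 := mul_comm _ _

theorem tf_cut {M m : ℕ} (hM : 36 ≤ M) {b₀ H : ℝ} (hH : 0 < H) (a : ℤ × ℤ → ℂ) (r b : ℝ) :
    tf (reg b₀ H) a r b ≤ (9 * (M : ℝ) ^ (8 * m)) ^ 11 * ∑ l ∈ Finset.range (9 * M ^ (4 * m)), ∑ j ∈ Finset.range (M ^ (4 * m)),
      tf (slb b₀ H ((M : ℝ) ^ (4 * m)) (arc b₀ (reg b₀ H) (M ^ (4 * m)) j) l) a r b := by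
  classical
  have hMr : (36 : ℝ) ≤ M := by exact_mod_cast hM
  have hM0 : (0 : ℝ) < M := by linarith
  obtain ⟨b', hb'⟩ : ∃ b' : ℤ × ℤ → ℂ, b' = fun k => a k * ee (r * ph b k) := ⟨_, rfl⟩
  unfold tf
  rw [← hb']
  have hN : (1 : ℕ) ≤ M ^ (4 * m) := Nat.one_le_pow _ _ (by omega)
  -- the splitting
  have hsplit : ∀ c, tp (reg b₀ H) b' c = ∑ l ∈ Finset.range (9 * M ^ (4 * m)), ∑ j ∈ Finset.range (M ^ (4 * m)),
      tp (slb b₀ H ((M : ℝ) ^ (4 * m)) (arc b₀ (reg b₀ H) (M ^ (4 * m)) j) l) b' c := by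
    intro c
    have h1 : ∀ k ∈ reg b₀ H, ⌊uu b₀ k * (M : ℝ) ^ (4 * m) / H⌋₊ ∈ Finset.range (9 * M ^ (4 * m)) := by
      intro k hk
      obtain ⟨h2, h3, h4⟩ := mem_regg92 hk
      rw [Finset.mem_range, Nat.floor_lt (by
        have : 0 < uu b₀ k := by linarith
        positivity), div_lt_iff₀ hH]
      push_cast
      have h5 : (0 : ℝ) < (M : ℝ) ^ (4 * m) := by positivity
      nlinarith
    have h2 : ∀ k ∈ reg b₀ H, ⌊((M ^ (4 * m) : ℕ) : ℝ) * ((tt b₀ k + 6) / 12)⌋₊ ∈ Finset.range (M ^ (4 * m)) := by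
      intro k hk
      obtain ⟨hu, ht, -⟩ := tt_le92 hH hk
      rw [abs_le] at ht
      have h5 : (0 : ℝ) < ((M ^ (4 * m) : ℕ) : ℝ) := by exact_mod_cast hN
      rw [Finset.mem_range, Nat.floor_lt (mul_nonneg h5.le (by linarith))]
      calc ((M ^ (4 * m) : ℕ) : ℝ) * ((tt b₀ k + 6) / 12) < ((M ^ (4 * m) : ℕ) : ℝ) * 1 :=
            mul_lt_mul_of_pos_left (by linarith) h5
        _ = _ := mul_one _
    unfold tp
    rw [← Finset.sum_fiberwise_of_maps_to h1]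
    refine Finset.sum_congr rfl fun l _ => ?_
    rw [← Finset.sum_fiberwise_of_maps_to (s := (reg b₀ H).filter fun k => ⌊uu b₀ k * (M : ℝ) ^ (4 * m) / H⌋₊ = l)
      (t := Finset.range (M ^ (4 * m))) (g := fun k => ⌊((M ^ (4 * m) : ℕ) : ℝ) * ((tt b₀ k + 6) / 12)⌋₊)
      (fun k hk => h2 k (Finset.mem_filter.1 hk).1)]
    refine Finset.sum_congr rfl fun j _ => Finset.sum_congr ?_ fun _ _ => rfl
    ext k
    rw [Finset.mem_filter, Finset.mem_filter, mem_slb92, mem_arcc92]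
    tauto
  have hint : ∀ S : Finset (ℤ × ℤ), Integrable (fun c => ‖tp S b' c‖ ^ 12) (volume.restrict Tq) := by
    intro S
    have h1 : IsCompact Tq := isCompact_Icc.prod isCompact_Icc
    exact ((tp_cont S b').norm.pow 12).continuousOn.integrableOn_compact h1
  have e0 : ((Finset.range (9 * M ^ (4 * m))).card : ℝ) * (Finset.range (M ^ (4 * m))).card = 9 * (M : ℝ) ^ (8 * m) := by
    rw [Finset.card_range, Finset.card_range]
    push_cast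
    have : 8 * m = 4 * m + 4 * m := by ring
    rw [this, pow_add]
    ring
  unfold m12
  calc ∫ c in Tq, ‖tp (reg b₀ H) b' c‖ ^ 12
      ≤ ∫ c in Tq, (9 * (M : ℝ) ^ (8 * m)) ^ 11 * ∑ l ∈ Finset.range (9 * M ^ (4 * m)), ∑ j ∈ Finset.range (M ^ (4 * m)),
        ‖tp (slb b₀ H ((M : ℝ) ^ (4 * m)) (arc b₀ (reg b₀ H) (M ^ (4 * m)) j) l) b' c‖ ^ 12 := by
        refine integral_mono (hint _) ?_ ?_
        · refine Integrable.const_mul ?_ _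
          refine integrable_finsetSum _ fun l _ => integrable_finsetSum _ fun j _ => hint _
        · intro c
          simp only
          rw [hsplit c, ← e0]
          exact pm92 _ _ _
    _ = (9 * (M : ℝ) ^ (8 * m)) ^ 11 * ∑ l ∈ Finset.range (9 * M ^ (4 * m)), ∑ j ∈ Finset.range (M ^ (4 * m)),
        ∫ c in Tq, ‖tp (slb b₀ H ((M : ℝ) ^ (4 * m)) (arc b₀ (reg b₀ H) (M ^ (4 * m)) j) l) b' c‖ ^ 12 := by
        rw [integral_const_mul, integral_finsetSum _ fun l _ => integrable_finsetSum _ fun j _ => hint _]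
        congr 1
        refine Finset.sum_congr rfl fun l _ => ?_
        rw [integral_finsetSum _ fun j _ => hint _]

end Pool.Agent.Helper76.MM
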