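import Pool.Agent.Helper92.GC.Q5

/-!
# MM-D1: the sixth moment at a fixed slope

PROOF. `S = ∅`: clear. Otherwise fix `k₀ ∈ S`, `H' = 4 uu b₀ k₀ ∈ [H, 32 H]`. Dilation `k' = (2 k.1, k.2)`, `β' = 2 b`: `uu β' k' = 2 uu b k`, `tt β' k' = tt b k / 2`, `ph β' k' = ph b k / 2`, `dd k₁' k₂' = 2 dd k₁ k₂`. With `S' = S.image` and coefficients
`a' k' = a (k'.1/2, k'.2)` on `S'` and `0` elsewhere: `m6 S (a k * ee (r ph b k)) = m6 S' (a' k' * ee (2 r ph β' k'))` (the sixth moment of a trigonometric polynomial depends only on the coefficients: substitution `c₁ → 2c₁` in `Tq`; or by `m6_eq` (R0),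
or expand: easiest with `m6_eq`, bijection of the index sets). `S' ⊆ reg β' H'`: `uu b k = uu b₀ k (1 + (b-b₀) tt b₀ k) ∈ [0.9, 1.1] uu b₀ k`, `uu b₀ k ∈ [1/2, 2] uu b₀ k₀`: `2 uu b k ∈ [0.9, 4.4] uu b₀ k₀ ⊆ [H'/4 · 0.9 ..` — take the hypothesis
`uu b₀ k ≤ (11/10) uu b₀ k'`, so that `2 uu b k ∈ [1.6, 2.5] uu b₀ k₀ ⊆ [H'/4, 8H']`; `|tt β' k'| = |tt b k|/2 ≤ 5`.
Weight `v` : `IsDw (8T)` at `0` (`exists_dw`), so `v ≥ c₀/(8T)` on `[0, 8T] ∋ 2r`. `GC.dec` (T5, with `ε/3`) for `β'`, `H'`, `X = 8T`, coefficients `a'` on `reg β' H'`; `m` maximal with `M^(N₁ m) ≤ max 1 (H'²/8)` (`exists_nat_pow_near`): `M^(2 N₁ m) ≤ H'⁴/64 ≤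
144 H' 8T` as `T ≥ H³ ≥ (H'/32)³`; `M^(N₁ m) ≤ H'^3`. `n6 (arc) ≤ (number of k ∈ S' in the arc)^(5/3)` (`n6_gs_card`, T1) `≤ (..)²`, two members of one arc satisfy `|dd k' k''| ≤ (8H')² 12/M^(N₁ m) ≤ C` (as in `arc_pairs`, Q5), so the sum over the arcs is at
most the number of pairs of `S` with `|dd| ≤ C₂`. Then as `win` (Q4): `∫_{r₁}^{r₂} m6 ≤ (1/2)(8T/c₀) n6³`.
-/

open MeasureTheory Real Set Filter Topology

set_option autoImplicit false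

namespace Pool.Agent.Helper76.MM

open Pool.Agent.Helper22.AE
open Pool.Agent.Helper92.GC
open Pool.Agent.Helper22.AC (n6 IsWt mu)

private theorem m6_image30 (S : Finset (ℤ × ℤ)) (φ : ℤ × ℤ → ℤ × ℤ) (hφ : Function.Injective φ)
    (hadd : ∀ k l, φ (k + l) = φ k + φ l) (a : ℤ × ℤ → ℂ) : m6 (S.image φ) a = m6 S (fun k => a (φ k)) := by
  rw [m6_eq, m6_eq]
  have h3 : S3 (S.image φ) = (S3 S).image φ := by
    unfold S3
    ext l
    simp only [Finset.mem_image, Finset.mem_product]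
    constructor
    · rintro ⟨⟨x, y, z⟩, ⟨⟨x', hx, rfl⟩, ⟨y', hy, rfl⟩, ⟨z', hz, rfl⟩⟩, rfl⟩
      exact ⟨x' + y' + z', ⟨(x', y', z'), ⟨hx, hy, hz⟩, rfl⟩, by rw [hadd, hadd]⟩
    · rintro ⟨w, ⟨⟨x, y, z⟩, ⟨hx, hy, hz⟩, rfl⟩, rfl⟩
      exact ⟨(φ x, φ y, φ z), ⟨⟨x, hx, rfl⟩, ⟨y, hy, rfl⟩, ⟨z, hz, rfl⟩⟩, by rw [hadd, hadd]⟩
  rw [h3, Finset.sum_image (fun x _ y _ h => hφ h)]
  refine Finset.sum_congr rfl fun l _ => ?_
  have h4 : cub (S.image φ) a (φ l) = cub S (fun k => a (φ k)) l := by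
    unfold cub
    rw [Finset.sum_filter, Finset.sum_filter]
    simp only [Finset.sum_product]
    rw [Finset.sum_image (fun x _ y _ h => hφ h)]
    refine Finset.sum_congr rfl fun x _ => ?_
    rw [Finset.sum_image (fun x _ y _ h => hφ h)]
    refine Finset.sum_congr rfl fun y _ => ?_
    rw [Finset.sum_image (fun x _ y _ h => hφ h)]
    refine Finset.sum_congr rfl fun z _ => ?_
    rw [← hadd, ← hadd]
    simp only [hφ.eq_iff]
  rw [h4]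

private theorem m6_subset30 {S R : Finset (ℤ × ℤ)} (h : S ⊆ R) {a : ℤ × ℤ → ℂ} (ha : ∀ k, k ∉ S → a k = 0) :
    m6 R a = m6 S a := by
  have h1 : tp R a = tp S a := by
    funext c
    unfold tp
    refine (Finset.sum_subset h fun k _ hk => ?_).symm
    rw [ha k hk, zero_mul]
  unfold m6
  rw [h1]

private theorem gs_subset30 {S R : Finset (ℤ × ℤ)} (h : S ⊆ R) {a : ℤ × ℤ → ℂ} (f : ℤ × ℤ → ℝ)
    (ha : ∀ k ∈ R, k ∉ S → a k = 0) : gs R a f = gs S a f := by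
  funext q
  unfold gs
  refine (Finset.sum_subset h fun k hR hk => ?_).symm
  rw [ha k hR hk, zero_mul]

private theorem m6_cont30 (S : Finset (ℤ × ℤ)) (a : ℤ × ℤ → ℂ) (f : ℤ × ℤ → ℝ) :
    Continuous (fun R : ℝ => m6 S (fun k => a k * ee (R * f k))) := by
  have hcomp : IsCompact Tq := isCompact_Icc.prod isCompact_Icc
  unfold m6
  refine continuous_parametric_integral_of_continuous
    (f := fun (R : ℝ) (c : ℝ × ℝ) => ‖tp S (fun k => a k * ee (R * f k)) c‖ ^ 6) ?_ hcomp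
  have h1 : Continuous (fun q : ℝ × (ℝ × ℝ) => tp S (fun k => a k * ee (q.1 * f k)) q.2) := by
    unfold tp dt
    refine continuous_finsetSum _ fun k _ => ?_
    refine Continuous.mul (Continuous.mul continuous_const (ee_cont.comp (by fun_prop))) (ee_cont.comp (by fun_prop))
  exact h1.norm.pow 6

private theorem wt_int30 {X : ℝ} {v : ℝ → ℝ} (hv : IsWt X v) : Integrable v := by
  by_contra hcon
  have h2 := hv.int_one
  rw [integral_undef hcon] at h2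
  exact zero_ne_one h2

private theorem win30 {X R₁ : ℝ} {v : ℝ → ℝ} {c₀ : ℝ} {Cd : ℕ → ℝ} (hX : 0 < X) (hc : 0 < c₀) (h : IsDw X R₁ v c₀ Cd)
    (S : Finset (ℤ × ℤ)) {a : ℤ × ℤ → ℂ} (ha : ∀ k, ‖a k‖ ≤ 1) (f : ℤ × ℤ → ℝ) :
    ∫ R in Icc R₁ (R₁ + X), m6 S (fun k => a k * ee (R * f k)) ≤ X / c₀ * n6 (mu v) (gs S a f) ^ 3 := by
  have hg := m6_cont30 S a f
  have hg0 : ∀ R : ℝ, 0 ≤ m6 S (fun k => a k * ee (R * f k)) := fun R => m6_nonneg S _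
  have hgb : ∀ R : ℝ, m6 S (fun k => a k * ee (R * f k)) ≤ (S.card : ℝ) ^ 6 := fun R =>
    m6_card S fun k => by
      rw [norm_mul, ee_norm, mul_one]
      exact ha k
  have hs := n6_slice h.wt S a f
  have hint : Integrable (fun R => v R * m6 S (fun k => a k * ee (R * f k))) := by
    refine (wt_int30 h.wt).mul_bdd (c := (S.card : ℝ) ^ 6) hg.aestronglyMeasurable
      (Filter.Eventually.of_forall fun R => ?_)
    rw [Real.norm_of_nonneg (hg0 R)]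
    exact hgb R
  have h1 : ∫ R in Icc R₁ (R₁ + X), c₀ / X * m6 S (fun k => a k * ee (R * f k)) ≤
      ∫ R in Icc R₁ (R₁ + X), v R * m6 S (fun k => a k * ee (R * f k)) := by
    refine setIntegral_mono_on ?_ hint.integrableOn measurableSet_Icc fun R hR => ?_
    · exact (continuous_const.mul hg).continuousOn.integrableOn_compact isCompact_Icc
    · exact mul_le_mul_of_nonneg_right (h.low R hR) (hg0 R)
  have h2 : ∫ R in Icc R₁ (R₁ + X), v R * m6 S (fun k => a k * ee (R * f k)) ≤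
      ∫ R, v R * m6 S (fun k => a k * ee (R * f k)) :=
    setIntegral_le_integral hint (Filter.Eventually.of_forall fun R =>
      mul_nonneg (h.wt.nonneg R) (hg0 R))
  rw [integral_const_mul] at h1
  rw [hs]
  have h3 := h1.trans h2
  have h4 := mul_le_mul_of_nonneg_left h3 (by positivity : 0 ≤ X / c₀)
  refine le_trans (le_of_eq ?_) h4
  field_simp

/-- the dilation and a shear -/
private def dl30 (n : ℤ) (k : ℤ × ℤ) : ℤ × ℤ := (2 * (k.1 + n * k.2), k.2)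

private theorem dl_inj30 (n : ℤ) : Function.Injective (dl30 n) := by
  intro k l h
  have h1 : 2 * (k.1 + n * k.2) = 2 * (l.1 + n * l.2) := (Prod.mk.inj h).1
  have h2 : k.2 = l.2 := (Prod.mk.inj h).2
  rw [h2] at h1
  exact Prod.ext (by omega) h2

private theorem dl_add30 (n : ℤ) (k l : ℤ × ℤ) : dl30 n (k + l) = dl30 n k + dl30 n l := by
  unfold dl30
  refine Prod.ext ?_ rfl
  change 2 * ((k.1 + l.1) + n * (k.2 + l.2)) = 2 * (k.1 + n * k.2) + 2 * (l.1 + n * l.2)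
  ring

private theorem uu_dl30 (n : ℤ) (b : ℝ) (k : ℤ × ℤ) : uu (2 * (b - n)) (dl30 n k) = 2 * uu b k := by
  unfold uu dl30
  push_cast
  ring

private theorem ph_dl30 (n : ℤ) (b : ℝ) (k : ℤ × ℤ) (r : ℝ) :
    2 * r * ph (2 * (b - n)) (dl30 n k) = r * ph b k := by
  have h1 : ph (2 * (b - n)) (dl30 n k) = (k.2 : ℝ) ^ 2 / (2 * uu b k) := by
    unfold ph
    rw [uu_dl30]
    rfl
  rw [h1]
  unfold ph
  rcases eq_or_ne (uu b k) 0 with h | h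
  · rw [h, mul_zero, div_zero, mul_zero, mul_zero]
  · field_simp

private theorem dd_dl30 (n : ℤ) (k l : ℤ × ℤ) : dd (dl30 n k) (dl30 n l) = 2 * dd k l := by
  unfold dd dl30
  ring

private theorem reg_iff30 {β H : ℝ} {k : ℤ × ℤ} (hk : k ∈ reg β H) :
    H / 4 ≤ uu β k ∧ uu β k ≤ 8 * H ∧ |(k.2 : ℝ)| ≤ 5 * uu β k := by
  classical
  unfold reg at hk
  rw [Finset.mem_filter] at hk
  exact hk.2

private theorem reg_mem30 {β H : ℝ} {k : ℤ × ℤ} (h1 : H / 4 ≤ uu β k) (h2 : uu β k ≤ 8 * H)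
    (h3 : |(k.2 : ℝ)| ≤ 5 * uu β k) (h4 : |(k.1 : ℝ)| ≤ 40 * H) (h5 : |(k.2 : ℝ)| ≤ 40 * H) : k ∈ reg β H := by
  classical
  unfold reg
  rw [Finset.mem_filter]
  refine ⟨?_, h1, h2, h3⟩
  have g1 : |(k.1 : ℝ)| ≤ ((⌈40 * H⌉₊ : ℤ) : ℝ) := by
    push_cast
    exact h4.trans (Nat.le_ceil _)
  have g2 : |(k.2 : ℝ)| ≤ ((⌈40 * H⌉₊ : ℤ) : ℝ) := by
    push_cast
    exact h5.trans (Nat.le_ceil _)
  have g3 : |k.1| ≤ (⌈40 * H⌉₊ : ℤ) := by exact_mod_cast g1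
  have g4 : |k.2| ≤ (⌈40 * H⌉₊ : ℤ) := by exact_mod_cast g2
  unfold box
  rw [Finset.mem_product, Finset.mem_Icc, Finset.mem_Icc]
  exact ⟨abs_le.1 g3, abs_le.1 g4⟩

private theorem arc_dd30 {β H : ℝ} {N j : ℕ} (hH : 1 ≤ H) (hN : 1 ≤ N) {k k' : ℤ × ℤ}
    (hk : k ∈ arc β (reg β H) N j) (hk' : k' ∈ arc β (reg β H) N j) :
    |((dd k k' : ℤ) : ℝ)| ≤ 768 * H ^ 2 / N := by
  classical
  unfold arc at hk hk'
  rw [Finset.mem_filter] at hk hk'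
  obtain ⟨h1, h2, h3⟩ := reg_iff30 hk.1
  obtain ⟨h1', h2', h3'⟩ := reg_iff30 hk'.1
  have hu : 0 < uu β k := by linarith
  have hu' : 0 < uu β k' := by linarith
  have hN0 : (0 : ℝ) < N := by exact_mod_cast hN
  have ht : |tt β k| ≤ 5 := by
    unfold tt
    rw [abs_div, abs_of_pos hu, div_le_iff₀ hu]
    exact h3
  have ht' : |tt β k'| ≤ 5 := by
    unfold tt
    rw [abs_div, abs_of_pos hu', div_le_iff₀ hu']
    exact h3'
  have a1 := (abs_le.1 ht).1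
  have a2 := (abs_le.1 ht').1
  have f1 := (Nat.floor_eq_iff (by
    have : 0 ≤ (tt β k + 6) / 12 := by linarith
    positivity)).1 hk.2
  have f2 := (Nat.floor_eq_iff (by
    have : 0 ≤ (tt β k' + 6) / 12 := by linarith
    positivity)).1 hk'.2
  have hd : |tt β k' - tt β k| ≤ 12 / N := by
    have h7 : |tt β k' - tt β k| * N = |(tt β k' - tt β k) * N| := by rw [abs_mul, abs_of_pos hN0]
    rw [le_div_iff₀ hN0, h7, abs_le]
    constructor <;> linarith [f1.1, f1.2, f2.1, f2.2]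
  have e1 : (k.2 : ℝ) = tt β k * uu β k := by
    unfold tt
    rw [div_mul_cancel₀ _ hu.ne']
  have e1' : (k'.2 : ℝ) = tt β k' * uu β k' := by
    unfold tt
    rw [div_mul_cancel₀ _ hu'.ne']
  have e2 : (k.1 : ℝ) = uu β k - β * k.2 := by
    unfold uu
    ring
  have e2' : (k'.1 : ℝ) = uu β k' - β * k'.2 := by
    unfold uu
    ring
  have e : ((dd k k' : ℤ) : ℝ) = uu β k * uu β k' * (tt β k' - tt β k) := by
    unfold dd
    push_cast
    rw [e2, e2']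
    have : (uu β k - β * (k.2 : ℝ)) * (k'.2 : ℝ) - (k.2 : ℝ) * (uu β k' - β * (k'.2 : ℝ)) =
      uu β k * (k'.2 : ℝ) - (k.2 : ℝ) * uu β k' := by ring
    rw [this, e1, e1']
    ring
  rw [e, abs_mul, abs_mul, abs_of_pos hu, abs_of_pos hu']
  calc uu β k * uu β k' * |tt β k' - tt β k| ≤ (8 * H) * (8 * H) * (12 / N) := by gcongr
    _ = 768 * H ^ 2 / N := by ring

open Classical in
/-- the sum over the arcs -/
private theorem arcs_sum30 {n : ℤ} {S : Finset (ℤ × ℤ)} {β H C : ℝ} {N : ℕ} (hH : 1 ≤ H) (hN : 1 ≤ N)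
    (hC : 768 * H ^ 2 / N ≤ 2 * C) :
    ∑ r ∈ Finset.range N, ((((arc β (reg β H) N r).filter (fun k => k ∈ S.image (dl30 n))).card : ℕ) : ℝ) ^ (5 / 3 : ℝ) ≤
      (((S ×ˢ S).filter (fun q => |((dd q.1 q.2 : ℤ) : ℝ)| ≤ C)).card : ℝ) := by
  obtain ⟨B, hB⟩ : ∃ B : ℕ → Finset (ℤ × ℤ), ∀ r, B r = S.filter (fun k => dl30 n k ∈ arc β (reg β H) N r) :=
    ⟨_, fun _ => rfl⟩
  have hBc : ∀ r, ((arc β (reg β H) N r).filter (fun k => k ∈ S.image (dl30 n))).card ≤ (B r).card := by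
    intro r
    have h1 : (arc β (reg β H) N r).filter (fun k => k ∈ S.image (dl30 n)) ⊆ (B r).image (dl30 n) := by
      intro k hk
      obtain ⟨h2, h3⟩ := Finset.mem_filter.1 hk
      obtain ⟨l, hl, rfl⟩ := Finset.mem_image.1 h3
      refine Finset.mem_image_of_mem _ ?_
      rw [hB, Finset.mem_filter]
      exact ⟨hl, h2⟩
    exact (Finset.card_le_card h1).trans Finset.card_image_le
  have h2 : ∀ r, ((((arc β (reg β H) N r).filter (fun k => k ∈ S.image (dl30 n))).card : ℕ) : ℝ) ^ (5 / 3 : ℝ) ≤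
      (((B r) ×ˢ (B r)).card : ℝ) := by
    intro r
    have h3 : ((((arc β (reg β H) N r).filter (fun k => k ∈ S.image (dl30 n))).card : ℕ) : ℝ) ≤ ((B r).card : ℝ) := by
      exact_mod_cast hBc r
    refine (rpow_le_rpow (by positivity) h3 (by norm_num)).trans ?_
    rw [Finset.card_product]
    push_cast
    rcases Nat.eq_zero_or_pos (B r).card with h | h
    · rw [h]
      norm_num
    · have h3 : (1 : ℝ) ≤ ((B r).card : ℝ) := by exact_mod_cast h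
      calc ((B r).card : ℝ) ^ (5 / 3 : ℝ) ≤ ((B r).card : ℝ) ^ (2 : ℝ) :=
            rpow_le_rpow_of_exponent_le h3 (by norm_num)
        _ = _ := by
            rw [rpow_two]
            ring
  refine (Finset.sum_le_sum fun r _ => h2 r).trans ?_
  have h4 : ((Finset.range N).biUnion fun j => (B j) ×ˢ (B j)).card = ∑ j ∈ Finset.range N, ((B j) ×ˢ (B j)).card := by
    refine Finset.card_biUnion fun i _ j _ hij => ?_
    refine Finset.disjoint_left.2 ?_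
    rintro ⟨k, k'⟩ h5 h6
    have h7 := (Finset.mem_product.1 h5).1
    have h8 := (Finset.mem_product.1 h6).1
    rw [hB, Finset.mem_filter] at h7 h8
    have h9 := h7.2
    have h10 := h8.2
    unfold arc at h9 h10
    rw [Finset.mem_filter] at h9 h10
    exact hij (h9.2.symm.trans h10.2)
  have h5 : ((Finset.range N).biUnion fun j => (B j) ×ˢ (B j)) ⊆
      (S ×ˢ S).filter (fun q => |((dd q.1 q.2 : ℤ) : ℝ)| ≤ C) := by
    intro q hq
    rw [Finset.mem_biUnion] at hq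
    obtain ⟨j, -, hj⟩ := hq
    have h7 := (Finset.mem_product.1 hj).1
    have h8 := (Finset.mem_product.1 hj).2
    rw [hB, Finset.mem_filter] at h7 h8
    rw [Finset.mem_filter]
    refine ⟨Finset.mem_product.2 ⟨h7.1, h8.1⟩, ?_⟩
    have h9 := arc_dd30 hH hN h7.2 h8.2
    rw [dd_dl30] at h9
    push_cast at h9
    rw [abs_mul, abs_of_pos (by norm_num : (0 : ℝ) < 2)] at h9
    linarith
  have h6 := Finset.card_le_card h5
  rw [h4] at h6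
  exact_mod_cast h6

private theorem sub30 {b₀ b H : ℝ} {S : Finset (ℤ × ℤ)} (hH : 1 ≤ H) (hb : |b - b₀| ≤ 1 / 50) (hS : S ⊆ reg b₀ H)
    (hrat : ∀ k ∈ S, ∀ k' ∈ S, uu b₀ k ≤ 11 / 10 * uu b₀ k') {n : ℤ} (hn : |b₀ - n| ≤ 1 / 2) {k₀ : ℤ × ℤ} (hk₀ : k₀ ∈ S) :
    S.image (dl30 n) ⊆ reg (2 * (b - n)) (4 * uu b₀ k₀) := by
  intro k' hk'
  obtain ⟨k, hk, rfl⟩ := Finset.mem_image.1 hk'
  obtain ⟨g1, g2, g3⟩ := reg_iff30 (hS hk)
  have r1 := hrat k hk k₀ hk₀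
  have r2 := hrat k₀ hk₀ k hk
  obtain ⟨u, hu⟩ : ∃ u : ℝ, u = uu b₀ k := ⟨_, rfl⟩
  obtain ⟨U, hU⟩ : ∃ U : ℝ, U = uu b₀ k₀ := ⟨_, rfl⟩
  rw [← hu] at g1 g2 g3 r1 r2
  rw [← hU] at r1 r2 ⊢
  have hu0 : 0 < u := by linarith
  have e : uu b k = u + (b - b₀) * k.2 := by
    rw [hu]
    unfold uu
    ring
  have e1 : |(b - b₀) * (k.2 : ℝ)| ≤ u / 10 := by
    rw [abs_mul]
    calc |b - b₀| * |(k.2 : ℝ)| ≤ 1 / 50 * (5 * u) := mul_le_mul hb g3 (abs_nonneg _) (by norm_num)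
      _ = u / 10 := by ring
  obtain ⟨e2, e3⟩ := abs_le.1 e1
  have f1 : uu (2 * (b - n)) (dl30 n k) = 2 * uu b k := uu_dl30 n b k
  have f2 : (((dl30 n k).2 : ℤ) : ℝ) = (k.2 : ℝ) := rfl
  have f3 : (((dl30 n k).1 : ℤ) : ℝ) = 2 * (u - (b₀ - n) * k.2) := by
    rw [hu]
    unfold dl30 uu
    push_cast
    ring
  have f4 : |(b₀ - n) * (k.2 : ℝ)| ≤ 5 / 2 * u := by
    rw [abs_mul]
    calc |b₀ - n| * |(k.2 : ℝ)| ≤ 1 / 2 * (5 * u) := mul_le_mul hn g3 (abs_nonneg _) (by norm_num)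
      _ = 5 / 2 * u := by ring
  obtain ⟨f5, f6⟩ := abs_le.1 f4
  refine reg_mem30 ?_ ?_ ?_ ?_ ?_
  · rw [f1, e]
    linarith
  · rw [f1, e]
    linarith
  · rw [f1, f2, e]
    linarith
  · rw [f3, abs_le]
    constructor <;> linarith
  · rw [f2]
    linarith

theorem six {ε : ℝ} (hε : 0 < ε) : ∃ C C₂ : ℝ, 1 ≤ C ∧ 1 ≤ C₂ ∧ ∀ (b₀ b H T r₁ r₂ : ℝ) (a : ℤ × ℤ → ℂ) (S : Finset (ℤ × ℤ)),
    1 ≤ H → H ^ 3 ≤ T → |b - b₀| ≤ 1 / 50 → T / 4 ≤ r₁ → r₁ ≤ r₂ → r₂ ≤ 4 * T → (∀ k, ‖a k‖ ≤ 1) → S ⊆ reg b₀ H →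
      (∀ k ∈ S, ∀ k' ∈ S, uu b₀ k ≤ 11 / 10 * uu b₀ k') →
      ∫ r in Icc r₁ r₂, m6 S (fun k => a k * ee (r * ph b k)) ≤
        C * H ^ ε * T * (((S ×ˢ S).filter (fun q => |((dd q.1 q.2 : ℤ) : ℝ)| ≤ C₂)).card : ℝ) ^ 3 := by
  classical
  obtain ⟨c₀, hc₀, Cd, hdw⟩ := exists_dw
  obtain ⟨M, N₁, hM, hN₁, C₁, hC₁, hdec⟩ := dec (ε := ε / 3) (by positivity)
  have hM0 : (1 : ℝ) < M := by exact_mod_cast (by omega : 1 < M)
  obtain ⟨y, hy⟩ : ∃ y : ℝ, y = (M : ℝ) ^ N₁ := ⟨_, rfl⟩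
  have hy1 : 1 < y := by
    rw [hy]
    exact one_lt_pow₀ hM0 (by omega)
  have hy0 : 0 < y := by linarith
  refine ⟨max 1 (4 / c₀ * (C₁ ^ 3 * (32 : ℝ) ^ ε)), 3072 * y, le_max_left _ _, by linarith, ?_⟩
  intro b₀ b H T r₁ r₂ a S hH hT hb hr₁ hr hr₂ ha hS hrat
  have hH0 : 0 < H := by linarith
  have hT1 : 1 ≤ T := by
    have : 1 ≤ H ^ 3 := one_le_pow₀ hH
    linarith
  have hT0 : 0 < T := by linarith
  obtain ⟨P, hP⟩ : ∃ P : ℝ, P = (((S ×ˢ S).filter (fun q => |((dd q.1 q.2 : ℤ) : ℝ)| ≤ 3072 * y)).card : ℝ) := ⟨_, rfl⟩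
  have hP0 : 0 ≤ P := by
    rw [hP]
    positivity
  rw [← hP]
  rcases S.eq_empty_or_nonempty with hSe | ⟨k₀, hk₀⟩
  · have h1 : ∀ r : ℝ, m6 S (fun k => a k * ee (r * ph b k)) = 0 := by
      intro r
      rw [hSe]
      unfold m6 tp
      simp
    simp only [h1]
    rw [integral_zero]
    positivity
  obtain ⟨u1, u2, -⟩ := reg_iff30 (hS hk₀)
  obtain ⟨H', hH'⟩ : ∃ H' : ℝ, H' = 4 * uu b₀ k₀ := ⟨_, rfl⟩
  have hH1 : 1 ≤ H' := by rw [hH']; linarith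
  have hH0' : 0 < H' := by linarith
  have hH32 : H' ≤ 32 * H := by rw [hH']; linarith
  obtain ⟨n, hn⟩ : ∃ n : ℤ, n = round b₀ := ⟨_, rfl⟩
  have hn2 : |b₀ - n| ≤ 1 / 2 := by
    rw [hn]
    exact abs_sub_round b₀
  have hsub := sub30 hH hb hS hrat hn2 hk₀
  rw [← hH'] at hsub
  obtain ⟨β, hβ⟩ : ∃ β : ℝ, β = 2 * (b - n) := ⟨_, rfl⟩
  rw [← hβ] at hsub
  obtain ⟨a', ha'⟩ : ∃ a' : ℤ × ℤ → ℂ, ∀ k, a' k = if k ∈ S.image (dl30 n) then a (k.1 / 2 - n * k.2, k.2) else 0 :=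
    ⟨_, fun _ => rfl⟩
  have ha1 : ∀ k, ‖a' k‖ ≤ 1 := by
    intro k
    rw [ha']
    split_ifs
    · exact ha _
    · rw [norm_zero]
      exact zero_le_one
  have ha2 : ∀ k, k ∉ S.image (dl30 n) → a' k = 0 := fun k hk => by rw [ha', if_neg hk]
  have ha3 : ∀ k ∈ S, a' (dl30 n k) = a k := by
    intro k hk
    rw [ha', if_pos (Finset.mem_image_of_mem _ hk)]
    congr 1
    refine Prod.ext ?_ rfl
    change 2 * (k.1 + n * k.2) / 2 - n * k.2 = k.1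
    rw [Int.mul_ediv_cancel_left _ (by norm_num)]
    ring
  obtain ⟨G, hG⟩ : ∃ G : ℝ → ℝ, ∀ R, G R = m6 (reg β H') (fun k => a' k * ee (R * ph β k)) := ⟨_, fun _ => rfl⟩
  have hGc : Continuous G := by
    have : G = fun R => m6 (reg β H') (fun k => a' k * ee (R * ph β k)) := funext hG
    rw [this]
    exact m6_cont30 _ _ _
  have hG0 : ∀ R, 0 ≤ G R := fun R => by
    rw [hG]
    exact m6_nonneg _ _
  have hGr : ∀ r : ℝ, m6 S (fun k => a k * ee (r * ph b k)) = G (2 * r) := by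
    intro r
    rw [hG, m6_subset30 hsub (fun k hk => by rw [ha2 k hk, zero_mul]), m6_image30 S _ (dl_inj30 n) (dl_add30 n)]
    refine m6_congr fun k hk => ?_
    rw [ha3 k hk, hβ, ph_dl30]
  simp only [hGr]
  -- the integral
  have hI : ∫ r in Icc r₁ r₂, G (2 * r) ≤ 2⁻¹ * ∫ R in Icc 0 (0 + 8 * T), G R := by
    rw [integral_Icc_eq_integral_Ioc, ← intervalIntegral.integral_of_le hr,
      intervalIntegral.integral_comp_mul_left G (by norm_num : (2 : ℝ) ≠ 0), smul_eq_mul]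
    refine mul_le_mul_of_nonneg_left ?_ (by norm_num)
    rw [intervalIntegral.integral_of_le (by linarith), ← integral_Icc_eq_integral_Ioc]
    refine setIntegral_mono_set ?_ (Filter.Eventually.of_forall fun R => hG0 R) ?_
    · exact hGc.continuousOn.integrableOn_compact isCompact_Icc
    · exact (Icc_subset_Icc (by linarith) (by linarith)).eventuallyLE
  obtain ⟨v, hv⟩ := hdw (8 * T) (by linarith) 0
  have hW : ∫ R in Icc 0 (0 + 8 * T), G R ≤ 8 * T / c₀ * n6 (mu v) (gs (reg β H') a' (ph β)) ^ 3 := by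
    simp only [hG]
    exact win30 (by linarith) hc₀ hv (reg β H') ha1 (ph β)
  -- the parameter
  obtain ⟨m, hm1, hm2⟩ := exists_nat_pow_near (le_max_left 1 (H' ^ 2 / 8)) hy1
  have hcast : ((M ^ (N₁ * m) : ℕ) : ℝ) = y ^ m := by
    rw [hy]
    push_cast
    rw [pow_mul]
  have hpos : (0 : ℝ) < y ^ m := by positivity
  have hN1 : 1 ≤ M ^ (N₁ * m) := Nat.one_le_pow _ _ (by omega)
  have hc2 : (M : ℝ) ^ (N₁ * m) ≤ H' ^ 3 := by
    rw [pow_mul, ← hy]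
    refine hm1.trans (max_le (one_le_pow₀ hH1) ?_)
    have : H' ^ 2 ≤ H' ^ 3 := pow_le_pow_right₀ hH1 (by norm_num)
    have h0 : 0 ≤ H' ^ 2 := by positivity
    linarith
  have hc1 : (M : ℝ) ^ (2 * (N₁ * m)) ≤ 144 * (H' * (8 * T)) := by
    have h1 : (M : ℝ) ^ (2 * (N₁ * m)) = (y ^ m) ^ 2 := by
      rw [hy, ← pow_mul, ← pow_mul]
      congr 1
      ring
    rw [h1]
    have h2 : (y ^ m) ^ 2 ≤ (max 1 (H' ^ 2 / 8)) ^ 2 := pow_le_pow_left₀ hpos.le hm1 2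
    have h5 : H' ^ 3 ≤ 32768 * T := by
      calc H' ^ 3 ≤ (32 * H) ^ 3 := pow_le_pow_left₀ hH0'.le hH32 3
        _ = 32768 * H ^ 3 := by ring
        _ ≤ 32768 * T := by linarith
    rcases max_cases (1 : ℝ) (H' ^ 2 / 8) with ⟨h3, _⟩ | ⟨h3, _⟩
    · rw [h3] at h2
      have h4 : 1 ≤ H' * T := one_le_mul_of_one_le_of_one_le hH1 hT1
      linarith
    · rw [h3] at h2
      have h4 : (H' ^ 2 / 8) ^ 2 = H' * H' ^ 3 / 64 := by ring
      have h6 : H' * H' ^ 3 ≤ H' * (32768 * T) := mul_le_mul_of_nonneg_left h5 hH0'.le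
      have h7 : 0 ≤ H' * T := by positivity
      rw [h4] at h2
      linarith
  have hratio : 768 * H' ^ 2 / ((M ^ (N₁ * m) : ℕ) : ℝ) ≤ 2 * (3072 * y) := by
    rw [hcast, div_le_iff₀ hpos]
    have h1 : H' ^ 2 / 8 < y ^ (m + 1) := lt_of_le_of_lt (le_max_right _ _) hm2
    rw [pow_succ y m] at h1
    have h2 : 2 * (3072 * y) * y ^ m = 6144 * (y ^ m * y) := by ring
    rw [h2]
    linarith
  have hn6 : n6 (mu v) (gs (reg β H') a' (ph β)) ≤ C₁ * H' ^ (ε / 3) * P := by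
    refine (hdec m β H' (8 * T) v a' hH1 (by linarith) hv.wt hc1 hc2).trans ?_
    refine mul_le_mul_of_nonneg_left ?_ (by positivity)
    rw [hP]
    refine le_trans ?_ (arcs_sum30 (n := n) (S := S) (β := β) (H := H') (N := M ^ (N₁ * m)) hH1 hN1 hratio)
    refine Finset.sum_le_sum fun r _ => ?_
    rw [gs_subset30 (Finset.filter_subset (fun k => k ∈ S.image (dl30 n)) (arc β (reg β H') (M ^ (N₁ * m)) r)) (ph β)
      (fun k hk hk2 => ha2 k fun h => hk2 (Finset.mem_filter.2 ⟨hk, h⟩))]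
    exact n6_gs_card hv.wt _ ha1 _
  have hn0 : 0 ≤ n6 (mu v) (gs (reg β H') a' (ph β)) := Pool.Agent.Helper22.AC.n6_nonneg _ _
  have hn3 : n6 (mu v) (gs (reg β H') a' (ph β)) ^ 3 ≤ C₁ ^ 3 * ((32 : ℝ) ^ ε * H ^ ε) * P ^ 3 := by
    refine (pow_le_pow_left₀ hn0 hn6 3).trans ?_
    have h1 : (C₁ * H' ^ (ε / 3) * P) ^ 3 = C₁ ^ 3 * H' ^ ε * P ^ 3 := by
      have h2 : (H' ^ (ε / 3)) ^ 3 = H' ^ ε := by
        rw [← rpow_natCast (H' ^ (ε / 3)) 3, ← rpow_mul hH0'.le]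
        congr 1
        push_cast
        ring
      rw [mul_pow, mul_pow, h2]
    rw [h1]
    have h3 : H' ^ ε ≤ (32 : ℝ) ^ ε * H ^ ε := by
      rw [← mul_rpow (by norm_num) hH0.le]
      exact rpow_le_rpow hH0'.le hH32 hε.le
    gcongr
  calc ∫ r in Icc r₁ r₂, G (2 * r) ≤ 2⁻¹ * ∫ R in Icc 0 (0 + 8 * T), G R := hI
    _ ≤ 2⁻¹ * (8 * T / c₀ * n6 (mu v) (gs (reg β H') a' (ph β)) ^ 3) := mul_le_mul_of_nonneg_left hW (by norm_num)
    _ ≤ 2⁻¹ * (8 * T / c₀ * (C₁ ^ 3 * ((32 : ℝ) ^ ε * H ^ ε) * P ^ 3)) := by gcongr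
    _ = 4 / c₀ * (C₁ ^ 3 * (32 : ℝ) ^ ε) * H ^ ε * T * P ^ 3 := by ring
    _ ≤ max 1 (4 / c₀ * (C₁ ^ 3 * (32 : ℝ) ^ ε)) * H ^ ε * T * P ^ 3 := by
        gcongr
        exact le_max_right _ _

end Pool.Agent.Helper76.MM
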