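import Pool.Agent.Helper76.MM.A1
import Pool.Agent.Helper76.MM.D1

/-!
# MM-D2: the end estimate

PROOF. `S_j = arc b₀ S N j`, `P_j` = number of pairs of `S_j` with `|dd| ≤ C₂`. Pointwise `‖tp‖^12 ≤ (#S_j)^6 ‖tp‖^6`, so `tf S_j a r b ≤ (#S_j)^6 m6 S_j (..)` and by `six` (with a small `ε'`) for each `b`:
`∫_r tf ≤ (#S_j)^6 C H^ε' T P_j³`, `TT S_j .. ≤ (β₂ - β₁) · that ≤ C H^ε' T ((#S_j)² P_j)^3`. `(TT + K)^(1/6) ≤ TT^(1/6) + K^(1/6)`. Sum over `j < N`, Cauchy-Schwarz: `∑_j #S_j P_j^(1/2) ≤ (∑ (#S_j)²)^(1/2) (∑ P_j)^(1/2)`;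
`∑ (#S_j)² ≤` pairs of `reg b₀ H` with `|dd| ≤ 768 H²/N` (see `arc_pairs`, Q5), `∑ P_j ≤` pairs with `|dd| ≤ C₂` (`S_j` disjoint): `reg_pairs` (Q3) gives `C H² (1 + log H)(1 + 768 H²/N)` and `C H² (1 + log H)(1 + C₂)`;
`√(1 + 768 H²/N) ≤ 1 + 28 H/√N`, `1 + log H ≤ C H^(ε/2)`. The constants: `N K^(1/6) ≤ H² K^(1/6)`, `T ≥ 1`.
-/

open MeasureTheory Real Set Filter Topology

set_option autoImplicit false

namespace Pool.Agent.Helper76.MM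

open Pool.Agent.Helper22.AE
open Pool.Agent.Helper92.GC
open Pool.Agent.Helper92.DT (m12)
open Pool.Agent.Helper78.CE (p2 p3 hs mu2 InReg)
open Pool.Agent.Helper22.AC (IsWt)

open Classical in
private noncomputable def d2P (S : Finset (ℤ × ℤ)) (C₂ : ℝ) : Finset ((ℤ × ℤ) × (ℤ × ℤ)) :=
  (S ×ˢ S).filter (fun q => |((dd q.1 q.2 : ℤ) : ℝ)| ≤ C₂)

private theorem d2_tq : IsProbabilityMeasure ((volume : Measure (ℝ × ℝ)).restrict Tq) := by
  constructor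
  unfold Tq
  rw [Measure.restrict_apply_univ, Measure.volume_eq_prod, Measure.prod_prod, Real.volume_Icc,
    sub_zero, ENNReal.ofReal_one, mul_one]

private theorem d2_tp_card (S : Finset (ℤ × ℤ)) {b : ℤ × ℤ → ℂ} (hb : ∀ k, ‖b k‖ ≤ 1) (c : ℝ × ℝ) :
    ‖tp S b c‖ ≤ (S.card : ℝ) := by
  refine (tp_norm_le S b c).trans ?_
  refine (Finset.sum_le_card_nsmul _ _ 1 fun k _ => hb k).trans (by simp)

private theorem d2_m12 (S : Finset (ℤ × ℤ)) {b : ℤ × ℤ → ℂ} (hb : ∀ k, ‖b k‖ ≤ 1) :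
    m12 S b ≤ (S.card : ℝ) ^ 6 * m6 S b := by
  have hp := d2_tq
  have hint : Integrable (fun c => ‖tp S b c‖ ^ 6) (volume.restrict Tq) := by
    refine Integrable.of_bound (C := (S.card : ℝ) ^ 6)
      ((tp_cont S b).norm.pow 6).aestronglyMeasurable (Filter.Eventually.of_forall fun c => ?_)
    rw [Real.norm_of_nonneg (by positivity)]
    exact pow_le_pow_left₀ (norm_nonneg _) (d2_tp_card S hb c) 6
  unfold m12 m6
  rw [← integral_const_mul]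
  refine integral_mono_of_nonneg (Filter.Eventually.of_forall fun q => by positivity)
      (hint.const_mul _) (Filter.Eventually.of_forall fun c => ?_)
  change ‖tp S b c‖ ^ 12 ≤ _
  have h4 : ‖tp S b c‖ ^ 12 = ‖tp S b c‖ ^ 6 * ‖tp S b c‖ ^ 6 := by ring
  rw [h4]
  exact mul_le_mul_of_nonneg_right (pow_le_pow_left₀ (norm_nonneg _) (d2_tp_card S hb c) 6) (by positivity)

private theorem d2_cont (S : Finset (ℤ × ℤ)) (a : ℤ × ℤ → ℂ) (f : ℤ × ℤ → ℝ) :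
    Continuous (fun R : ℝ => m6 S (fun k => a k * ee (R * f k))) := by
  have hcomp : IsCompact Tq := isCompact_Icc.prod isCompact_Icc
  unfold m6
  refine continuous_parametric_integral_of_continuous
    (f := fun (R : ℝ) (c : ℝ × ℝ) => ‖tp S (fun k => a k * ee (R * f k)) c‖ ^ 6) ?_ hcomp
  have h1 : Continuous (fun q : ℝ × (ℝ × ℝ) => tp S (fun k => a k * ee (q.1 * f k)) q.2) := by
    unfold tp dt
    refine continuous_finsetSum _ fun k _ => ?_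
    refine Continuous.mul (continuous_const.mul (ee_cont.comp (by fun_prop))) (ee_cont.comp (by fun_prop))
  exact h1.norm.pow 6

private theorem d2_TT {S : Finset (ℤ × ℤ)} {a : ℤ × ℤ → ℂ} (ha : ∀ k, ‖a k‖ ≤ 1) {r₁ r₂ β₁ β₂ Q : ℝ} (hβ : β₁ ≤ β₂)
    (h : ∀ b ∈ Icc β₁ β₂, ∫ r in Icc r₁ r₂, m6 S (fun k => a k * ee (r * ph b k)) ≤ Q) :
    TT S a r₁ r₂ β₁ β₂ ≤ (β₂ - β₁) * ((S.card : ℝ) ^ 6 * Q) := by
  have h1 : ∀ b ∈ Icc β₁ β₂, ∫ r in Icc r₁ r₂, tf S a r b ≤ (S.card : ℝ) ^ 6 * Q := by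
    intro b hb
    have h2 : ∫ r in Icc r₁ r₂, tf S a r b ≤ ∫ r in Icc r₁ r₂, (S.card : ℝ) ^ 6 * m6 S (fun k => a k * ee (r * ph b k)) := by
      refine integral_mono_of_nonneg (Filter.Eventually.of_forall fun r => tf_nonneg S a r b)
        ((continuous_const.mul (d2_cont S a (ph b))).continuousOn.integrableOn_compact isCompact_Icc)
        (Filter.Eventually.of_forall fun r => ?_)
      refine d2_m12 S fun k => ?_
      rw [norm_mul, ee_norm, mul_one]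
      exact ha k
    refine h2.trans ?_
    rw [integral_const_mul]
    exact mul_le_mul_of_nonneg_left (h b hb) (by positivity)
  unfold TT
  have h3 : ∫ b in Icc β₁ β₂, ∫ r in Icc r₁ r₂, tf S a r b ≤ ∫ _b in Icc β₁ β₂, (S.card : ℝ) ^ 6 * Q := by
    refine integral_mono_of_nonneg (Filter.Eventually.of_forall fun b => ?_) ?_ ?_
    · exact integral_nonneg fun r => tf_nonneg S a r b
    · exact integrableOn_const (by simp)
    · exact (ae_restrict_iff' measurableSet_Icc).2 (Filter.Eventually.of_forall h1)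
  refine h3.trans (le_of_eq ?_)
  rw [setIntegral_const, smul_eq_mul, measureReal_def, Real.volume_Icc, ENNReal.toReal_ofReal (by linarith)]

private theorem d2_arc_sub {β : ℝ} {S : Finset (ℤ × ℤ)} {N j : ℕ} : arc β S N j ⊆ S := by
  classical
  unfold arc
  exact Finset.filter_subset _ _

private theorem d2_reg {β H : ℝ} {k : ℤ × ℤ} (hk : k ∈ reg β H) :
    H / 4 ≤ uu β k ∧ uu β k ≤ 8 * H ∧ |(k.2 : ℝ)| ≤ 5 * uu β k := by
  classical
  unfold reg at hk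
  rw [Finset.mem_filter] at hk
  exact hk.2

private theorem d2_arc {β H : ℝ} {N j : ℕ} (hH : 1 ≤ H) (hN : 1 ≤ N) {k k' : ℤ × ℤ}
    (hk : k ∈ arc β (reg β H) N j) (hk' : k' ∈ arc β (reg β H) N j) :
    |((dd k k' : ℤ) : ℝ)| ≤ 768 * H ^ 2 / N := by
  classical
  unfold arc at hk hk'
  rw [Finset.mem_filter] at hk hk'
  obtain ⟨h1, h2, h3⟩ := d2_reg hk.1
  obtain ⟨h1', h2', h3'⟩ := d2_reg hk'.1
  have hu : 0 < uu β k := by linarith
  have hu' : 0 < uu β k' := by linarith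
  have hN0 : (0 : ℝ) < N := by exact_mod_cast hN
  have ht : |tt β k| ≤ 5 := by
    unfold tt
    rw [abs_div, abs_of_pos hu, div_le_iff₀ hu]
    exact h3
  have ht' : |tt β k'| ≤ 5 := by
    unfold tt
    rw [abs_div, abs_of_pos hu', div_le_iff₀ hu']
    exact h3'
  have a1 := (abs_le.1 ht).1
  have a2 := (abs_le.1 ht').1
  have f1 := (Nat.floor_eq_iff (by
    have : 0 ≤ (tt β k + 6) / 12 := by linarith
    positivity)).1 hk.2
  have f2 := (Nat.floor_eq_iff (by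
    have : 0 ≤ (tt β k' + 6) / 12 := by linarith
    positivity)).1 hk'.2
  have hd : |tt β k' - tt β k| ≤ 12 / N := by
    have h7 : |tt β k' - tt β k| * N = |(tt β k' - tt β k) * N| := by rw [abs_mul, abs_of_pos hN0]
    rw [le_div_iff₀ hN0, h7, abs_le]
    constructor <;> linarith [f1.1, f1.2, f2.1, f2.2]
  have e1 : (k.2 : ℝ) = tt β k * uu β k := by
    unfold tt
    rw [div_mul_cancel₀ _ hu.ne']
  have e1' : (k'.2 : ℝ) = tt β k' * uu β k' := by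
    unfold tt
    rw [div_mul_cancel₀ _ hu'.ne']
  have e2 : (k.1 : ℝ) = uu β k - β * k.2 := by
    unfold uu
    ring
  have e2' : (k'.1 : ℝ) = uu β k' - β * k'.2 := by
    unfold uu
    ring
  have e : ((dd k k' : ℤ) : ℝ) = uu β k * uu β k' * (tt β k' - tt β k) := by
    unfold dd
    push_cast
    rw [e2, e2']
    have : (uu β k - β * (k.2 : ℝ)) * (k'.2 : ℝ) - (k.2 : ℝ) * (uu β k' - β * (k'.2 : ℝ)) =
      uu β k * (k'.2 : ℝ) - (k.2 : ℝ) * uu β k' := by ring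
    rw [this, e1, e1']
    ring
  rw [e, abs_mul, abs_mul, abs_of_pos hu, abs_of_pos hu']
  calc uu β k * uu β k' * |tt β k' - tt β k| ≤ (8 * H) * (8 * H) * (12 / N) := by gcongr
    _ = 768 * H ^ 2 / N := by ring

/-- disjoint families of pairs -/
private theorem d2_disj {β H : ℝ} {S : Finset (ℤ × ℤ)} (hS : S ⊆ reg β H) {N : ℕ} (F : ℕ → Finset ((ℤ × ℤ) × (ℤ × ℤ))) {T : ℝ}
    (hF : ∀ j, F j ⊆ arc β S N j ×ˢ arc β S N j) (hT : ∀ j, ∀ q ∈ F j, |((dd q.1 q.2 : ℤ) : ℝ)| ≤ T) :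
    ∑ j ∈ Finset.range N, ((F j).card : ℝ) ≤ (((reg β H ×ˢ reg β H).filter (fun q => |((dd q.1 q.2 : ℤ) : ℝ)| ≤ T)).card : ℝ) := by
  classical
  have h4 : ((Finset.range N).biUnion F).card = ∑ j ∈ Finset.range N, (F j).card := by
    refine Finset.card_biUnion fun i _ j _ hij => ?_
    refine Finset.disjoint_left.2 ?_
    rintro ⟨k, k'⟩ h5 h6
    have h7 := (Finset.mem_product.1 (hF _ h5)).1
    have h8 := (Finset.mem_product.1 (hF _ h6)).1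
    unfold arc at h7 h8
    rw [Finset.mem_filter] at h7 h8
    exact hij (h7.2.symm.trans h8.2)
  have h5 : ((Finset.range N).biUnion F) ⊆
      (reg β H ×ˢ reg β H).filter (fun q => |((dd q.1 q.2 : ℤ) : ℝ)| ≤ T) := by
    intro q hq
    rw [Finset.mem_biUnion] at hq
    obtain ⟨j, -, hj⟩ := hq
    have h7 := (Finset.mem_product.1 (hF _ hj)).1
    have h8 := (Finset.mem_product.1 (hF _ hj)).2
    rw [Finset.mem_filter]
    exact ⟨Finset.mem_product.2 ⟨hS (d2_arc_sub h7), hS (d2_arc_sub h8)⟩, hT j q hj⟩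
  have h6 := Finset.card_le_card h5
  rw [h4] at h6
  exact_mod_cast h6

theorem fin {ε : ℝ} (hε : 0 < ε) (K : ℝ) (hK : 1 ≤ K) : ∃ C : ℝ, 1 ≤ C ∧ ∀ (N : ℕ) (b₀ H T r₁ r₂ β₁ β₂ : ℝ) (a : ℤ × ℤ → ℂ) (S : Finset (ℤ × ℤ)),
    1 ≤ H → H ^ 3 ≤ T → |b₀| ≤ 1 / 2 → T / 4 ≤ r₁ → r₁ ≤ r₂ → r₂ ≤ 4 * T → b₀ - 1 / 55 ≤ β₁ → β₁ ≤ β₂ → β₂ ≤ b₀ + 1 / 55 →
      (∀ k, ‖a k‖ ≤ 1) → S ⊆ reg b₀ H → (∀ k ∈ S, ∀ k' ∈ S, uu b₀ k ≤ 11 / 10 * uu b₀ k') → 1 ≤ N → (N : ℝ) ≤ H ^ 2 →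
      ∑ j ∈ Finset.range N, (TT (arc b₀ S N j) a r₁ r₂ β₁ β₂ + K) ^ (1 / 6 : ℝ) ≤ C * H ^ ε * T ^ (1 / 6 : ℝ) * (H ^ 2 + H ^ 3 / √N) := by
  classical
  obtain ⟨C₆, C₂, hC₆, hC₂, h6⟩ := six hε
  obtain ⟨Cp, hCp, hp⟩ := reg_pairs
  obtain ⟨L, hL⟩ : ∃ L : ℝ, L = 1 + 2 / ε := ⟨_, rfl⟩
  have hL0 : 0 < L := by rw [hL]; positivity
  obtain ⟨C, hC⟩ : ∃ C : ℝ, C = C₆ ^ (1 / 6 : ℝ) * (Cp * L * √(1 + C₂) * 28) + K ^ (1 / 6 : ℝ) := ⟨_, rfl⟩
  have hK6 : 1 ≤ K ^ (1 / 6 : ℝ) := one_le_rpow hK (by norm_num)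
  have hC1 : 1 ≤ C := by
    rw [hC]
    have : 0 ≤ C₆ ^ (1 / 6 : ℝ) * (Cp * L * √(1 + C₂) * 28) := by positivity
    linarith
  refine ⟨C, hC1, ?_⟩
  intro N b₀ H T r₁ r₂ β₁ β₂ a S hH hT hb₀ hr₁ hr hr₂ hβ₁ hβ hβ₂ ha hS hrat hN hNH
  have hH0 : 0 < H := by linarith
  have hT1 : 1 ≤ T := le_trans (one_le_pow₀ hH) hT
  have hT0 : 0 < T := by linarith
  have hN0 : (0 : ℝ) < N := by exact_mod_cast hN
  have hlog : 0 ≤ log H := log_nonneg hH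
  -- one arc
  obtain ⟨Q, hQ⟩ : ∃ Q : ℝ, Q = C₆ * H ^ ε * T := ⟨_, rfl⟩
  have hQ0 : 0 < Q := by rw [hQ]; positivity
  have hone : ∀ j : ℕ, (TT (arc b₀ S N j) a r₁ r₂ β₁ β₂ + K) ^ (1 / 6 : ℝ) ≤
      Q ^ (1 / 6 : ℝ) * (((arc b₀ S N j).card : ℝ) * √((d2P (arc b₀ S N j) C₂).card : ℝ)) + K ^ (1 / 6 : ℝ) := by
    intro j
    have hA := d2_TT (S := arc b₀ S N j) ha hβ (r₁ := r₁) (r₂ := r₂) (Q := Q * ((d2P (arc b₀ S N j) C₂).card : ℝ) ^ 3) (by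
      intro b hb
      have hbb : |b - b₀| ≤ 1 / 50 := by
        rw [abs_le]
        constructor <;> linarith [hb.1, hb.2]
      have := h6 b₀ b H T r₁ r₂ a (arc b₀ S N j) hH hT hbb hr₁ hr hr₂ ha (d2_arc_sub.trans hS)
        (fun k hk k' hk' => hrat k (d2_arc_sub hk) k' (d2_arc_sub hk'))
      rw [hQ]
      unfold d2P
      exact this)
    have hTT0 : 0 ≤ TT (arc b₀ S N j) a r₁ r₂ β₁ β₂ := integral_nonneg fun b => integral_nonneg fun r => tf_nonneg _ _ _ _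
    refine (rpow_add_le_add_rpow hTT0 (by linarith) (by norm_num) (by norm_num)).trans ?_
    refine add_le_add ?_ le_rfl
    obtain ⟨P, hP⟩ : ∃ P : ℝ, P = ((d2P (arc b₀ S N j) C₂).card : ℝ) := ⟨_, rfl⟩
    obtain ⟨c, hc⟩ : ∃ c : ℝ, c = ((arc b₀ S N j).card : ℝ) := ⟨_, rfl⟩
    rw [← hP, ← hc] at hA ⊢
    have hP0 : 0 ≤ P := by rw [hP]; positivity
    have hc0 : 0 ≤ c := by rw [hc]; positivity
    have hB : TT (arc b₀ S N j) a r₁ r₂ β₁ β₂ ≤ Q * (c ^ 2 * P) ^ 3 := by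
      refine hA.trans ?_
      have h7 : β₂ - β₁ ≤ 1 := by linarith
      have h8 : 0 ≤ c ^ 6 * (Q * P ^ 3) := by positivity
      calc (β₂ - β₁) * (c ^ 6 * (Q * P ^ 3)) ≤ 1 * (c ^ 6 * (Q * P ^ 3)) := mul_le_mul_of_nonneg_right h7 h8
        _ = Q * (c ^ 2 * P) ^ 3 := by ring
    have h9 := rpow_le_rpow hTT0 hB (by norm_num : (0 : ℝ) ≤ 1 / 6)
    refine h9.trans (le_of_eq ?_)
    have h10 : 0 ≤ c ^ 2 * P := by positivity
    rw [mul_rpow hQ0.le (by positivity), ← rpow_natCast (c ^ 2 * P) 3, ← rpow_mul h10]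
    have h11 : ((3 : ℕ) : ℝ) * (1 / 6) = 1 / 2 := by norm_num
    rw [h11, ← sqrt_eq_rpow, sqrt_mul (by positivity), sqrt_sq hc0]
  -- sums
  have hs1 : ∑ j ∈ Finset.range N, (((arc b₀ S N j).card : ℝ)) ^ 2 ≤ Cp * H ^ 2 * (1 + log H) * (1 + 768 * H ^ 2 / N) := by
    have h7 : ∑ j ∈ Finset.range N, (((arc b₀ S N j).card : ℝ)) ^ 2 =
        ∑ j ∈ Finset.range N, ((arc b₀ S N j ×ˢ arc b₀ S N j).card : ℝ) := by
      refine Finset.sum_congr rfl fun j _ => ?_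
      rw [Finset.card_product]
      push_cast
      ring
    rw [h7]
    refine (d2_disj hS (N := N) (fun j => arc b₀ S N j ×ˢ arc b₀ S N j) (T := 768 * H ^ 2 / N) (fun j => Finset.Subset.refl _) ?_).trans
      (hp b₀ H (768 * H ^ 2 / N) hb₀ hH (by positivity))
    intro j q hq
    have h8 : ∀ k ∈ arc b₀ S N j, k ∈ arc b₀ (reg b₀ H) N j := by
      intro k hk
      unfold arc at hk ⊢
      rw [Finset.mem_filter] at hk ⊢
      exact ⟨hS hk.1, hk.2⟩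
    exact d2_arc hH hN (h8 _ (Finset.mem_product.1 hq).1) (h8 _ (Finset.mem_product.1 hq).2)
  have hs2 : ∑ j ∈ Finset.range N, ((d2P (arc b₀ S N j) C₂).card : ℝ) ≤ Cp * H ^ 2 * (1 + log H) * (1 + C₂) := by
    refine (d2_disj hS (N := N) (fun j => d2P (arc b₀ S N j) C₂) (T := C₂) (fun j => ?_) ?_).trans
      (hp b₀ H C₂ hb₀ hH (by linarith))
    · unfold d2P
      exact Finset.filter_subset _ _
    · intro j q hq
      unfold d2P at hq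
      exact (Finset.mem_filter.1 hq).2
  have hs3 : ∑ j ∈ Finset.range N, ((arc b₀ S N j).card : ℝ) * √((d2P (arc b₀ S N j) C₂).card : ℝ) ≤
      Cp * H ^ 2 * (1 + log H) * √(1 + C₂) * (1 + 28 * H / √N) := by
    refine (sum_mul_le_sqrt_mul_sqrt _ _ _).trans ?_
    have h7 : ∑ j ∈ Finset.range N, √((d2P (arc b₀ S N j) C₂).card : ℝ) ^ 2 = ∑ j ∈ Finset.range N, ((d2P (arc b₀ S N j) C₂).card : ℝ) :=
      Finset.sum_congr rfl fun j _ => sq_sqrt (by positivity)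
    rw [h7]
    have h8 : √(∑ j ∈ Finset.range N, (((arc b₀ S N j).card : ℝ)) ^ 2) ≤ √(Cp * H ^ 2 * (1 + log H)) * (1 + 28 * H / √N) := by
      refine (sqrt_le_sqrt hs1).trans ?_
      rw [sqrt_mul (by positivity)]
      refine mul_le_mul_of_nonneg_left ?_ (sqrt_nonneg _)
      rw [sqrt_le_left (by positivity)]
      have h9 : (1 + 28 * H / √N) ^ 2 = 1 + 56 * (H / √N) + 784 * (H ^ 2 / N) := by
        have h10 : √(N : ℝ) ^ 2 = N := sq_sqrt hN0.le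
        have h11 : (28 * H / √N) ^ 2 = 784 * (H ^ 2 / N) := by
          rw [div_pow, h10]
          ring
        calc (1 + 28 * H / √N) ^ 2 = 1 + 56 * (H / √N) + (28 * H / √N) ^ 2 := by ring
          _ = _ := by rw [h11]
      rw [h9]
      have h12 : 0 ≤ H / √N := by positivity
      have h13 : 0 ≤ H ^ 2 / N := by positivity
      have h14 : 768 * H ^ 2 / N = 768 * (H ^ 2 / N) := by ring
      rw [h14]
      linarith
    have h9 : √(∑ j ∈ Finset.range N, ((d2P (arc b₀ S N j) C₂).card : ℝ)) ≤ √(Cp * H ^ 2 * (1 + log H)) * √(1 + C₂) := by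
      refine (sqrt_le_sqrt hs2).trans (le_of_eq ?_)
      rw [sqrt_mul (by positivity)]
    refine (mul_le_mul h8 h9 (sqrt_nonneg _) (by positivity)).trans (le_of_eq ?_)
    have h10 : √(Cp * H ^ 2 * (1 + log H)) * √(Cp * H ^ 2 * (1 + log H)) = Cp * H ^ 2 * (1 + log H) :=
      mul_self_sqrt (by positivity)
    calc √(Cp * H ^ 2 * (1 + log H)) * (1 + 28 * H / √N) * (√(Cp * H ^ 2 * (1 + log H)) * √(1 + C₂)) =
          (√(Cp * H ^ 2 * (1 + log H)) * √(Cp * H ^ 2 * (1 + log H))) * √(1 + C₂) * (1 + 28 * H / √N) := by ring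
      _ = _ := by rw [h10]
  have hlogb : 1 + log H ≤ L * H ^ (ε / 2) := by
    have h7 := log_le_rpow_div hH0.le (by positivity : 0 < ε / 2)
    have h8 : 1 ≤ H ^ (ε / 2) := one_le_rpow hH (by positivity)
    have h9 : H ^ (ε / 2) / (ε / 2) = 2 / ε * H ^ (ε / 2) := by
      field_simp
    rw [h9] at h7
    rw [hL]
    linarith
  have hHe : 1 ≤ H ^ ε := one_le_rpow hH hε.le
  have hT6 : 1 ≤ T ^ (1 / 6 : ℝ) := one_le_rpow hT1 (by norm_num)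
  obtain ⟨Z, hZ⟩ : ∃ Z : ℝ, Z = H ^ 2 + H ^ 3 / √N := ⟨_, rfl⟩
  have hZ0 : H ^ 2 ≤ Z := by
    rw [hZ]
    have : 0 ≤ H ^ 3 / √N := by positivity
    linarith
  have hZ1 : 0 ≤ Z := le_trans (by positivity) hZ0
  have hs4 : Cp * H ^ 2 * (1 + log H) * √(1 + C₂) * (1 + 28 * H / √N) ≤ (Cp * L * √(1 + C₂) * 28) * H ^ (ε / 2) * Z := by
    have h7 : H ^ 2 * (1 + 28 * H / √N) ≤ 28 * Z := by
      have h8 : H ^ 2 * (1 + 28 * H / √N) = H ^ 2 + 28 * (H ^ 3 / √N) := by ring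
      rw [h8, hZ]
      have : 0 ≤ H ^ 2 := by positivity
      linarith
    calc Cp * H ^ 2 * (1 + log H) * √(1 + C₂) * (1 + 28 * H / √N) =
          Cp * √(1 + C₂) * ((1 + log H) * (H ^ 2 * (1 + 28 * H / √N))) := by ring
      _ ≤ Cp * √(1 + C₂) * ((L * H ^ (ε / 2)) * (28 * Z)) := by
          refine mul_le_mul_of_nonneg_left (mul_le_mul hlogb h7 (by positivity) (by positivity)) (by positivity)
      _ = _ := by ring
  have hQ6 : Q ^ (1 / 6 : ℝ) * H ^ (ε / 2) ≤ C₆ ^ (1 / 6 : ℝ) * H ^ ε * T ^ (1 / 6 : ℝ) := by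
    rw [hQ, mul_rpow (by positivity) hT0.le, mul_rpow (by linarith) (by positivity), ← rpow_mul hH0.le]
    have h7 : H ^ (ε * (1 / 6)) * H ^ (ε / 2) ≤ H ^ ε := by
      rw [← rpow_add hH0]
      exact rpow_le_rpow_of_exponent_le hH (by linarith)
    have h8 : 0 ≤ C₆ ^ (1 / 6 : ℝ) * T ^ (1 / 6 : ℝ) := by positivity
    calc C₆ ^ (1 / 6 : ℝ) * H ^ (ε * (1 / 6)) * T ^ (1 / 6 : ℝ) * H ^ (ε / 2) =
          (C₆ ^ (1 / 6 : ℝ) * T ^ (1 / 6 : ℝ)) * (H ^ (ε * (1 / 6)) * H ^ (ε / 2)) := by ring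
      _ ≤ (C₆ ^ (1 / 6 : ℝ) * T ^ (1 / 6 : ℝ)) * H ^ ε := mul_le_mul_of_nonneg_left h7 h8
      _ = _ := by ring
  calc ∑ j ∈ Finset.range N, (TT (arc b₀ S N j) a r₁ r₂ β₁ β₂ + K) ^ (1 / 6 : ℝ)
      ≤ ∑ j ∈ Finset.range N, (Q ^ (1 / 6 : ℝ) * (((arc b₀ S N j).card : ℝ) * √((d2P (arc b₀ S N j) C₂).card : ℝ)) + K ^ (1 / 6 : ℝ)) :=
        Finset.sum_le_sum fun j _ => hone j
    _ = Q ^ (1 / 6 : ℝ) * ∑ j ∈ Finset.range N, ((arc b₀ S N j).card : ℝ) * √((d2P (arc b₀ S N j) C₂).card : ℝ) + N * K ^ (1 / 6 : ℝ) := by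
        rw [Finset.sum_add_distrib, ← Finset.mul_sum, Finset.sum_const, Finset.card_range, nsmul_eq_mul]
    _ ≤ Q ^ (1 / 6 : ℝ) * ((Cp * L * √(1 + C₂) * 28) * H ^ (ε / 2) * Z) + H ^ 2 * K ^ (1 / 6 : ℝ) := by
        refine add_le_add (mul_le_mul_of_nonneg_left (hs3.trans hs4) (by positivity)) ?_
        exact mul_le_mul_of_nonneg_right hNH (by positivity)
    _ ≤ C₆ ^ (1 / 6 : ℝ) * H ^ ε * T ^ (1 / 6 : ℝ) * ((Cp * L * √(1 + C₂) * 28) * Z) +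
          K ^ (1 / 6 : ℝ) * H ^ ε * T ^ (1 / 6 : ℝ) * Z := by
        refine add_le_add ?_ ?_
        · have h7 : 0 ≤ (Cp * L * √(1 + C₂) * 28) * Z := by positivity
          calc Q ^ (1 / 6 : ℝ) * ((Cp * L * √(1 + C₂) * 28) * H ^ (ε / 2) * Z) =
                (Q ^ (1 / 6 : ℝ) * H ^ (ε / 2)) * ((Cp * L * √(1 + C₂) * 28) * Z) := by ring
            _ ≤ _ := mul_le_mul_of_nonneg_right hQ6 h7
        · have h7 : 1 ≤ H ^ ε * T ^ (1 / 6 : ℝ) := one_le_mul_of_one_le_of_one_le hHe hT6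
          have h8 : 0 ≤ K ^ (1 / 6 : ℝ) := by positivity
          calc H ^ 2 * K ^ (1 / 6 : ℝ) ≤ Z * K ^ (1 / 6 : ℝ) := mul_le_mul_of_nonneg_right hZ0 h8
            _ = K ^ (1 / 6 : ℝ) * Z * 1 := by ring
            _ ≤ K ^ (1 / 6 : ℝ) * Z * (H ^ ε * T ^ (1 / 6 : ℝ)) := by
                refine mul_le_mul_of_nonneg_left h7 (mul_nonneg h8 ?_)
                exact le_trans (by positivity) hZ0
            _ = _ := by ring
    _ = C * H ^ ε * T ^ (1 / 6 : ℝ) * Z := by rw [hC]; ring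
    _ = _ := by rw [hZ]

end Pool.Agent.Helper76.MM
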