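import Pool.Agent.Helper76.MM.C1
import Pool.Agent.Helper76.MM.C2
import Pool.Agent.Helper76.MM.D2

/-!
# MM-E1: the twelfth moment

PROOF. Let `e ≤ 1`. `n = ⌈2000/e⌉₊`, `ε' = e/200`, `M`, `C` from `iter ε'`, `δ = e/(100 (n + 2))`, `K` from `iter` (with `δ`, `B`), `C_f` from `fin ε' K`, `ρ = 1/(4000 n)`. For `H ≤ H₀` the trivial bound `tf ≤ (10⁴ H²)^12` suffices. Let `H ≥ H₀`,
`P = min (H^2) ((T H)^(1/3) H^(-2δ)) ≥ H^(4/3 - 2δ)`, `m` with `M^((n+4) m) ≤ P < M^((n+4)(m+1))` (`exists_nat_pow_near`), `m ≥ 4` for `H ≥ H₀`, `N = M^((n+4)m) = M^(4m + n m)`, `s₀ = 4m`, `M^m ≤ H^(2/(n+4))`.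
Conditions of `iter`: `10^14 N² M^(6m) H^(2δ) ≤ HT`: `N² ≤ (TH)^(2/3) H^(-4δ)`, `M^(6m) ≤ (TH)^(6/(3(n+4))) ≤ (TH)^(1/6)`, `(TH)^(1/6) ≥ H^(2/3) ≥ 10^14`. `10^8 N³ H^δ ≤ 10^8 TH H^(-5δ) ≤ ρ TH` for `H ≥ H₀`.
`tf_cut`, integrated: `TT (reg) ≤ (9M^(8m))^11 ∑_l ∑_j TT (piece l j)`; `TT (piece) ≤ (TT + K)` `= ((TT + K)^(1/6))^6`; `iter` with `S = slb .. (arc .. j) l` (`slb_thin`); `∑_j x_j^6 ≤ (∑_j x_j)^6`; for fixed `l` the arcs of level `4m + nm` of the pieces `(l, j)`,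
`j < M^(4m)`, are all arcs of `slb .. (reg b₀ H) l` (`slb_arc`, arcs of arcs as in C1, `sum_range_mul'`), so `fin` applies (members of a slab: `uu ≥ H/4`, difference `≤ H/M^(4m)`, so the ratio is `≤ 11/10`), on the enlarged rectangle (`1/60 + 1/4000 ≤ 1/55`).
Total: `(9M^(8m))^12 · ((C H^δ M^(ε' m))^n C_f H^ε')^6 · T (H² + H³/√N)^6`, `M^(96m) ≤ H^(192/(n+4)) ≤ H^(e/10)`, `H^(6nδ) ≤ H^(e/10)`, `M^(6 ε' n m) ≤ H^(12 ε')`, `H³/√N ≤ M^((n+4)/2) H³/√P`, `H³/√P ≤ H² + H^(3+δ)(TH)^(-1/6)`,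
`(x+y)^6 ≤ 32(x^6+y^6)`, `(H^(3+δ)(TH)^(-1/6))^6 = H^(17 + 6δ)/T`.
-/

open MeasureTheory Real Set Filter Topology

set_option autoImplicit false

namespace Pool.Agent.Helper76.MM

open Pool.Agent.Helper22.AE
open Pool.Agent.Helper92.GC
open Pool.Agent.Helper92.DT (m12)
open Pool.Agent.Helper78.CE (p2 p3 hs mu2 InReg)
open Pool.Agent.Helper22.AC (IsWt)

private theorem e1_reg {β H : ℝ} {k : ℤ × ℤ} (hk : k ∈ reg β H) :
    H / 4 ≤ uu β k ∧ uu β k ≤ 8 * H ∧ |(k.2 : ℝ)| ≤ 5 * uu β k := by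
  classical
  unfold reg at hk
  rw [Finset.mem_filter] at hk
  exact hk.2

private theorem e1_uu {b₀ b H : ℝ} (hH : 0 < H) (hb : |b - b₀| ≤ 1 / 50) {k : ℤ × ℤ} (hk : k ∈ reg b₀ H) : 0 < uu b k := by
  obtain ⟨h1, h2, h3⟩ := e1_reg hk
  have e1 : uu b k = uu b₀ k + (b - b₀) * k.2 := by unfold uu; ring
  have h4 : |(b - b₀) * (k.2 : ℝ)| ≤ 1 / 50 * (5 * uu b₀ k) := by
    rw [abs_mul]
    exact mul_le_mul hb h3 (abs_nonneg _) (by norm_num)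
  rw [abs_le] at h4
  rw [e1]
  linarith only [hH, h1, h4.1]

private theorem e1_int {b₀ H : ℝ} (hH : 0 < H) {S : Finset (ℤ × ℤ)} (hS : S ⊆ reg b₀ H) (a : ℤ × ℤ → ℂ) {r₁ r₂ β₁ β₂ : ℝ}
    (h1 : b₀ - 1 / 50 ≤ β₁) (h2 : β₂ ≤ b₀ + 1 / 50) :
    IntegrableOn (fun q : ℝ × ℝ => tf S a q.2 q.1) (Icc β₁ β₂ ×ˢ Icc r₁ r₂) := by
  have hc := tf_contOn S a (Icc β₁ β₂) (by
    intro k hk b hb
    refine (e1_uu hH ?_ (hS hk)).ne'
    rw [abs_le]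
    constructor <;> linarith [hb.1, hb.2])
  have hc2 : ContinuousOn (fun q : ℝ × ℝ => tf S a q.2 q.1) (Icc β₁ β₂ ×ˢ Icc r₁ r₂) := by
    have h3 := hc.comp (f := fun q : ℝ × ℝ => (q.2, q.1)) (s := Icc β₁ β₂ ×ˢ Icc r₁ r₂) (by fun_prop) (by
      intro q hq
      exact ⟨mem_univ _, hq.1⟩)
    exact h3
  exact hc2.integrableOn_compact (isCompact_Icc.prod isCompact_Icc)

private theorem e1_TT {b₀ H : ℝ} (hH : 0 < H) {S : Finset (ℤ × ℤ)} (hS : S ⊆ reg b₀ H) (a : ℤ × ℤ → ℂ) {r₁ r₂ β₁ β₂ : ℝ}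
    (h1 : b₀ - 1 / 50 ≤ β₁) (h2 : β₂ ≤ b₀ + 1 / 50) :
    TT S a r₁ r₂ β₁ β₂ = ∫ q in Icc β₁ β₂ ×ˢ Icc r₁ r₂, tf S a q.2 q.1 := by
  have h3 := e1_int hH hS a (r₁ := r₁) (r₂ := r₂) h1 h2
  rw [Measure.volume_eq_prod] at h3 ⊢
  rw [setIntegral_prod _ h3]
  rfl

private theorem e1_slb {b₀ H L : ℝ} {S : Finset (ℤ × ℤ)} {l : ℕ} : slb b₀ H L S l ⊆ S := by
  classical
  unfold slb
  exact Finset.filter_subset _ _

private theorem e1_arc {b : ℝ} {S : Finset (ℤ × ℤ)} {N j : ℕ} : arc b S N j ⊆ S := by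
  classical
  unfold arc
  exact Finset.filter_subset _ _

private theorem e1_cut {M m : ℕ} (hM : 36 ≤ M) {b₀ H : ℝ} (hH : 0 < H) (a : ℤ × ℤ → ℂ) {r₁ r₂ β₁ β₂ : ℝ}
    (h1 : b₀ - 1 / 50 ≤ β₁) (h2 : β₂ ≤ b₀ + 1 / 50) :
    TT (reg b₀ H) a r₁ r₂ β₁ β₂ ≤ (9 * (M : ℝ) ^ (8 * m)) ^ 11 * ∑ l ∈ Finset.range (9 * M ^ (4 * m)), ∑ j ∈ Finset.range (M ^ (4 * m)),
      TT (slb b₀ H ((M : ℝ) ^ (4 * m)) (arc b₀ (reg b₀ H) (M ^ (4 * m)) j) l) a r₁ r₂ β₁ β₂ := by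
  have hp : ∀ l j : ℕ, slb b₀ H ((M : ℝ) ^ (4 * m)) (arc b₀ (reg b₀ H) (M ^ (4 * m)) j) l ⊆ reg b₀ H :=
    fun l j => e1_slb.trans e1_arc
  have hi : ∀ l j : ℕ, Integrable (fun q : ℝ × ℝ => tf (slb b₀ H ((M : ℝ) ^ (4 * m)) (arc b₀ (reg b₀ H) (M ^ (4 * m)) j) l) a q.2 q.1)
      (volume.restrict (Icc β₁ β₂ ×ˢ Icc r₁ r₂)) := fun l j => e1_int hH (hp l j) a h1 h2
  rw [e1_TT hH (Finset.Subset.refl _) a h1 h2]
  have e : ∑ l ∈ Finset.range (9 * M ^ (4 * m)), ∑ j ∈ Finset.range (M ^ (4 * m)),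
      TT (slb b₀ H ((M : ℝ) ^ (4 * m)) (arc b₀ (reg b₀ H) (M ^ (4 * m)) j) l) a r₁ r₂ β₁ β₂ =
      ∫ q in Icc β₁ β₂ ×ˢ Icc r₁ r₂, ∑ l ∈ Finset.range (9 * M ^ (4 * m)), ∑ j ∈ Finset.range (M ^ (4 * m)),
        tf (slb b₀ H ((M : ℝ) ^ (4 * m)) (arc b₀ (reg b₀ H) (M ^ (4 * m)) j) l) a q.2 q.1 := by
    rw [integral_finsetSum _ fun l _ => integrable_finsetSum _ fun j _ => hi l j]
    refine Finset.sum_congr rfl fun l _ => ?_
    rw [integral_finsetSum _ fun j _ => hi l j]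
    exact Finset.sum_congr rfl fun j _ => e1_TT hH (hp l j) a h1 h2
  rw [e, ← integral_const_mul]
  refine integral_mono (e1_int hH (Finset.Subset.refl _) a h1 h2)
    ((integrable_finsetSum _ fun l _ => integrable_finsetSum _ fun j _ => hi l j).const_mul _) fun q => ?_
  exact tf_cut hM hH a q.2 q.1

private theorem e1_arcarc {b : ℝ} {S : Finset (ℤ × ℤ)} {N₁ N₂ j r : ℕ} (hr : r < N₂) :
    arc b (arc b S N₁ j) (N₁ * N₂) (N₂ * j + r) = arc b S (N₁ * N₂) (N₂ * j + r) := by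
  classical
  have hN2 : 0 < N₂ := by omega
  have hfl : ∀ k : ℤ × ℤ, ⌊(N₁ : ℝ) * ((tt b k + 6) / 12)⌋₊ = ⌊((N₁ * N₂ : ℕ) : ℝ) * ((tt b k + 6) / 12)⌋₊ / N₂ := by
    intro k
    rw [← Nat.floor_div_natCast]
    congr 1
    have : (N₂ : ℝ) ≠ 0 := by
      have : (0 : ℝ) < N₂ := by exact_mod_cast hN2
      exact this.ne'
    push_cast
    field_simp
  unfold arc
  rw [Finset.filter_filter]
  ext k
  rw [Finset.mem_filter, Finset.mem_filter]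
  constructor
  · rintro ⟨h1, -, h3⟩
    exact ⟨h1, h3⟩
  · rintro ⟨h1, h3⟩
    refine ⟨h1, ?_, h3⟩
    rw [hfl k, h3, Nat.mul_add_div hN2, Nat.div_eq_of_lt hr, add_zero]

private theorem e1_pow6 {ι : Type} (s : Finset ι) (x : ι → ℝ) (hx : ∀ i ∈ s, 0 ≤ x i) : ∑ i ∈ s, x i ^ 6 ≤ (∑ i ∈ s, x i) ^ 6 := by
  classical
  induction s using Finset.induction_on with
  | empty => simp
  | insert i s hi ih =>
    rw [Finset.sum_insert hi, Finset.sum_insert hi]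
    have h1 := ih fun j hj => hx j (Finset.mem_insert_of_mem hj)
    have h2 : 0 ≤ x i := hx i (Finset.mem_insert_self _ _)
    have h3 : 0 ≤ ∑ j ∈ s, x j := Finset.sum_nonneg fun j hj => hx j (Finset.mem_insert_of_mem hj)
    obtain ⟨a, ha⟩ : ∃ a, a = x i := ⟨_, rfl⟩
    obtain ⟨b, hb⟩ : ∃ b, b = ∑ j ∈ s, x j := ⟨_, rfl⟩
    rw [← hb] at h1 h3 ⊢
    rw [← ha] at h2 ⊢
    have h4 : (a + b) ^ 6 = a ^ 6 + b ^ 6 + (6 * a ^ 5 * b + 15 * a ^ 4 * b ^ 2 + 20 * a ^ 3 * b ^ 3 + 15 * a ^ 2 * b ^ 4 + 6 * a * b ^ 5) := by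
      ring
    have h5 : 0 ≤ 6 * a ^ 5 * b + 15 * a ^ 4 * b ^ 2 + 20 * a ^ 3 * b ^ 3 + 15 * a ^ 2 * b ^ 4 + 6 * a * b ^ 5 := by positivity
    linarith

/-- the choice of the depth -/
private theorem e1_depth {M n : ℕ} (hM : 36 ≤ M) {δ H T : ℝ} (hδ : 0 < δ) (hδ1 : 6 * δ ≤ 1) (hH : 1 ≤ H) (hT : H ^ 3 ≤ T)
    (hHM : (M : ℝ) ^ (5 * (n + 4)) ≤ H) :
    ∃ m : ℕ, 4 ≤ m ∧ ((M : ℝ) ^ m) ^ (n + 4) ≤ H ^ 2 ∧ (((M : ℝ) ^ m) ^ (n + 4)) ^ 3 * H ^ (6 * δ) ≤ T * H ∧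
      H ^ 18 / (((M : ℝ) ^ m) ^ (n + 4)) ^ 3 ≤ (M : ℝ) ^ (3 * (n + 4)) * (H ^ 12 + H ^ (6 * δ) * (H ^ 17 / T)) := by
  have hM1 : (1 : ℝ) < M := by
    have : (36 : ℝ) ≤ M := by exact_mod_cast hM
    linarith
  have hM0 : (0 : ℝ) < M := by linarith
  have hH0 : 0 < H := by linarith
  have hT0 : 0 < T := lt_of_lt_of_le (by positivity) hT
  obtain ⟨g, hg⟩ : ∃ g : ℝ, g = H ^ (6 * δ) := ⟨_, rfl⟩
  have hg1 : 1 ≤ g := by rw [hg]; exact one_le_rpow hH (by positivity)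
  have hg0 : 0 < g := by linarith
  have hgH : g ≤ H := by
    rw [hg]
    calc H ^ (6 * δ) ≤ H ^ (1 : ℝ) := rpow_le_rpow_of_exponent_le hH hδ1
      _ = H := rpow_one H
  obtain ⟨P, hP⟩ : ∃ P : ℝ, P = min (H ^ 6) (T * H / g) := ⟨_, rfl⟩
  have hP3 : H ^ 3 ≤ P := by
    rw [hP]
    refine le_min (pow_le_pow_right₀ hH (by norm_num)) ?_
    rw [le_div_iff₀ hg0]
    exact mul_le_mul hT hgH hg0.le hT0.le
  have hP1 : 1 ≤ P := le_trans (one_le_pow₀ hH) hP3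
  have hP0 : 0 < P := by linarith
  obtain ⟨m, hm1, hm2⟩ := exists_nat_pow_near hP1 (one_lt_pow₀ hM1 (by omega) : (1 : ℝ) < (M : ℝ) ^ (3 * (n + 4)))
  have e1 : ∀ t : ℕ, ((M : ℝ) ^ (3 * (n + 4))) ^ t = (((M : ℝ) ^ t) ^ (n + 4)) ^ 3 := by
    intro t
    rw [← pow_mul, ← pow_mul, ← pow_mul]
    congr 1
    ring
  rw [e1] at hm1
  refine ⟨m, ?_, ?_, ?_, ?_⟩
  · by_contra hcon
    push Not at hcon
    have h1 : ((M : ℝ) ^ (3 * (n + 4))) ^ (m + 1) ≤ ((M : ℝ) ^ (3 * (n + 4))) ^ 5 :=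
      pow_le_pow_right₀ (one_le_pow₀ hM1.le) (by omega)
    have h2 : ((M : ℝ) ^ (3 * (n + 4))) ^ 5 = ((M : ℝ) ^ (5 * (n + 4))) ^ 3 := by
      rw [← pow_mul, ← pow_mul]
      congr 1
      ring
    have h3 : ((M : ℝ) ^ (5 * (n + 4))) ^ 3 ≤ H ^ 3 := pow_le_pow_left₀ (by positivity) hHM 3
    rw [h2] at h1
    linarith
  · have h1 : (((M : ℝ) ^ m) ^ (n + 4)) ^ 3 ≤ (H ^ 2) ^ 3 := by
      calc (((M : ℝ) ^ m) ^ (n + 4)) ^ 3 ≤ P := hm1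
        _ ≤ H ^ 6 := by rw [hP]; exact min_le_left _ _
        _ = (H ^ 2) ^ 3 := by ring
    exact (pow_le_pow_iff_left₀ (by positivity) (by positivity) (by norm_num)).1 h1
  · rw [← hg]
    have h1 : (((M : ℝ) ^ m) ^ (n + 4)) ^ 3 ≤ T * H / g := hm1.trans (by rw [hP]; exact min_le_right _ _)
    rwa [le_div_iff₀ hg0] at h1
  · rw [← hg]
    have h1 : P < (M : ℝ) ^ (3 * (n + 4)) * (((M : ℝ) ^ m) ^ (n + 4)) ^ 3 := by
      rw [pow_succ, e1, mul_comm] at hm2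
      exact hm2
    have hN0 : 0 < (((M : ℝ) ^ m) ^ (n + 4)) ^ 3 := by positivity
    have h2 : H ^ 18 / (((M : ℝ) ^ m) ^ (n + 4)) ^ 3 ≤ (M : ℝ) ^ (3 * (n + 4)) * (H ^ 18 / P) := by
      rw [div_le_iff₀ hN0]
      have h3 : (M : ℝ) ^ (3 * (n + 4)) * (H ^ 18 / P) * (((M : ℝ) ^ m) ^ (n + 4)) ^ 3 =
          ((M : ℝ) ^ (3 * (n + 4)) * (((M : ℝ) ^ m) ^ (n + 4)) ^ 3) * (H ^ 18 / P) := by ring
      rw [h3]
      have h4 : H ^ 18 = P * (H ^ 18 / P) := by field_simp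
      calc H ^ 18 = P * (H ^ 18 / P) := h4
        _ ≤ _ := mul_le_mul_of_nonneg_right h1.le (by positivity)
    refine h2.trans (mul_le_mul_of_nonneg_left ?_ (by positivity))
    rw [hP]
    rcases min_choice (H ^ 6) (T * H / g) with h | h
    · rw [h]
      have h3 : H ^ 18 / H ^ 6 = H ^ 12 := by field_simp
      rw [h3]
      have : 0 ≤ g * (H ^ 17 / T) := by positivity
      linarith only [this]
    · rw [h]
      have h3 : H ^ 18 / (T * H / g) = g * (H ^ 17 / T) := by field_simp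
      rw [h3]
      have : 0 ≤ H ^ 12 := by positivity
      linarith only [this]

/-- the sum over the pieces of one slab -/
private theorem e1_slab {M n m l : ℕ} {b₀ H T ρ r₁ r₂ β₁ β₂ K D Y : ℝ} {a : ℤ × ℤ → ℂ} (hK : 1 ≤ K)
    (h1 : ∀ j : ℕ, (TT (slb b₀ H ((M : ℝ) ^ (4 * m)) (arc b₀ (reg b₀ H) (M ^ (4 * m)) j) l) a r₁ r₂ β₁ β₂ + K) ^ (1 / 6 : ℝ) ≤
      D * ∑ r ∈ Finset.range (M ^ (n * m)),
        (TT (arc b₀ (slb b₀ H ((M : ℝ) ^ (4 * m)) (arc b₀ (reg b₀ H) (M ^ (4 * m)) j) l) (M ^ (4 * m + n * m)) (M ^ (n * m) * j + r)) a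
          (r₁ - n * ρ * T) (r₂ + n * ρ * T) (β₁ - n * ρ) (β₂ + n * ρ) + K) ^ (1 / 6 : ℝ))
    (h2 : ∑ i ∈ Finset.range (M ^ (4 * m + n * m)),
        (TT (arc b₀ (slb b₀ H ((M : ℝ) ^ (4 * m)) (reg b₀ H) l) (M ^ (4 * m + n * m)) i) a
          (r₁ - n * ρ * T) (r₂ + n * ρ * T) (β₁ - n * ρ) (β₂ + n * ρ) + K) ^ (1 / 6 : ℝ) ≤ Y) :
    ∑ j ∈ Finset.range (M ^ (4 * m)), TT (slb b₀ H ((M : ℝ) ^ (4 * m)) (arc b₀ (reg b₀ H) (M ^ (4 * m)) j) l) a r₁ r₂ β₁ β₂ ≤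
      D ^ 6 * Y ^ 6 := by
  obtain ⟨z, hz⟩ : ∃ z : ℕ → ℝ, z = fun i => (TT (arc b₀ (slb b₀ H ((M : ℝ) ^ (4 * m)) (reg b₀ H) l) (M ^ (4 * m + n * m)) i) a
          (r₁ - n * ρ * T) (r₂ + n * ρ * T) (β₁ - n * ρ) (β₂ + n * ρ) + K) ^ (1 / 6 : ℝ) := ⟨_, rfl⟩
  have hTT0 : ∀ (S : Finset (ℤ × ℤ)) (a : ℤ × ℤ → ℂ) (r₁ r₂ β₁ β₂ : ℝ), 0 ≤ TT S a r₁ r₂ β₁ β₂ := fun S a r₁ r₂ β₁ β₂ =>
    integral_nonneg fun b => integral_nonneg fun r => tf_nonneg _ _ _ _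
  have hz0 : ∀ i, 0 ≤ z i := by
    intro i
    rw [hz]
    exact rpow_nonneg (add_nonneg (hTT0 _ _ _ _ _ _) (by linarith)) _
  have hY : ∑ i ∈ Finset.range (M ^ (4 * m + n * m)), z i ≤ Y := by
    rw [hz]
    exact h2
  have hj : ∀ j : ℕ, TT (slb b₀ H ((M : ℝ) ^ (4 * m)) (arc b₀ (reg b₀ H) (M ^ (4 * m)) j) l) a r₁ r₂ β₁ β₂ ≤
      D ^ 6 * (∑ r ∈ Finset.range (M ^ (n * m)), z (M ^ (n * m) * j + r)) ^ 6 := by
    intro j
    have h3 := h1 j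
    have h4 : ∑ r ∈ Finset.range (M ^ (n * m)),
        (TT (arc b₀ (slb b₀ H ((M : ℝ) ^ (4 * m)) (arc b₀ (reg b₀ H) (M ^ (4 * m)) j) l) (M ^ (4 * m + n * m)) (M ^ (n * m) * j + r)) a
          (r₁ - n * ρ * T) (r₂ + n * ρ * T) (β₁ - n * ρ) (β₂ + n * ρ) + K) ^ (1 / 6 : ℝ) =
        ∑ r ∈ Finset.range (M ^ (n * m)), z (M ^ (n * m) * j + r) := by
      refine Finset.sum_congr rfl fun r hr => ?_
      rw [hz]
      simp only
      rw [slb_arc, slb_arc, pow_add, e1_arcarc (Finset.mem_range.1 hr)]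
    rw [h4] at h3
    obtain ⟨A, hA⟩ : ∃ A, A = TT (slb b₀ H ((M : ℝ) ^ (4 * m)) (arc b₀ (reg b₀ H) (M ^ (4 * m)) j) l) a r₁ r₂ β₁ β₂ := ⟨_, rfl⟩
    have hA0 : 0 ≤ A := by rw [hA]; exact hTT0 _ _ _ _ _ _
    rw [← hA] at h3 ⊢
    have h5 : ((A + K) ^ (1 / 6 : ℝ)) ^ 6 = A + K := by
      rw [← rpow_natCast, ← rpow_mul (by linarith only [hK, hA0])]
      norm_num
    have h6 := pow_le_pow_left₀ (rpow_nonneg (by linarith only [hK, hA0]) _) h3 6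
    rw [h5, mul_pow] at h6
    linarith only [hK, h6]
  refine (Finset.sum_le_sum fun j _ => hj j).trans ?_
  rw [← Finset.mul_sum]
  refine mul_le_mul_of_nonneg_left ?_ (by positivity)
  refine (e1_pow6 _ _ fun j _ => Finset.sum_nonneg fun r _ => hz0 _).trans ?_
  rw [← Pool.Agent.Helper22.AC.sum_range_mul', ← pow_add]
  exact pow_le_pow_left₀ (Finset.sum_nonneg fun i _ => hz0 i) hY 6

private theorem e1_main {e : ℝ} (he : 0 < e) (he1 : e ≤ 1) (B : ℝ) : ∃ C : ℝ, 0 < C ∧ ∀ H T b₀ : ℝ, 1 ≤ H → H ^ 3 ≤ T → T ≤ H ^ B → |b₀| ≤ 1 / 2 →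
    TT (reg b₀ H) (fun _ => 1) T (2 * T) (b₀ - 1 / 60) (b₀ + 1 / 60) ≤ C * H ^ e * T * (H ^ 12 + H ^ 17 / T) := by
  obtain ⟨n, hn⟩ : ∃ n : ℕ, n = ⌈2000 / e⌉₊ := ⟨_, rfl⟩
  have hn1 : 2000 / e ≤ n := by rw [hn]; exact Nat.le_ceil _
  have hn2 : (2000 : ℝ) ≤ n := le_trans (by rw [le_div_iff₀ he]; nlinarith only [he1]) hn1
  have hn3 : 2000 ≤ n := by exact_mod_cast hn2
  have hne : 2000 ≤ n * e := by rwa [div_le_iff₀ he] at hn1
  obtain ⟨M, hM, C, hC, hit⟩ := iter (ε := e / 200) (by positivity)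
  obtain ⟨δ, hδ⟩ : ∃ δ : ℝ, δ = e / (100 * ((n : ℝ) + 2)) := ⟨_, rfl⟩
  have hδ0 : 0 < δ := by rw [hδ]; positivity
  have hδn : δ * (n + 2) = e / 100 := by rw [hδ]; field_simp
  have hδ1 : 6 * δ ≤ e / 10 := by nlinarith only [hδ0, hδn]
  obtain ⟨K, hK, hit'⟩ := hit δ B hδ0
  obtain ⟨Cf, hCf, hfin⟩ := fin (ε := e / 200) (by positivity) K hK
  obtain ⟨ρ, hρ⟩ : ∃ ρ : ℝ, ρ = 1 / (4000 * (n : ℝ)) := ⟨_, rfl⟩
  have hn0 : (0 : ℝ) < n := by linarith only [he1, hn2, hδ0, hδ1]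
  have hρ0 : 0 < ρ := by rw [hρ]; positivity
  have hnρ : n * ρ = 1 / 4000 := by rw [hρ]; field_simp
  have hM1 : (1 : ℝ) < M := by
    have : (36 : ℝ) ≤ M := by exact_mod_cast hM
    linarith only [he1, hδ0, hδ1, this]
  have hM0 : (0 : ℝ) < M := by linarith only [he1, hδ0, hδ1, hM1]
  obtain ⟨H₀, hH₀⟩ : ∃ H₀ : ℝ, H₀ = max (10 ^ 21) (max ((M : ℝ) ^ (5 * (n + 4))) ((10 ^ 8 / ρ) ^ (1 / (5 * δ)))) := ⟨_, rfl⟩
  have hH₀1 : 10 ^ 21 ≤ H₀ := by rw [hH₀]; exact le_max_left _ _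
  have hH₀2 : (M : ℝ) ^ (5 * (n + 4)) ≤ H₀ := by rw [hH₀]; exact (le_max_left _ _).trans (le_max_right _ _)
  have hH₀3 : (10 ^ 8 / ρ) ^ (1 / (5 * δ)) ≤ H₀ := by rw [hH₀]; exact (le_max_right _ _).trans (le_max_right _ _)
  obtain ⟨C', hC'⟩ : ∃ C' : ℝ, C' = 9 ^ 12 * C ^ (6 * n) * Cf ^ 6 * (64 * (M : ℝ) ^ (3 * (n + 4))) := ⟨_, rfl⟩
  have hC'0 : 0 ≤ C' := by rw [hC']; positivity
  refine ⟨(10 ^ 4 * H₀ ^ 2) ^ 12 + C', by positivity, ?_⟩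
  intro H T b₀ hH hT hTB hb₀
  have hH0 : 0 < H := by linarith only [he1, hδ0, hδ1, hH]
  have hT1 : 1 ≤ T := le_trans (one_le_pow₀ hH) hT
  have hT0 : 0 < T := by linarith only [he1, hδ0, hδ1, hT1]
  have hHe : 1 ≤ H ^ e := one_le_rpow hH he.le
  have hW0 : 0 ≤ H ^ 17 / T := by positivity
  have hH12 : 1 ≤ H ^ 12 := one_le_pow₀ hH
  rcases lt_or_ge H H₀ with hs | hbig
  · -- small `H`
    have h1 : TT (reg b₀ H) (fun _ => 1) T (2 * T) (b₀ - 1 / 60) (b₀ + 1 / 60) ≤ (10 ^ 4 * H₀ ^ 2) ^ 12 * T := by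
      have h2 : ∀ b : ℝ, ∫ r in Icc T (2 * T), tf (reg b₀ H) (fun _ => 1) r b ≤ T * (10 ^ 4 * H₀ ^ 2) ^ 12 := by
        intro b
        have h3 : ∫ r in Icc T (2 * T), tf (reg b₀ H) (fun _ => 1) r b ≤ ∫ _r in Icc T (2 * T), (10 ^ 4 * H₀ ^ 2) ^ 12 := by
          refine integral_mono_of_nonneg (Filter.Eventually.of_forall fun r => tf_nonneg _ _ _ _) (integrableOn_const (by simp))
            (Filter.Eventually.of_forall fun r => ?_)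
          refine (tf_le (reg b₀ H) (a := fun _ => 1) (fun _ => by simp) r b).trans ?_
          refine pow_le_pow_left₀ (by (clear * -; positivity)) ((reg_card hH).trans ?_) 12
          have : H ^ 2 ≤ H₀ ^ 2 := pow_le_pow_left₀ hH0.le hs.le 2
          linarith only [this]
        refine h3.trans (le_of_eq ?_)
        rw [setIntegral_const, smul_eq_mul, measureReal_def, Real.volume_Icc, ENNReal.toReal_ofReal (by linarith only [he1, hδ0, hδ1, hT1])]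
        ring
      have h4 : TT (reg b₀ H) (fun _ => 1) T (2 * T) (b₀ - 1 / 60) (b₀ + 1 / 60) ≤
          ∫ _b in Icc (b₀ - 1 / 60) (b₀ + 1 / 60), T * (10 ^ 4 * H₀ ^ 2) ^ 12 :=
        integral_mono_of_nonneg (Filter.Eventually.of_forall fun b => integral_nonneg fun r => tf_nonneg _ _ _ _)
          (integrableOn_const (by simp)) (Filter.Eventually.of_forall h2)
      refine h4.trans ?_
      rw [setIntegral_const, smul_eq_mul, measureReal_def, Real.volume_Icc, ENNReal.toReal_ofReal (by linarith only [he1, hδ0, hδ1])]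
      have : 0 ≤ T * (10 ^ 4 * H₀ ^ 2) ^ 12 := by positivity
      nlinarith only [this]
    refine h1.trans ?_
    have h5 : 1 ≤ H ^ e * (H ^ 12 + H ^ 17 / T) := one_le_mul_of_one_le_of_one_le hHe (by linarith only [hW0, hH12])
    have h6 : 0 ≤ (10 ^ 4 * H₀ ^ 2) ^ 12 * T := by positivity
    calc (10 ^ 4 * H₀ ^ 2) ^ 12 * T ≤ (10 ^ 4 * H₀ ^ 2) ^ 12 * T * (H ^ e * (H ^ 12 + H ^ 17 / T)) := le_mul_of_one_le_right h6 h5
      _ ≤ ((10 ^ 4 * H₀ ^ 2) ^ 12 + C') * T * (H ^ e * (H ^ 12 + H ^ 17 / T)) := by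
          refine mul_le_mul_of_nonneg_right ?_ (by linarith only [he1, hδ0, hδ1, h5])
          refine mul_le_mul_of_nonneg_right ?_ hT0.le
          linarith only [hC'0]
      _ = _ := by ring
  · -- large `H`
    obtain ⟨m, hm4, hx2, hx3, hxP⟩ := e1_depth hM hδ0 (by linarith only [he1, hδ0, hδ1] : 6 * δ ≤ 1) hH hT (hH₀2.trans hbig)
    obtain ⟨x, hx⟩ : ∃ x : ℝ, x = (M : ℝ) ^ m := ⟨_, rfl⟩
    rw [← hx] at hx2 hx3 hxP
    have hx1 : 1 ≤ x := by rw [hx]; exact one_le_pow₀ hM1.le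
    have hx0 : 0 < x := by linarith only [he1, hδ0, hδ1, hx1]
    have hNx : ((M : ℝ) ^ (4 * m + n * m)) = x ^ (n + 4) := by
      rw [hx, ← pow_mul]
      congr 1
      ring
    have hxn : x ^ n ≤ H ^ 2 := le_trans (pow_le_pow_right₀ hx1 (by omega)) hx2
    have hx18 : x ^ 18 ≤ H ^ 2 := le_trans (pow_le_pow_right₀ hx1 (by omega)) hx2
    have hg1 : 1 ≤ H ^ (6 * δ) := one_le_rpow hH (by positivity)
    -- conditions of the iteration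
    have hc1 : 10 ^ 14 * ((M : ℝ) ^ (2 * (4 * m + n * m) + 6 * m) * H ^ (2 * δ)) ≤ H * T := by
      have e1 : (M : ℝ) ^ (2 * (4 * m + n * m) + 6 * m) = (x ^ (n + 4)) ^ 2 * x ^ 6 := by
        rw [hx, ← pow_mul, ← pow_mul, ← pow_mul, ← pow_add]
        congr 1
        ring
      rw [e1]
      have h1 : (10 ^ 14 * ((x ^ (n + 4)) ^ 2 * x ^ 6 * H ^ (2 * δ))) ^ 3 ≤ (H * T) ^ 3 := by
        have e2 : (H ^ (2 * δ)) ^ 3 = H ^ (6 * δ) := by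
          rw [← rpow_natCast, ← rpow_mul hH0.le]
          congr 1
          push_cast
          ring
        have e3 : (10 ^ 14 * ((x ^ (n + 4)) ^ 2 * x ^ 6 * H ^ (2 * δ))) ^ 3 =
            10 ^ 42 * ((x ^ (n + 4)) ^ 3) ^ 2 * x ^ 18 * (H ^ (2 * δ)) ^ 3 := by ring
        rw [e3, e2]
        have h2 : ((x ^ (n + 4)) ^ 3) ^ 2 * H ^ (6 * δ) ≤ (T * H) ^ 2 := by
          have h3 : (x ^ (n + 4)) ^ 3 ≤ T * H := by
            refine le_trans ?_ hx3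
            exact le_mul_of_one_le_right (by positivity) hg1
          calc ((x ^ (n + 4)) ^ 3) ^ 2 * H ^ (6 * δ) = (x ^ (n + 4)) ^ 3 * ((x ^ (n + 4)) ^ 3 * H ^ (6 * δ)) := by ring
            _ ≤ (T * H) * (T * H) := mul_le_mul h3 hx3 (by positivity) (by positivity)
            _ = _ := by ring
        have h4 : 10 ^ 42 * x ^ 18 ≤ H * T := by
          have h5 : (10 ^ 21 : ℝ) ^ 2 ≤ H ^ 2 := pow_le_pow_left₀ (by norm_num) (hH₀1.trans hbig) 2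
          calc 10 ^ 42 * x ^ 18 = (10 ^ 21) ^ 2 * x ^ 18 := by norm_num
            _ ≤ H ^ 2 * H ^ 2 := mul_le_mul h5 hx18 (by positivity) (by positivity)
            _ = H * H ^ 3 := by ring
            _ ≤ H * T := mul_le_mul_of_nonneg_left hT hH0.le
        calc 10 ^ 42 * ((x ^ (n + 4)) ^ 3) ^ 2 * x ^ 18 * H ^ (6 * δ) = (10 ^ 42 * x ^ 18) * (((x ^ (n + 4)) ^ 3) ^ 2 * H ^ (6 * δ)) := by ring
          _ ≤ (H * T) * (T * H) ^ 2 := mul_le_mul h4 h2 (by positivity) (by positivity)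
          _ = _ := by ring
      exact (pow_le_pow_iff_left₀ (by positivity) (by positivity) (by norm_num)).1 h1
    have hc2 : 10 ^ 8 * ((M : ℝ) ^ (3 * (4 * m + n * m)) * H ^ δ) ≤ ρ * (H * T) := by
      have e1 : (M : ℝ) ^ (3 * (4 * m + n * m)) = (x ^ (n + 4)) ^ 3 := by
        rw [← hNx, ← pow_mul]
        congr 1
        ring
      rw [e1]
      have h1 : 10 ^ 8 / ρ ≤ H ^ (5 * δ) := by
        have h2 := rpow_le_rpow (by positivity) (hH₀3.trans hbig) (by positivity : 0 ≤ 5 * δ)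
        rw [← rpow_mul (by positivity)] at h2
        have h3 : 1 / (5 * δ) * (5 * δ) = 1 := by field_simp
        rwa [h3, rpow_one] at h2
      have h2 : 10 ^ 8 ≤ ρ * H ^ (5 * δ) := by
        rw [div_le_iff₀ hρ0] at h1
        linarith only [h1]
      have h3 : H ^ (5 * δ) * H ^ δ = H ^ (6 * δ) := by
        rw [← rpow_add hH0]
        congr 1
        ring
      calc 10 ^ 8 * ((x ^ (n + 4)) ^ 3 * H ^ δ) ≤ (ρ * H ^ (5 * δ)) * ((x ^ (n + 4)) ^ 3 * H ^ δ) :=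
            mul_le_mul_of_nonneg_right h2 (by positivity)
        _ = ρ * ((x ^ (n + 4)) ^ 3 * (H ^ (5 * δ) * H ^ δ)) := by ring
        _ = ρ * ((x ^ (n + 4)) ^ 3 * H ^ (6 * δ)) := by rw [h3]
        _ ≤ ρ * (T * H) := mul_le_mul_of_nonneg_left hx3 hρ0.le
        _ = _ := by ring
    have hHT : H ≤ T := le_trans (by
      calc H = H ^ 1 := (pow_one H).symm
        _ ≤ H ^ 3 := pow_le_pow_right₀ hH (by norm_num)) hT
    obtain ⟨D, hD⟩ : ∃ D : ℝ, D = (C * H ^ δ * (M : ℝ) ^ (e / 200 * (m : ℝ))) ^ n := ⟨_, rfl⟩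
    have hD0 : 0 ≤ D := by rw [hD]; positivity
    obtain ⟨Y, hY⟩ : ∃ Y : ℝ, Y = Cf * H ^ (e / 200) * T ^ (1 / 6 : ℝ) * (H ^ 2 + H ^ 3 / √((M ^ (4 * m + n * m) : ℕ) : ℝ)) := ⟨_, rfl⟩
    have hNcast : ((M ^ (4 * m + n * m) : ℕ) : ℝ) = x ^ (n + 4) := by
      push_cast
      exact hNx
    have hslab : ∀ l : ℕ, ∑ j ∈ Finset.range (M ^ (4 * m)),
        TT (slb b₀ H ((M : ℝ) ^ (4 * m)) (arc b₀ (reg b₀ H) (M ^ (4 * m)) j) l) (fun _ => 1) T (2 * T) (b₀ - 1 / 60) (b₀ + 1 / 60) ≤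
        D ^ 6 * Y ^ 6 := by
      intro l
      refine e1_slab (n := n) (ρ := ρ) (T := T) hK (fun j => ?_) ?_
      · rw [hD]
        refine hit' n m (4 * m) j b₀ H T ρ T (2 * T) (b₀ - 1 / 60) (b₀ + 1 / 60) (fun _ => 1)
          (slb b₀ H ((M : ℝ) ^ (4 * m)) (arc b₀ (reg b₀ H) (M ^ (4 * m)) j) l) hH hHT hTB hb₀ (by linarith only [he1, hδ0, hδ1]) (by linarith only [he1, hδ0, hδ1])
          (by linarith only [he1, hδ0, hδ1]) le_rfl (by linarith only [he1, hδ0, hδ1, hH₀1, hbig, hHT]) le_rfl (fun _ => by simp) e1_slb ?_ (by omega) hc1 hc2 hρ0.le (le_of_eq hnρ)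
        intro b hb k hk k' hk'
        exact slb_thin hM hm4 hH0 hb hk hk'
      · rw [hY]
        refine hfin (M ^ (4 * m + n * m)) b₀ H T (T - n * ρ * T) (2 * T + n * ρ * T) (b₀ - 1 / 60 - n * ρ) (b₀ + 1 / 60 + n * ρ)
          (fun _ => 1) (slb b₀ H ((M : ℝ) ^ (4 * m)) (reg b₀ H) l) hH hT hb₀ ?_ ?_ ?_ ?_ ?_ ?_ (fun _ => by simp) e1_slb ?_ ?_ ?_
        · rw [hnρ]; linarith only [he1, hδ0, hδ1, hH₀1, hbig, hHT]
        · rw [hnρ]; linarith only [he1, hδ0, hδ1, hH₀1, hbig, hHT]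
        · rw [hnρ]; linarith only [he1, hδ0, hδ1, hH₀1, hbig, hHT]
        · rw [hnρ]; linarith only [he1, hδ0, hδ1]
        · rw [hnρ]; linarith only [he1, hδ0, hδ1]
        · rw [hnρ]; linarith only [he1, hδ0, hδ1]
        · intro k hk k' hk'
          classical
          unfold slb at hk hk'
          rw [Finset.mem_filter] at hk hk'
          obtain ⟨u1, u2, -⟩ := e1_reg hk.1
          obtain ⟨u1', u2', -⟩ := e1_reg hk'.1
          have hL : (40 : ℝ) ≤ (M : ℝ) ^ (4 * m) := by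
            have h1 : (36 : ℝ) ≤ M := by exact_mod_cast hM
            calc (40 : ℝ) ≤ 36 ^ 4 := by norm_num
              _ ≤ (M : ℝ) ^ 4 := pow_le_pow_left₀ (by norm_num) h1 4
              _ ≤ (M : ℝ) ^ (4 * m) := pow_le_pow_right₀ hM1.le (by omega)
          have hL0 : (0 : ℝ) < (M : ℝ) ^ (4 * m) := by linarith only [he1, hδ0, hδ1, hL]
          have hk0 : 0 < uu b₀ k := by linarith only [he1, hδ0, hδ1, hH₀1, hbig, u1]
          have hk0' : 0 < uu b₀ k' := by linarith only [he1, hδ0, hδ1, hH₀1, hbig, u1']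
          have f1 := (Nat.floor_eq_iff (by positivity)).1 hk.2
          have f2 := (Nat.floor_eq_iff (by positivity)).1 hk'.2
          have h1 : uu b₀ k * (M : ℝ) ^ (4 * m) / H < uu b₀ k' * (M : ℝ) ^ (4 * m) / H + 1 := by linarith only [f1.2, f2.1]
          have h2 : uu b₀ k * (M : ℝ) ^ (4 * m) < uu b₀ k' * (M : ℝ) ^ (4 * m) + H := by
            have h3 := mul_lt_mul_of_pos_right h1 hH0
            have e3 : uu b₀ k * (M : ℝ) ^ (4 * m) / H * H = uu b₀ k * (M : ℝ) ^ (4 * m) := by field_simp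
            have e4 : (uu b₀ k' * (M : ℝ) ^ (4 * m) / H + 1) * H = uu b₀ k' * (M : ℝ) ^ (4 * m) + H := by field_simp
            rwa [e3, e4] at h3
          have h3 : H ≤ 1 / 10 * uu b₀ k' * (M : ℝ) ^ (4 * m) := by
            have h4 : 1 / 10 * uu b₀ k' * 40 ≤ 1 / 10 * uu b₀ k' * (M : ℝ) ^ (4 * m) :=
              mul_le_mul_of_nonneg_left hL (by positivity)
            linarith only [u1', h4]
          have h4 : uu b₀ k * (M : ℝ) ^ (4 * m) ≤ 11 / 10 * uu b₀ k' * (M : ℝ) ^ (4 * m) := by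
            have : 11 / 10 * uu b₀ k' * (M : ℝ) ^ (4 * m) = uu b₀ k' * (M : ℝ) ^ (4 * m) + 1 / 10 * uu b₀ k' * (M : ℝ) ^ (4 * m) := by ring
            linarith only [h2, h3]
          exact le_of_mul_le_mul_right h4 hL0
        · exact Nat.one_le_iff_ne_zero.2 (pow_pos (by omega) _).ne'
        · rw [hNcast]
          exact hx2
    -- assembly
    have hcut := e1_cut (m := m) hM hH0 (fun _ => 1) (r₁ := T) (r₂ := 2 * T) (β₁ := b₀ - 1 / 60) (β₂ := b₀ + 1 / 60) (b₀ := b₀)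
      (by linarith only [he1, hδ0, hδ1]) (by linarith only [he1, hδ0, hδ1])
    have hA : TT (reg b₀ H) (fun _ => 1) T (2 * T) (b₀ - 1 / 60) (b₀ + 1 / 60) ≤ (9 * x ^ 8) ^ 12 * (D ^ 6 * Y ^ 6) := by
      refine hcut.trans ?_
      have h1 : ∑ l ∈ Finset.range (9 * M ^ (4 * m)), ∑ j ∈ Finset.range (M ^ (4 * m)),
          TT (slb b₀ H ((M : ℝ) ^ (4 * m)) (arc b₀ (reg b₀ H) (M ^ (4 * m)) j) l) (fun _ => 1) T (2 * T) (b₀ - 1 / 60) (b₀ + 1 / 60) ≤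
          (9 * x ^ 4) * (D ^ 6 * Y ^ 6) := by
        refine (Finset.sum_le_sum fun l _ => hslab l).trans (le_of_eq ?_)
        rw [Finset.sum_const, Finset.card_range, nsmul_eq_mul]
        push_cast
        rw [hx, ← pow_mul, mul_comm m 4]
      have e8 : (M : ℝ) ^ (8 * m) = x ^ 8 := by rw [hx, ← pow_mul, mul_comm m 8]
      rw [e8]
      have hDY : 0 ≤ D ^ 6 * Y ^ 6 := by (clear * -; positivity)
      calc (9 * x ^ 8) ^ 11 * _ ≤ (9 * x ^ 8) ^ 11 * ((9 * x ^ 4) * (D ^ 6 * Y ^ 6)) := mul_le_mul_of_nonneg_left h1 (by positivity)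
        _ ≤ (9 * x ^ 8) ^ 11 * ((9 * x ^ 8) * (D ^ 6 * Y ^ 6)) := by
            refine mul_le_mul_of_nonneg_left (mul_le_mul_of_nonneg_right ?_ hDY) (by positivity)
            have : x ^ 4 ≤ x ^ 8 := pow_le_pow_right₀ hx1 (by norm_num)
            linarith only [this]
        _ = _ := by ring
    refine hA.trans ?_
    -- the factors
    have hxr : x ≤ H ^ (2 / ((n : ℝ) + 4)) := by
      have h1 := rpow_le_rpow (by positivity) hx2 (by positivity : (0 : ℝ) ≤ ((n + 4 : ℕ) : ℝ)⁻¹)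
      rw [pow_rpow_inv_natCast hx0.le (by omega), ← rpow_natCast H 2, ← rpow_mul hH0.le] at h1
      refine h1.trans (le_of_eq ?_)
      congr 1
      push_cast
      field_simp
    have k1 : x ^ 96 ≤ H ^ (e / 10) := by
      have h1 : x ^ 96 ≤ (H ^ (2 / ((n : ℝ) + 4))) ^ 96 := pow_le_pow_left₀ hx0.le hxr 96
      rw [← rpow_natCast (H ^ (2 / ((n : ℝ) + 4))) 96, ← rpow_mul hH0.le] at h1
      refine h1.trans (rpow_le_rpow_of_exponent_le hH ?_)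
      push_cast
      rw [div_mul_eq_mul_div, div_le_iff₀ (by positivity)]
      nlinarith only [he1, hne, hδ0, hδ1]
    have k2 : (H ^ δ) ^ (6 * n) ≤ H ^ (e / 10) := by
      rw [← rpow_natCast, ← rpow_mul hH0.le]
      refine rpow_le_rpow_of_exponent_le hH ?_
      push_cast
      nlinarith only [hδ0, hδn, hδ1]
    have k3 : ((M : ℝ) ^ (e / 200 * (m : ℝ))) ^ (6 * n) ≤ H ^ (e / 10) := by
      have e1 : (M : ℝ) ^ (e / 200 * (m : ℝ)) = x ^ (e / 200) := by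
        rw [hx, ← rpow_natCast, ← rpow_mul hM0.le, mul_comm]
      rw [e1]
      have e2 : (x ^ (e / 200)) ^ (6 * n) = (x ^ n) ^ (6 * (e / 200)) := by
        rw [← rpow_natCast, ← rpow_mul hx0.le, ← rpow_natCast x n, ← rpow_mul hx0.le]
        congr 1
        push_cast
        ring
      rw [e2]
      refine (rpow_le_rpow (by positivity) hxn (by positivity)).trans ?_
      rw [← rpow_natCast H 2, ← rpow_mul hH0.le]
      refine rpow_le_rpow_of_exponent_le hH ?_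
      push_cast
      linarith only [hδ0, hδ1]
    have k4 : (H ^ (e / 200)) ^ 6 ≤ H ^ (e / 10) := by
      rw [← rpow_natCast, ← rpow_mul hH0.le]
      refine rpow_le_rpow_of_exponent_le hH ?_
      push_cast
      linarith only [hδ0, hδ1]
    have k5 : H ^ (6 * δ) ≤ H ^ (e / 10) := rpow_le_rpow_of_exponent_le hH hδ1
    obtain ⟨W, hW⟩ : ∃ W : ℝ, W = H ^ 12 + H ^ 17 / T := ⟨_, rfl⟩
    have hWpos : 0 < W := by rw [hW]; positivity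
    have k6 : (H ^ 2 + H ^ 3 / √((M ^ (4 * m + n * m) : ℕ) : ℝ)) ^ 6 ≤ 64 * (M : ℝ) ^ (3 * (n + 4)) * H ^ (e / 10) * W := by
      rw [hNcast]
      have hN0 : 0 < x ^ (n + 4) := by positivity
      have h1 : (H ^ 3 / √(x ^ (n + 4))) ^ 6 = H ^ 18 / (x ^ (n + 4)) ^ 3 := by
        have h2 : √(x ^ (n + 4)) ^ 6 = (x ^ (n + 4)) ^ 3 := by
          have h3 : √(x ^ (n + 4)) ^ 2 = x ^ (n + 4) := sq_sqrt hN0.le
          calc √(x ^ (n + 4)) ^ 6 = (√(x ^ (n + 4)) ^ 2) ^ 3 := by ring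
            _ = _ := by rw [h3]
        rw [div_pow, h2]
        ring
      have h2 : ∀ a b : ℝ, 0 ≤ a → 0 ≤ b → (a + b) ^ 6 ≤ 32 * (a ^ 6 + b ^ 6) := by
        intro a b ha hb
        have := add_pow_le ha hb 6
        norm_num at this
        linarith only [this]
      have h3 := h2 (H ^ 2) (H ^ 3 / √(x ^ (n + 4))) (by positivity) (by positivity)
      rw [h1] at h3
      have h4 : (H ^ 2) ^ 6 = H ^ 12 := by ring
      rw [h4] at h3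
      refine h3.trans ?_
      have hMp : 1 ≤ (M : ℝ) ^ (3 * (n + 4)) := one_le_pow₀ hM1.le
      have h5 : H ^ 12 + H ^ 18 / (x ^ (n + 4)) ^ 3 ≤ 2 * ((M : ℝ) ^ (3 * (n + 4)) * (H ^ (6 * δ) * W)) := by
        have h6 : H ^ 12 + H ^ (6 * δ) * (H ^ 17 / T) ≤ H ^ (6 * δ) * W := by
          rw [hW, _root_.mul_add]
          have : H ^ 12 ≤ H ^ (6 * δ) * H ^ 12 := le_mul_of_one_le_left (by positivity) hg1
          linarith only [this]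
        have h7 : H ^ 12 ≤ (M : ℝ) ^ (3 * (n + 4)) * (H ^ (6 * δ) * W) := by
          calc H ^ 12 ≤ 1 * (1 * W) := by rw [hW]; linarith only [hW0]
            _ ≤ (M : ℝ) ^ (3 * (n + 4)) * (H ^ (6 * δ) * W) := by
                refine mul_le_mul hMp ?_ (by positivity) (by positivity)
                exact mul_le_mul_of_nonneg_right hg1 hWpos.le
        have h8 := hxP.trans (mul_le_mul_of_nonneg_left h6 (by positivity : 0 ≤ (M : ℝ) ^ (3 * (n + 4))))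
        linarith only [h7, h8]
      calc 32 * (H ^ 12 + H ^ 18 / (x ^ (n + 4)) ^ 3) ≤ 32 * (2 * ((M : ℝ) ^ (3 * (n + 4)) * (H ^ (6 * δ) * W))) := by linarith only [h5]
        _ = 64 * (M : ℝ) ^ (3 * (n + 4)) * W * H ^ (6 * δ) := by ring
        _ ≤ 64 * (M : ℝ) ^ (3 * (n + 4)) * W * H ^ (e / 10) := mul_le_mul_of_nonneg_left k5 (by positivity)
        _ = _ := by ring
    have eD : D ^ 6 = C ^ (6 * n) * (H ^ δ) ^ (6 * n) * ((M : ℝ) ^ (e / 200 * (m : ℝ))) ^ (6 * n) := by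
      rw [hD, ← pow_mul, mul_pow, mul_pow, mul_comm n 6]
    have eT : (T ^ (1 / 6 : ℝ)) ^ 6 = T := by
      rw [← rpow_natCast, ← rpow_mul hT0.le]
      norm_num
    have eY : Y ^ 6 = Cf ^ 6 * (H ^ (e / 200)) ^ 6 * T * (H ^ 2 + H ^ 3 / √((M ^ (4 * m + n * m) : ℕ) : ℝ)) ^ 6 := by
      rw [hY, mul_pow, mul_pow, mul_pow, eT]
    obtain ⟨q, hq⟩ : ∃ q : ℝ, q = H ^ (e / 10) := ⟨_, rfl⟩
    rw [← hq] at k1 k2 k3 k4 k6
    have hq0 : 0 < q := by rw [hq]; positivity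
    have hq5 : q ^ 5 ≤ H ^ e := by
      rw [hq, ← rpow_natCast, ← rpow_mul hH0.le]
      refine rpow_le_rpow_of_exponent_le hH ?_
      push_cast
      linarith only [hδ0, hδ1]
    have hq' : (9 * x ^ 8) ^ 12 * (D ^ 6 * Y ^ 6) ≤ C' * q ^ 5 * T * W := by
      rw [eD, eY, hC']
      have e1 : (9 * x ^ 8) ^ 12 = 9 ^ 12 * x ^ 96 := by ring
      rw [e1]
      calc 9 ^ 12 * x ^ 96 * (C ^ (6 * n) * (H ^ δ) ^ (6 * n) * ((M : ℝ) ^ (e / 200 * (m : ℝ))) ^ (6 * n) *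
            (Cf ^ 6 * (H ^ (e / 200)) ^ 6 * T * (H ^ 2 + H ^ 3 / √((M ^ (4 * m + n * m) : ℕ) : ℝ)) ^ 6)) ≤
          9 ^ 12 * q * (C ^ (6 * n) * q * q * (Cf ^ 6 * q * T * (64 * (M : ℝ) ^ (3 * (n + 4)) * q * W))) := by
            (clear * - k1 k2 hC k3 hM hq0 k4 hCf hT1 k6 hH; gcongr)
        _ = _ := by ring
    refine hq'.trans ?_
    rw [← hW]
    calc C' * q ^ 5 * T * W ≤ C' * H ^ e * T * W := by (clear * - hq5 hC'0 hT1 hWpos; gcongr)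
      _ ≤ ((10 ^ 4 * H₀ ^ 2) ^ 12 + C') * H ^ e * T * W := by
          have : C' ≤ (10 ^ 4 * H₀ ^ 2) ^ 12 + C' := by
            have : 0 ≤ (10 ^ 4 * H₀ ^ 2) ^ 12 := by positivity
            linarith only [this]
          (clear * - this hH hT1 hWpos; gcongr)

theorem M12 {e : ℝ} (he : 0 < e) (B : ℝ) : ∃ C : ℝ, 0 < C ∧ ∀ H T b₀ : ℝ, 1 ≤ H → H ^ 3 ≤ T → T ≤ H ^ B → |b₀| ≤ 1 / 2 →
    ∫ b in Icc (b₀ - 1 / 60) (b₀ + 1 / 60), ∫ r in Icc T (2 * T), m12 (reg b₀ H) (fun k => ee (r * ph b k)) ≤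
      C * H ^ e * T * (H ^ 12 + H ^ 17 / T) := by
  obtain ⟨C, hC, h⟩ := e1_main (e := min e 1) (by positivity) (min_le_right _ _) B
  refine ⟨C, hC, fun H T b₀ hH hT hTB hb₀ => ?_⟩
  have h1 := h H T b₀ hH hT hTB hb₀
  have e1 : TT (reg b₀ H) (fun _ => 1) T (2 * T) (b₀ - 1 / 60) (b₀ + 1 / 60) =
      ∫ b in Icc (b₀ - 1 / 60) (b₀ + 1 / 60), ∫ r in Icc T (2 * T), m12 (reg b₀ H) (fun k => ee (r * ph b k)) := by
    unfold TT tf
    simp only [one_mul]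
  rw [e1] at h1
  have hT0 : 0 < T := lt_of_lt_of_le (by positivity) hT
  refine h1.trans ?_
  have h2 : H ^ (min e 1) ≤ H ^ e := rpow_le_rpow_of_exponent_le hH (min_le_left _ _)
  have hH0 : 0 < H := by linarith only [hH]
  gcongr

end Pool.Agent.Helper76.MM
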