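import Pool.Agent.Helper76.MM.Defs
import Pool.Agent.Helper92.DT.R0
import Pool.Agent.Helper92.GC.T1

/-!
# MM-A1: continuity and size of the moments

PROOFS. `m12 S b = ∫ c in Tq, ‖tp S b c‖^12`; `Tq` is compact with measure one; `‖tp S b c‖ ≤ ∑ ‖b k‖` (`tp_norm_le`, GC.R0). Continuity in parameters:
`m12_eq` (DT.R0): `m12` is a polynomial in the coefficients.
`LL_eq`: `n12 ^ 6 = ∫ ‖hs‖^12 d(mu2 v w)`, then Fubini twice (`integral_prod_symm`, `integral_prod`), `integral_withDensity_eq_integral_toReal_smul`; compare with `n6_slice` (GC.T1).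
-/

open MeasureTheory Real Set Filter Topology

set_option autoImplicit false

namespace Pool.Agent.Helper76.MM

open Pool.Agent.Helper22.AE
open Pool.Agent.Helper92.GC
open Pool.Agent.Helper92.DT (m12)
open Pool.Agent.Helper78.CE (p2 p3 hs mu2 InReg)
open Pool.Agent.Helper22.AC (IsWt)

theorem lf_nonneg (S : Finset (ℤ × ℤ)) (a : ℤ × ℤ → ℂ) (β z t g : ℝ) : 0 ≤ lf S a β z t g :=
  Pool.Agent.Helper92.DT.m12_nonneg _ _

theorem tf_nonneg (S : Finset (ℤ × ℤ)) (a : ℤ × ℤ → ℂ) (r b : ℝ) : 0 ≤ tf S a r b :=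
  Pool.Agent.Helper92.DT.m12_nonneg _ _

private theorem h92_tq : IsProbabilityMeasure ((volume : Measure (ℝ × ℝ)).restrict Tq) := by
  constructor
  unfold Tq
  rw [Measure.restrict_apply_univ, Measure.volume_eq_prod, Measure.prod_prod, Real.volume_Icc,
    sub_zero, ENNReal.ofReal_one, mul_one]

private theorem m12_le92 (S : Finset (ℤ × ℤ)) (b : ℤ × ℤ → ℂ) {M : ℝ} (hb : ∑ k ∈ S, ‖b k‖ ≤ M) : m12 S b ≤ M ^ 12 := by
  have := h92_tq
  have h1 : ∀ c, ‖tp S b c‖ ^ 12 ≤ M ^ 12 := fun c =>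
    pow_le_pow_left₀ (norm_nonneg _) ((tp_norm_le S b c).trans hb) 12
  unfold m12
  calc ∫ c in Tq, ‖tp S b c‖ ^ 12 ≤ ∫ _c in Tq, M ^ 12 := by
        refine integral_mono ?_ (integrable_const _) h1
        refine Integrable.of_bound (C := M ^ 12) ((tp_cont S b).norm.pow 12).aestronglyMeasurable
          (Eventually.of_forall fun c => ?_)
        rw [Real.norm_of_nonneg (by positivity)]
        exact h1 c
    _ = M ^ 12 := by simp

private theorem sum_le92 (S : Finset (ℤ × ℤ)) {a : ℤ × ℤ → ℂ} (ha : ∀ k, ‖a k‖ ≤ 1) (f : ℤ × ℤ → ℝ) :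
    ∑ k ∈ S, ‖a k * ee (f k)‖ ≤ (S.card : ℝ) := by
  calc ∑ k ∈ S, ‖a k * ee (f k)‖ ≤ ∑ _k ∈ S, (1 : ℝ) := by
        refine Finset.sum_le_sum fun k _ => ?_
        rw [norm_mul, ee_norm, mul_one]
        exact ha k
    _ = (S.card : ℝ) := by simp

theorem lf_le (S : Finset (ℤ × ℤ)) {a : ℤ × ℤ → ℂ} (ha : ∀ k, ‖a k‖ ≤ 1) (β z t g : ℝ) : lf S a β z t g ≤ (S.card : ℝ) ^ 12 :=
  m12_le92 S _ (sum_le92 S ha _)

theorem tf_le (S : Finset (ℤ × ℤ)) {a : ℤ × ℤ → ℂ} (ha : ∀ k, ‖a k‖ ≤ 1) (r b : ℝ) : tf S a r b ≤ (S.card : ℝ) ^ 12 :=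
  m12_le92 S _ (sum_le92 S ha _)

/-- `m12` is a continuous function of the coefficients -/
private theorem m12_contOn92 {X : Type} [TopologicalSpace X] {s : Set X} (S : Finset (ℤ × ℤ)) (a : X → ℤ × ℤ → ℂ)
    (h : ∀ k ∈ S, ContinuousOn (fun x => a x k) s) : ContinuousOn (fun x => m12 S (a x)) s := by
  simp only [Pool.Agent.Helper92.DT.m12_eq]
  have hc : ∀ l, ContinuousOn (fun x => cub S (a x) l) s := by
    intro l
    unfold cub
    refine continuousOn_finsetSum _ fun k hk => ?_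
    rw [Finset.mem_filter, Finset.mem_product, Finset.mem_product] at hk
    obtain ⟨⟨h2, h3, h4⟩, _⟩ := hk
    exact ((h _ h2).mul (h _ h3)).mul (h _ h4)
  refine continuousOn_finsetSum _ fun l _ => ContinuousOn.pow (ContinuousOn.norm ?_) 2
  unfold Pool.Agent.Helper92.DT.six
  refine continuousOn_finsetSum _ fun k _ => ?_
  exact (hc _).mul (hc _)

theorem lf_cont (S : Finset (ℤ × ℤ)) (a : ℤ × ℤ → ℂ) (β z : ℝ) : Continuous (fun q : ℝ × ℝ => lf S a β z q.1 q.2) := by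
  rw [← continuousOn_univ]
  unfold lf
  refine m12_contOn92 S (fun (q : ℝ × ℝ) k => a k * ee (q.1 * p2 β z k + q.2 * p3 β z k)) fun k _ => ?_
  refine Continuous.continuousOn ?_
  exact continuous_const.mul (ee_cont.comp (by fun_prop))

theorem tf_contOn (S : Finset (ℤ × ℤ)) (a : ℤ × ℤ → ℂ) (I : Set ℝ) (h : ∀ k ∈ S, ∀ b ∈ I, uu b k ≠ 0) :
    ContinuousOn (fun q : ℝ × ℝ => tf S a q.1 q.2) (univ ×ˢ I) := by
  unfold tf
  refine m12_contOn92 S (fun (q : ℝ × ℝ) k => a k * ee (q.1 * ph q.2 k)) fun k hk => ?_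
  refine continuousOn_const.mul (ee_cont.comp_continuousOn ?_)
  refine continuousOn_fst.mul ?_
  unfold ph
  refine ContinuousOn.div continuousOn_const ?_ ?_
  · unfold uu
    fun_prop
  · intro q hq
    exact h k hk q.2 hq.2

theorem LL_nonneg {X : ℝ} {v w : ℝ → ℝ} (hv : IsWt X v) (hw : IsWt X w) (β z : ℝ) (S : Finset (ℤ × ℤ)) (a : ℤ × ℤ → ℂ) :
    0 ≤ LL v w β z S a := by
  unfold LL
  refine integral_nonneg fun t => integral_nonneg fun g => ?_
  exact mul_nonneg (mul_nonneg (hv.nonneg t) (hw.nonneg g)) (lf_nonneg _ _ _ _ _ _)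

private theorem h92_prob {X : ℝ} {v : ℝ → ℝ} (hv : IsWt X v) :
    IsProbabilityMeasure ((volume : Measure ℝ).withDensity fun R => ENNReal.ofReal (v R)) := by
  have hint : Integrable v := by
    by_contra hcon
    have h2 := hv.int_one
    rw [integral_undef hcon] at h2
    exact zero_ne_one h2
  constructor
  rw [withDensity_apply _ MeasurableSet.univ, Measure.restrict_univ,
    ← ofReal_integral_eq_lintegral_ofReal hint (Eventually.of_forall hv.nonneg), hv.int_one,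
    ENNReal.ofReal_one]

private theorem hs_cont92 (S : Finset (ℤ × ℤ)) (a : ℤ × ℤ → ℂ) (f g : ℤ × ℤ → ℝ) : Continuous (hs S a f g) := by
  unfold hs
  refine continuous_finsetSum _ fun k _ => continuous_const.mul (ee_cont.comp ?_)
  unfold dt
  fun_prop

private theorem hs_norm92 (S : Finset (ℤ × ℤ)) (a : ℤ × ℤ → ℂ) (f g : ℤ × ℤ → ℝ) (q : (ℝ × ℝ) × (ℝ × ℝ)) :
    ‖hs S a f g q‖ ≤ ∑ k ∈ S, ‖a k‖ := by
  unfold hs
  refine (norm_sum_le _ _).trans (le_of_eq (Finset.sum_congr rfl fun k _ => ?_))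
  rw [norm_mul, ee_norm, mul_one]

private theorem hs_slice92 (S : Finset (ℤ × ℤ)) (a : ℤ × ℤ → ℂ) (β z t g : ℝ) (c : ℝ × ℝ) :
    hs S a (p2 β z) (p3 β z) (c, (t, g)) = tp S (fun k => a k * ee (t * p2 β z k + g * p3 β z k)) c := by
  unfold hs tp
  refine Finset.sum_congr rfl fun k _ => ?_
  change a k * ee (dt k c + t * p2 β z k + g * p3 β z k) = _
  rw [add_assoc, ee_add]
  ring

theorem LL_eq {X : ℝ} {v w : ℝ → ℝ} (hv : IsWt X v) (hw : IsWt X w) (β z : ℝ) (S : Finset (ℤ × ℤ)) (a : ℤ × ℤ → ℂ) :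
    Pool.Agent.Helper78.CD.n12 (mu2 v w) (hs S a (p2 β z) (p3 β z)) = LL v w β z S a ^ (1 / 6 : ℝ) := by
  unfold Pool.Agent.Helper78.CD.n12
  congr 1
  have := h92_tq
  have := h92_prob hv
  have := h92_prob hw
  have hint : Integrable (fun q => ‖hs S a (p2 β z) (p3 β z) q‖ ^ 12) (mu2 v w) := by
    unfold mu2
    refine Integrable.of_bound (C := (∑ k ∈ S, ‖a k‖) ^ 12) ((hs_cont92 S a _ _).norm.pow 12).aestronglyMeasurable
      (Eventually.of_forall fun q => ?_)
    rw [Real.norm_of_nonneg (by positivity)]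
    exact pow_le_pow_left₀ (norm_nonneg _) (hs_norm92 S a _ _ q) 12
  have hlf : ∀ t g, ∫ c in Tq, ‖hs S a (p2 β z) (p3 β z) (c, (t, g))‖ ^ 12 = lf S a β z t g := by
    intro t g
    unfold lf m12
    simp only [hs_slice92]
  have e1 : ∫ q, ‖hs S a (p2 β z) (p3 β z) q‖ ^ 12 ∂(mu2 v w) =
      ∫ p : ℝ × ℝ, lf S a β z p.1 p.2 ∂(((volume : Measure ℝ).withDensity fun R => ENNReal.ofReal (v R)).prod
        ((volume : Measure ℝ).withDensity fun R => ENNReal.ofReal (w R))) := by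
    unfold mu2 at hint ⊢
    rw [integral_prod_symm _ hint]
    refine integral_congr_ae (Eventually.of_forall fun p => ?_)
    exact hlf p.1 p.2
  have hint2 : Integrable (fun p : ℝ × ℝ => lf S a β z p.1 p.2)
      (((volume : Measure ℝ).withDensity fun R => ENNReal.ofReal (v R)).prod
        ((volume : Measure ℝ).withDensity fun R => ENNReal.ofReal (w R))) := by
    refine Integrable.of_bound (C := (∑ k ∈ S, ‖a k‖) ^ 12) (lf_cont S a β z).aestronglyMeasurable
      (Eventually.of_forall fun q => ?_)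
    rw [Real.norm_of_nonneg (lf_nonneg _ _ _ _ _ _)]
    refine m12_le92 S _ (le_of_eq (Finset.sum_congr rfl fun k _ => ?_))
    rw [norm_mul, ee_norm, mul_one]
  rw [e1, integral_prod _ hint2, integral_withDensity_eq_integral_toReal_smul
    (hv.cont.measurable.ennreal_ofReal) (Filter.Eventually.of_forall fun _ => ENNReal.ofReal_lt_top)]
  unfold LL
  refine integral_congr_ae (Eventually.of_forall fun t => ?_)
  simp only
  rw [ENNReal.toReal_ofReal (hv.nonneg t), smul_eq_mul, integral_withDensity_eq_integral_toReal_smul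
    (hw.cont.measurable.ennreal_ofReal) (Filter.Eventually.of_forall fun _ => ENNReal.ofReal_lt_top), ← integral_const_mul]
  refine integral_congr_ae (Eventually.of_forall fun g => ?_)
  simp only
  rw [ENNReal.toReal_ofReal (hw.nonneg g), smul_eq_mul]
  ring

end Pool.Agent.Helper76.MM
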