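import Pool.Agent.Helper92.GC.Q1

/-!
# MM-A6: two weights of rapid decay

`v`, `w` : `IsDw (400 X)` at `r₁ - 200 X` and at `-200 X`.
PROOF of `low2`: `v ≥ c₀/(400X)` on `[r₁ - 200X, r₁ + 200X]`, `w` the same on `[-200X, 200X]`; `G ≥ 0` and all integrals exist (`G` continuous and bounded by `D`, `v`, `w` integrable).
PROOF of `up2`: `v ≤ Cd 0/(400X)` everywhere (`dec 0`), the same for `w`. On `|t - r₁| > Y` (`Y ≥ 400 X`): `|t - (r₁ - 200X)|/(400X) ≥ (Y/2)/(400X)`, so `1 ≤ (800X/Y)^n (|t - (r₁ - 200X)|/(400X))^n`,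
`∫_{far} v ≤ (800X/Y)^n π (Cd n + Cd (n+2))` by `dw_tail`; the same for `w`; `∫ v = ∫ w = 1`. So the integral is at most
`(Cd 0/(400X))² ∫∫_{near} G + 2 D (800 X/Y)^n π (Cd n + Cd (n+2))`.
-/

open MeasureTheory Real Set Filter Topology

set_option autoImplicit false

namespace Pool.Agent.Helper76.MM

open Pool.Agent.Helper92.GC (IsDw)

private theorem wint69 {X R₁ c₀ : ℝ} {v : ℝ → ℝ} {Cd : ℕ → ℝ} (hv : IsDw X R₁ v c₀ Cd) : Integrable v := by
  by_contra hcon
  have h2 := hv.wt.int_one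
  rw [integral_undef hcon] at h2
  exact zero_ne_one h2

private theorem vG69 {v : ℝ → ℝ} (hvi : Integrable v) {f : ℝ → ℝ} {D : ℝ} (hf : Continuous f)
    (h0 : ∀ t, 0 ≤ f t) (hD : ∀ t, f t ≤ D) : Integrable (fun t => v t * f t) := by
  refine hvi.mul_bdd (c := D) hf.aestronglyMeasurable (Filter.Eventually.of_forall fun t => ?_)
  rw [Real.norm_of_nonneg (h0 t)]
  exact hD t

private theorem contI69 {w : ℝ → ℝ} (hwi : Integrable w) (hw0 : ∀ g, 0 ≤ w g) {G : ℝ → ℝ → ℝ} {D : ℝ}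
    (hwc : Continuous w)
    (hG : Continuous (fun q : ℝ × ℝ => G q.1 q.2)) (h0 : ∀ t g, 0 ≤ G t g) (hD : ∀ t g, G t g ≤ D) :
    Continuous (fun t => ∫ g, w g * G t g) := by
  refine continuous_of_dominated (bound := fun g => w g * D) ?_ ?_ (hwi.mul_const D) ?_
  · intro t
    have : Continuous fun g => w g * G t g := hwc.mul (hG.comp (by fun_prop : Continuous fun g : ℝ => (t, g)))
    exact this.aestronglyMeasurable
  · intro t
    refine Filter.Eventually.of_forall fun g => ?_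
    rw [Real.norm_of_nonneg (mul_nonneg (hw0 g) (h0 t g))]
    exact mul_le_mul_of_nonneg_left (hD t g) (hw0 g)
  · refine Filter.Eventually.of_forall fun g => ?_
    exact continuous_const.mul (hG.comp (by fun_prop : Continuous fun t : ℝ => (t, g)))

private theorem contJ69 (a b : ℝ) {G : ℝ → ℝ → ℝ} {D : ℝ}
    (hG : Continuous (fun q : ℝ × ℝ => G q.1 q.2)) (h0 : ∀ t g, 0 ≤ G t g) (hD : ∀ t g, G t g ≤ D) :
    Continuous (fun t => ∫ g in Icc a b, G t g) := by
  refine continuous_of_dominated (bound := fun _ => D) ?_ ?_ ?_ ?_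
  · intro t
    have : Continuous fun g => G t g := hG.comp (by fun_prop : Continuous fun g : ℝ => (t, g))
    exact this.aestronglyMeasurable
  · intro t
    refine Filter.Eventually.of_forall fun g => ?_
    rw [Real.norm_of_nonneg (h0 t g)]
    exact hD t g
  · exact integrable_const D
  · refine Filter.Eventually.of_forall fun g => ?_
    exact hG.comp (by fun_prop : Continuous fun t : ℝ => (t, g))

private theorem tail69 {X Y c c₀ : ℝ} {v : ℝ → ℝ} {Cd : ℕ → ℝ} (hX : 0 < X) (hY : 400 * X ≤ Y)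
    (hv : IsDw (400 * X) (c - 200 * X) v c₀ Cd) (n : ℕ) :
    ∫ t in (Icc (c - Y) (c + Y))ᶜ, v t ≤ (800 * X / Y) ^ n * (π * (Cd n + Cd (n + 2))) := by
  have hY0 : 0 < Y := by linarith
  obtain ⟨h1, h2⟩ := Pool.Agent.Helper92.GC.dw_tail (by positivity : (0 : ℝ) < 400 * X) hv n
  have hvi := wint69 hv
  have h3 : ∫ t in (Icc (c - Y) (c + Y))ᶜ, v t ≤
      ∫ t in (Icc (c - Y) (c + Y))ᶜ, (800 * X / Y) ^ n * (v t * (|t - (c - 200 * X)| / (400 * X)) ^ n) := by
    refine setIntegral_mono_on hvi.integrableOn (h1.const_mul _).integrableOn measurableSet_Icc.compl fun t ht => ?_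
    have hfar : Y / 2 ≤ |t - (c - 200 * X)| := by
      rw [mem_compl_iff, mem_Icc, not_and_or, not_le, not_le] at ht
      rcases ht with ht | ht
      · rw [abs_of_neg (by linarith)]; linarith
      · rw [abs_of_pos (by linarith)]; linarith
    have hone : 1 ≤ (800 * X / Y) * (|t - (c - 200 * X)| / (400 * X)) := by
      rw [div_mul_div_comm, le_div_iff₀ (by positivity)]
      nlinarith
    have hpow : 1 ≤ (800 * X / Y) ^ n * (|t - (c - 200 * X)| / (400 * X)) ^ n := by
      rw [← mul_pow]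
      exact one_le_pow₀ hone
    calc v t = v t * 1 := (mul_one _).symm
      _ ≤ v t * ((800 * X / Y) ^ n * (|t - (c - 200 * X)| / (400 * X)) ^ n) :=
          mul_le_mul_of_nonneg_left hpow (hv.wt.nonneg t)
      _ = _ := by ring
  refine h3.trans ?_
  have h4 : ∫ t in (Icc (c - Y) (c + Y))ᶜ, (800 * X / Y) ^ n * (v t * (|t - (c - 200 * X)| / (400 * X)) ^ n) ≤
      ∫ t, (800 * X / Y) ^ n * (v t * (|t - (c - 200 * X)| / (400 * X)) ^ n) :=
    setIntegral_le_integral (h1.const_mul _) (Filter.Eventually.of_forall fun t => by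
      have := hv.wt.nonneg t
      positivity)
  refine h4.trans ?_
  rw [integral_const_mul]
  exact mul_le_mul_of_nonneg_left h2 (by positivity)

theorem low2 {X r₁ c₀ D : ℝ} {v w : ℝ → ℝ} {Cd : ℕ → ℝ} (hX : 0 < X) (hc : 0 < c₀) (hv : IsDw (400 * X) (r₁ - 200 * X) v c₀ Cd)
    (hw : IsDw (400 * X) (-(200 * X)) w c₀ Cd) {G : ℝ → ℝ → ℝ} (hG : Continuous (fun q : ℝ × ℝ => G q.1 q.2)) (h0 : ∀ t g, 0 ≤ G t g)
    (hD : ∀ t g, G t g ≤ D) :
    ∫ t in Icc (r₁ - 200 * X) (r₁ + 200 * X), ∫ g in Icc (-(200 * X)) (200 * X), G t g ≤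
      (400 * X / c₀) ^ 2 * ∫ t, ∫ g, v t * w g * G t g := by
  have hvi := wint69 hv
  have hwi := wint69 hw
  have hv0 := hv.wt.nonneg
  have hw0 := hw.wt.nonneg
  have hGt : ∀ t, Continuous fun g => G t g := fun t => hG.comp (by fun_prop : Continuous fun g : ℝ => (t, g))
  have hwG : ∀ t, Integrable (fun g => w g * G t g) := fun t => vG69 hwi (hGt t) (h0 t) (hD t)
  have hI0 : ∀ t, 0 ≤ ∫ g, w g * G t g := fun t => integral_nonneg fun g => mul_nonneg (hw0 g) (h0 t g)
  have hID : ∀ t, ∫ g, w g * G t g ≤ D := by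
    intro t
    have h1 : ∫ g, w g * G t g ≤ ∫ g, w g * D :=
      integral_mono (hwG t) (hwi.mul_const D) fun g => mul_le_mul_of_nonneg_left (hD t g) (hw0 g)
    rwa [integral_mul_const, hw.wt.int_one, one_mul] at h1
  have hIc := contI69 hwi hw0 hw.wt.cont hG h0 hD
  have hvI : Integrable (fun t => v t * ∫ g, w g * G t g) := vG69 hvi hIc hI0 hID
  have hk : 0 < 400 * X / c₀ := by positivity
  have hJ : ∀ t, ∫ g in Icc (-(200 * X)) (200 * X), G t g ≤ (400 * X / c₀) * ∫ g, w g * G t g := by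
    intro t
    have h1 : ∫ g in Icc (-(200 * X)) (200 * X), G t g ≤
        ∫ g in Icc (-(200 * X)) (200 * X), (400 * X / c₀) * (w g * G t g) := by
      refine setIntegral_mono_on ((hGt t).continuousOn.integrableOn_compact isCompact_Icc)
        ((hwG t).const_mul _).integrableOn measurableSet_Icc fun g hg => ?_
      have h2 := hw.low g ⟨hg.1, by linarith [hg.2]⟩
      have h3 : 1 ≤ (400 * X / c₀) * w g := by
        calc (1 : ℝ) = (400 * X / c₀) * (c₀ / (400 * X)) := by field_simp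
          _ ≤ _ := mul_le_mul_of_nonneg_left h2 hk.le
      calc G t g = 1 * G t g := (one_mul _).symm
        _ ≤ ((400 * X / c₀) * w g) * G t g := mul_le_mul_of_nonneg_right h3 (h0 t g)
        _ = _ := by ring
    refine h1.trans ?_
    rw [integral_const_mul]
    exact mul_le_mul_of_nonneg_left (setIntegral_le_integral (hwG t) (Filter.Eventually.of_forall fun g =>
      mul_nonneg (hw0 g) (h0 t g))) hk.le
  have hmain : ∫ t in Icc (r₁ - 200 * X) (r₁ + 200 * X), ∫ g in Icc (-(200 * X)) (200 * X), G t g ≤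
      ∫ t in Icc (r₁ - 200 * X) (r₁ + 200 * X), (400 * X / c₀) ^ 2 * (v t * ∫ g, w g * G t g) := by
    refine setIntegral_mono_on ((contJ69 _ _ hG h0 hD).continuousOn.integrableOn_compact isCompact_Icc)
      (hvI.const_mul _).integrableOn measurableSet_Icc fun t ht => ?_
    have h2 := hv.low t ⟨ht.1, by linarith [ht.2]⟩
    have h3 : 1 ≤ (400 * X / c₀) * v t := by
      calc (1 : ℝ) = (400 * X / c₀) * (c₀ / (400 * X)) := by field_simp
        _ ≤ _ := mul_le_mul_of_nonneg_left h2 hk.le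
    refine (hJ t).trans ?_
    calc (400 * X / c₀) * ∫ g, w g * G t g = (400 * X / c₀) * (1 * ∫ g, w g * G t g) := by ring
      _ ≤ (400 * X / c₀) * (((400 * X / c₀) * v t) * ∫ g, w g * G t g) :=
          mul_le_mul_of_nonneg_left (mul_le_mul_of_nonneg_right h3 (hI0 t)) hk.le
      _ = _ := by ring
  refine hmain.trans ?_
  rw [integral_const_mul]
  refine mul_le_mul_of_nonneg_left ?_ (by positivity)
  refine (setIntegral_le_integral hvI (Filter.Eventually.of_forall fun t => mul_nonneg (hv0 t) (hI0 t))).trans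
    (le_of_eq ?_)
  refine integral_congr_ae (Filter.Eventually.of_forall fun t => ?_)
  simp only
  rw [← integral_const_mul]
  refine integral_congr_ae (Filter.Eventually.of_forall fun g => ?_)
  simp only
  ring

theorem up2 {X Y r₁ c₀ D : ℝ} {v w : ℝ → ℝ} {Cd : ℕ → ℝ} (hX : 0 < X) (hY : 400 * X ≤ Y) (hv : IsDw (400 * X) (r₁ - 200 * X) v c₀ Cd)
    (hw : IsDw (400 * X) (-(200 * X)) w c₀ Cd) {G : ℝ → ℝ → ℝ} (hG : Continuous (fun q : ℝ × ℝ => G q.1 q.2)) (h0 : ∀ t g, 0 ≤ G t g)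
    (hD : ∀ t g, G t g ≤ D) (n : ℕ) :
    ∫ t, ∫ g, v t * w g * G t g ≤ (Cd 0 / (400 * X)) ^ 2 * (∫ t in Icc (r₁ - Y) (r₁ + Y), ∫ g in Icc (-Y) Y, G t g) +
      2 * D * (800 * X / Y) ^ n * (π * (Cd n + Cd (n + 2))) := by
  have hY0 : 0 < Y := by linarith
  have hvi := wint69 hv
  have hwi := wint69 hw
  have hv0 := hv.wt.nonneg
  have hw0 := hw.wt.nonneg
  have hD0 : 0 ≤ D := (h0 0 0).trans (hD 0 0)
  have hGt : ∀ t, Continuous fun g => G t g := fun t => hG.comp (by fun_prop : Continuous fun g : ℝ => (t, g))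
  have hwG : ∀ t, Integrable (fun g => w g * G t g) := fun t => vG69 hwi (hGt t) (h0 t) (hD t)
  have hI0 : ∀ t, 0 ≤ ∫ g, w g * G t g := fun t => integral_nonneg fun g => mul_nonneg (hw0 g) (h0 t g)
  have hID : ∀ t, ∫ g, w g * G t g ≤ D := by
    intro t
    have h1 : ∫ g, w g * G t g ≤ ∫ g, w g * D :=
      integral_mono (hwG t) (hwi.mul_const D) fun g => mul_le_mul_of_nonneg_left (hD t g) (hw0 g)
    rwa [integral_mul_const, hw.wt.int_one, one_mul] at h1
  have hIc := contI69 hwi hw0 hw.wt.cont hG h0 hD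
  have hvI : Integrable (fun t => v t * ∫ g, w g * G t g) := vG69 hvi hIc hI0 hID
  have hvle : ∀ t, v t ≤ Cd 0 / (400 * X) := fun t => by have := hv.dec 0 t; simpa using this
  have hwle : ∀ t, w t ≤ Cd 0 / (400 * X) := fun t => by have := hw.dec 0 t; simpa using this
  have hk : 0 ≤ Cd 0 / (400 * X) := (hv0 0).trans (hvle 0)
  have htv := tail69 hX hY hv n
  have htw : ∫ t in (Icc (-Y) Y)ᶜ, w t ≤ (800 * X / Y) ^ n * (π * (Cd n + Cd (n + 2))) := by
    have hw' : IsDw (400 * X) (0 - 200 * X) w c₀ Cd := by rw [zero_sub]; exact hw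
    have := tail69 hX hY hw' n
    rwa [zero_sub, zero_add] at this
  set τ : ℝ := (800 * X / Y) ^ n * (π * (Cd n + Cd (n + 2))) with hτ
  have hJc := contJ69 (-Y) Y hG h0 hD
  have hJ0 : ∀ t, 0 ≤ ∫ g in Icc (-Y) Y, G t g := fun t => integral_nonneg fun g => h0 t g
  have hIle : ∀ t, ∫ g, w g * G t g ≤ (Cd 0 / (400 * X)) * (∫ g in Icc (-Y) Y, G t g) + D * τ := by
    intro t
    rw [← integral_add_compl (measurableSet_Icc : MeasurableSet (Icc (-Y) Y)) (hwG t)]
    refine add_le_add ?_ ?_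
    · rw [← integral_const_mul]
      refine setIntegral_mono_on (hwG t).integrableOn
        (((hGt t).continuousOn.integrableOn_compact isCompact_Icc).const_mul _) measurableSet_Icc fun g _ => ?_
      exact mul_le_mul_of_nonneg_right (hwle g) (h0 t g)
    · have h1 : ∫ g in (Icc (-Y) Y)ᶜ, w g * G t g ≤ ∫ g in (Icc (-Y) Y)ᶜ, w g * D :=
        setIntegral_mono_on (hwG t).integrableOn (hwi.mul_const D).integrableOn measurableSet_Icc.compl
          fun g _ => mul_le_mul_of_nonneg_left (hD t g) (hw0 g)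
      rw [integral_mul_const] at h1
      refine h1.trans ?_
      rw [mul_comm]
      exact mul_le_mul_of_nonneg_left htw hD0
  have hτ0 : 0 ≤ τ := le_trans (setIntegral_nonneg measurableSet_Icc.compl fun g _ => hw0 g) htw
  have heq : ∫ t, ∫ g, v t * w g * G t g = ∫ t, v t * ∫ g, w g * G t g := by
    refine integral_congr_ae (Filter.Eventually.of_forall fun t => ?_)
    simp only
    rw [← integral_const_mul]
    refine integral_congr_ae (Filter.Eventually.of_forall fun g => ?_)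
    simp only
    ring
  rw [heq, ← integral_add_compl (measurableSet_Icc : MeasurableSet (Icc (r₁ - Y) (r₁ + Y))) hvI]
  have hfar : ∫ t in (Icc (r₁ - Y) (r₁ + Y))ᶜ, v t * ∫ g, w g * G t g ≤ D * τ := by
    have h1 : ∫ t in (Icc (r₁ - Y) (r₁ + Y))ᶜ, v t * ∫ g, w g * G t g ≤ ∫ t in (Icc (r₁ - Y) (r₁ + Y))ᶜ, v t * D :=
      setIntegral_mono_on hvI.integrableOn (hvi.mul_const D).integrableOn measurableSet_Icc.compl
        fun t _ => mul_le_mul_of_nonneg_left (hID t) (hv0 t)
    rw [integral_mul_const] at h1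
    refine h1.trans ?_
    rw [mul_comm]
    exact mul_le_mul_of_nonneg_left htv hD0
  have hJi : IntegrableOn (fun t => (Cd 0 / (400 * X)) ^ 2 * ∫ g in Icc (-Y) Y, G t g) (Icc (r₁ - Y) (r₁ + Y)) :=
    (hJc.continuousOn.integrableOn_compact isCompact_Icc).const_mul _
  have hnear : ∫ t in Icc (r₁ - Y) (r₁ + Y), v t * ∫ g, w g * G t g ≤
      (Cd 0 / (400 * X)) ^ 2 * (∫ t in Icc (r₁ - Y) (r₁ + Y), ∫ g in Icc (-Y) Y, G t g) + D * τ := by
    have h1 : ∫ t in Icc (r₁ - Y) (r₁ + Y), v t * ∫ g, w g * G t g ≤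
        ∫ t in Icc (r₁ - Y) (r₁ + Y), ((Cd 0 / (400 * X)) ^ 2 * (∫ g in Icc (-Y) Y, G t g) + v t * (D * τ)) := by
      refine setIntegral_mono_on hvI.integrableOn (hJi.add (hvi.mul_const _).integrableOn) measurableSet_Icc
        fun t _ => ?_
      calc v t * ∫ g, w g * G t g ≤ v t * ((Cd 0 / (400 * X)) * (∫ g in Icc (-Y) Y, G t g) + D * τ) :=
            mul_le_mul_of_nonneg_left (hIle t) (hv0 t)
        _ = v t * ((Cd 0 / (400 * X)) * (∫ g in Icc (-Y) Y, G t g)) + v t * (D * τ) := by ring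
        _ ≤ (Cd 0 / (400 * X)) * ((Cd 0 / (400 * X)) * (∫ g in Icc (-Y) Y, G t g)) + v t * (D * τ) := by
            gcongr
            · exact mul_nonneg hk (hJ0 t)
            · exact hvle t
        _ = _ := by ring
    refine h1.trans ?_
    rw [integral_add hJi (hvi.mul_const _).integrableOn, integral_const_mul, integral_mul_const]
    refine add_le_add le_rfl ?_
    have h2 : ∫ t in Icc (r₁ - Y) (r₁ + Y), v t ≤ 1 := by
      rw [← hv.wt.int_one]
      exact setIntegral_le_integral hvi (Filter.Eventually.of_forall hv0)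
    calc (∫ t in Icc (r₁ - Y) (r₁ + Y), v t) * (D * τ) ≤ 1 * (D * τ) :=
          mul_le_mul_of_nonneg_right h2 (mul_nonneg hD0 hτ0)
      _ = D * τ := one_mul _
  refine (add_le_add hnear hfar).trans (le_of_eq ?_)
  rw [hτ]
  ring

end Pool.Agent.Helper76.MM
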