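import Mathlib

/-!
# MM-A7: iterated integrals of continuous functions on rectangles
-/

open MeasureTheory Real Set Filter Topology

set_option autoImplicit false

namespace Pool.Agent.Helper76.MM

/-- a continuous extension from a rectangle -/
theorem ext2 {f : ℝ → ℝ → ℝ} {y₁ y₂ r₁ r₂ : ℝ} (h1 : y₁ ≤ y₂) (h2 : r₁ ≤ r₂)
    (hf : ContinuousOn (fun q : ℝ × ℝ => f q.1 q.2) (Icc y₁ y₂ ×ˢ Icc r₁ r₂)) :
    ∃ F : ℝ → ℝ → ℝ, Continuous (fun q : ℝ × ℝ => F q.1 q.2) ∧ (∀ y ∈ Icc y₁ y₂, ∀ r ∈ Icc r₁ r₂, F y r = f y r) ∧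
      ∀ y r, ∃ y' ∈ Icc y₁ y₂, ∃ r' ∈ Icc r₁ r₂, F y r = f y' r' := by
  refine ⟨fun y r => f (projIcc y₁ y₂ h1 y) (projIcc r₁ r₂ h2 r), ?_, ?_, ?_⟩
  · have hc : Continuous (fun q : ℝ × ℝ => (((projIcc y₁ y₂ h1 q.1 : ℝ), (projIcc r₁ r₂ h2 q.2 : ℝ)) : ℝ × ℝ)) :=
      ((continuous_subtype_val.comp (continuous_projIcc (h := h1))).comp continuous_fst).prodMk
        ((continuous_subtype_val.comp (continuous_projIcc (h := h2))).comp continuous_snd)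
    exact hf.comp_continuous hc fun q => ⟨(projIcc y₁ y₂ h1 q.1).2, (projIcc r₁ r₂ h2 q.2).2⟩
  · intro y hy r hr
    simp only
    rw [projIcc_of_mem h1 hy, projIcc_of_mem h2 hr]
  · intro y r
    exact ⟨_, (projIcc y₁ y₂ h1 y).2, _, (projIcc r₁ r₂ h2 r).2, rfl⟩

/-- the inner integral is continuous -/
theorem inner_cont {F : ℝ → ℝ → ℝ} (hF : Continuous (fun q : ℝ × ℝ => F q.1 q.2)) (r₁ r₂ : ℝ) :
    Continuous (fun y => ∫ r in Icc r₁ r₂, F y r) :=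
  continuous_parametric_integral_of_continuous (f := F) hF isCompact_Icc

theorem inner_contOn {f : ℝ → ℝ → ℝ} {y₁ y₂ r₁ r₂ : ℝ}
    (hf : ContinuousOn (fun q : ℝ × ℝ => f q.1 q.2) (Icc y₁ y₂ ×ˢ Icc r₁ r₂)) :
    ContinuousOn (fun y => ∫ r in Icc r₁ r₂, f y r) (Icc y₁ y₂) := by
  rcases lt_or_ge y₂ y₁ with h1 | h1
  · rw [Icc_eq_empty (not_le.2 h1)]
    exact continuousOn_empty _
  rcases lt_or_ge r₂ r₁ with h2 | h2
  · rw [Icc_eq_empty (not_le.2 h2)]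
    simp only [Measure.restrict_empty, integral_zero_measure]
    exact continuousOn_const
  obtain ⟨F, hF, hFe, -⟩ := ext2 h1 h2 hf
  refine (inner_cont hF r₁ r₂).continuousOn.congr fun y hy => ?_
  exact setIntegral_congr_fun measurableSet_Icc fun r hr => (hFe y hy r hr).symm

/-- monotonicity of the iterated integral -/
theorem iter_mono {f g : ℝ → ℝ → ℝ} {y₁ y₂ r₁ r₂ : ℝ}
    (hf : ContinuousOn (fun q : ℝ × ℝ => f q.1 q.2) (Icc y₁ y₂ ×ˢ Icc r₁ r₂))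
    (hg : ContinuousOn (fun q : ℝ × ℝ => g q.1 q.2) (Icc y₁ y₂ ×ˢ Icc r₁ r₂))
    (hfg : ∀ y ∈ Icc y₁ y₂, ∀ r ∈ Icc r₁ r₂, f y r ≤ g y r) :
    ∫ y in Icc y₁ y₂, ∫ r in Icc r₁ r₂, f y r ≤ ∫ y in Icc y₁ y₂, ∫ r in Icc r₁ r₂, g y r := by
  have hs : ∀ {h : ℝ → ℝ → ℝ}, ContinuousOn (fun q : ℝ × ℝ => h q.1 q.2) (Icc y₁ y₂ ×ˢ Icc r₁ r₂) → ∀ y ∈ Icc y₁ y₂,
      ContinuousOn (h y) (Icc r₁ r₂) := by
    intro h hh y hy
    exact hh.comp (f := fun r : ℝ => (y, r)) (by fun_prop) fun r hr => ⟨hy, hr⟩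
  refine setIntegral_mono_on ((inner_contOn hf).integrableOn_compact isCompact_Icc)
    ((inner_contOn hg).integrableOn_compact isCompact_Icc) measurableSet_Icc fun y hy => ?_
  exact setIntegral_mono_on ((hs hf y hy).integrableOn_compact isCompact_Icc)
    ((hs hg y hy).integrableOn_compact isCompact_Icc) measurableSet_Icc fun r hr => hfg y hy r hr

/-- a smaller rectangle -/
theorem rect_mono {f : ℝ → ℝ → ℝ} {y₁ y₂ r₁ r₂ y₁' y₂' r₁' r₂' : ℝ}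
    (hf : ContinuousOn (fun q : ℝ × ℝ => f q.1 q.2) (Icc y₁' y₂' ×ˢ Icc r₁' r₂'))
    (h0 : ∀ y ∈ Icc y₁' y₂', ∀ r ∈ Icc r₁' r₂', 0 ≤ f y r) (h1 : y₁' ≤ y₁) (h2 : y₂ ≤ y₂') (h3 : r₁' ≤ r₁) (h4 : r₂ ≤ r₂') :
    ∫ y in Icc y₁ y₂, ∫ r in Icc r₁ r₂, f y r ≤ ∫ y in Icc y₁' y₂', ∫ r in Icc r₁' r₂', f y r := by
  have hsub : Icc y₁ y₂ ⊆ Icc y₁' y₂' := Icc_subset_Icc h1 h2
  have hsub' : Icc r₁ r₂ ⊆ Icc r₁' r₂' := Icc_subset_Icc h3 h4
  have hs : ∀ y ∈ Icc y₁' y₂', ContinuousOn (f y) (Icc r₁' r₂') := by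
    intro y hy
    exact hf.comp (f := fun r : ℝ => (y, r)) (by fun_prop) fun r hr => ⟨hy, hr⟩
  have hi1 : IntegrableOn (fun y => ∫ r in Icc r₁ r₂, f y r) (Icc y₁ y₂) :=
    (inner_contOn (hf.mono (prod_mono hsub hsub'))).integrableOn_compact isCompact_Icc
  have hi2 : IntegrableOn (fun y => ∫ r in Icc r₁' r₂', f y r) (Icc y₁' y₂') :=
    (inner_contOn hf).integrableOn_compact isCompact_Icc
  have hA : ∫ y in Icc y₁ y₂, ∫ r in Icc r₁ r₂, f y r ≤ ∫ y in Icc y₁ y₂, ∫ r in Icc r₁' r₂', f y r := by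
    refine setIntegral_mono_on hi1 (hi2.mono_set hsub) measurableSet_Icc fun y hy => ?_
    refine setIntegral_mono_set ((hs y (hsub hy)).integrableOn_compact isCompact_Icc) ?_ hsub'.eventuallyLE
    rw [EventuallyLE, ae_restrict_iff' measurableSet_Icc]
    exact Eventually.of_forall fun r hr => h0 y (hsub hy) r hr
  refine hA.trans (setIntegral_mono_set hi2 ?_ hsub.eventuallyLE)
  rw [EventuallyLE, ae_restrict_iff' measurableSet_Icc]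
  exact Eventually.of_forall fun y hy => setIntegral_nonneg measurableSet_Icc fun r hr => h0 y hy r hr

theorem iter_nonneg {f : ℝ → ℝ → ℝ} {y₁ y₂ r₁ r₂ : ℝ} (h0 : ∀ y ∈ Icc y₁ y₂, ∀ r ∈ Icc r₁ r₂, 0 ≤ f y r) :
    0 ≤ ∫ y in Icc y₁ y₂, ∫ r in Icc r₁ r₂, f y r :=
  setIntegral_nonneg measurableSet_Icc fun y hy => setIntegral_nonneg measurableSet_Icc fun r hr => h0 y hy r hr

theorem icc_shift (f : ℝ → ℝ) (c β₁ β₂ : ℝ) : ∫ b in Icc β₁ β₂, f b = ∫ y in Icc (β₁ - c) (β₂ - c), f (c + y) := by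
  have h := (measurePreserving_add_left volume c).setIntegral_preimage_emb (measurableEmbedding_addLeft c) f (Icc β₁ β₂)
  rw [← h, preimage_const_add_Icc]

/-- exchange of the integrals -/
theorem iter_swap {F : ℝ → ℝ → ℝ} (hF : Continuous (fun q : ℝ × ℝ => F q.1 q.2)) (y₁ y₂ r₁ r₂ : ℝ) :
    ∫ y in Icc y₁ y₂, ∫ r in Icc r₁ r₂, F y r = ∫ r in Icc r₁ r₂, ∫ y in Icc y₁ y₂, F y r := by
  refine integral_integral_swap ?_
  rw [Function.uncurry_def, Measure.prod_restrict]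
  exact (hF.continuousOn (s := Icc y₁ y₂ ×ˢ Icc r₁ r₂)).integrableOn_compact (isCompact_Icc.prod isCompact_Icc)

end Pool.Agent.Helper76.MM
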