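import Pool.Agent.Helper76.MM.Defs

/-!
# MM-A2: expansion of the phase

With `u = uu β k`, `t = tt β k` (`k.2 = u t`), `s = t - z`, `q = 1 + y z`: `uu (β + y) k = u (1 + y t)`, `ph (β + y) k = u t² / (1 + y t)` and
`t²/(1 + y t) = z²/q + ((2 z + y z²)/q²) s + s²/q³ - y s³/q⁴ + y² s⁴/(q⁴ (1 + y t))` (`field_simp`, `ring`). The first two terms times `u` are linear in `k`: `dt k (lam β y z)`.
-/

open MeasureTheory Real Set Filter Topology

set_option autoImplicit false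

namespace Pool.Agent.Helper76.MM

open Pool.Agent.Helper22.AE
open Pool.Agent.Helper92.GC
open Pool.Agent.Helper92.DT (m12)
open Pool.Agent.Helper78.CE (p2 p3 hs mu2 InReg)
open Pool.Agent.Helper22.AC (IsWt)

/-- the linear part -/
noncomputable def lam (β y z : ℝ) : ℝ × ℝ :=
  (z ^ 2 / (1 + y * z) - (2 * z + y * z ^ 2) / (1 + y * z) ^ 2 * z,
    β * (z ^ 2 / (1 + y * z)) + (2 * z + y * z ^ 2) / (1 + y * z) ^ 2 * (1 - β * z))

/-- the remainder, a function of the slope -/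
noncomputable def rem (y z t : ℝ) : ℝ := y ^ 2 * (t - z) ^ 4 / ((1 + y * z) ^ 4 * (1 + y * t))

private theorem key_id {y z t : ℝ} (h1 : 0 < 1 + y * z) (h2 : 0 < 1 + y * t) :
    t ^ 2 / (1 + y * t) = z ^ 2 / (1 + y * z) + (2 * z + y * z ^ 2) / (1 + y * z) ^ 2 * (t - z) +
      (1 / (1 + y * z) ^ 3 * (t - z) ^ 2 + -y / (1 + y * z) ^ 4 * (t - z) ^ 3) + rem y z t := by
  unfold rem
  have h1' : (1 + y * z) ≠ 0 := h1.ne'
  have h2' : (1 + y * t) ≠ 0 := h2.ne'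
  have h3' : (1 + t * y) ≠ 0 := by rwa [mul_comm] at h2'
  have h4' : (1 + z * y) ≠ 0 := by rwa [mul_comm] at h1'
  field_simp
  ring

theorem ph_expand {β y z : ℝ} {k : ℤ × ℤ} (hu : 0 < uu β k) (h1 : 0 < 1 + y * z) (h2 : 0 < 1 + y * tt β k) :
    ph (β + y) k = dt k (lam β y z) + (1 / (1 + y * z) ^ 3 * p2 β z k + -y / (1 + y * z) ^ 4 * p3 β z k) + uu β k * rem y z (tt β k) := by
  have hk : (k.2 : ℝ) = uu β k * tt β k := by
    unfold tt
    field_simp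
  have hk1 : (k.1 : ℝ) = uu β k - β * (uu β k * tt β k) := by
    rw [← hk]
    unfold uu
    ring
  have hu2 : uu (β + y) k = uu β k * (1 + y * tt β k) := by
    have : uu (β + y) k = uu β k + y * (k.2 : ℝ) := by
      unfold uu
      ring
    rw [this, hk]
    ring
  have hph : ph (β + y) k = uu β k * (tt β k ^ 2 / (1 + y * tt β k)) := by
    unfold ph
    rw [hu2, hk]
    field_simp
  have hdt : dt k (lam β y z) = uu β k * (z ^ 2 / (1 + y * z) + (2 * z + y * z ^ 2) / (1 + y * z) ^ 2 * (tt β k - z)) := by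
    unfold dt lam
    rw [hk1, hk]
    ring
  rw [hph, key_id h1 h2, hdt]
  unfold p2 p3
  ring

/-- size and Lipschitz bound of the remainder -/
theorem rem_bd {y z t σ : ℝ} (hy : |y| ≤ 1 / 50) (hz : |z| ≤ 7) (hσ0 : 0 ≤ σ) (hσ : σ ≤ 12) (ht : |t - z| ≤ σ) :
    |rem y z t| ≤ 3 * y ^ 2 * σ ^ 4 := by
  have hyz : |y * z| ≤ 7 / 50 := by
    rw [abs_mul]
    nlinarith [abs_nonneg y, abs_nonneg z]
  have htt : |t| ≤ 19 := by
    have h := abs_add_le (t - z) z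
    rw [sub_add_cancel] at h
    linarith
  have hyt : |y * t| ≤ 19 / 50 := by
    rw [abs_mul]
    nlinarith [abs_nonneg y, abs_nonneg t]
  have h1 : 43 / 50 ≤ 1 + y * z := by linarith [(abs_le.1 hyz).1]
  have h2 : 31 / 50 ≤ 1 + y * t := by linarith [(abs_le.1 hyt).1]
  have h3 : (1 / 3 : ℝ) ≤ (1 + y * z) ^ 4 * (1 + y * t) := by
    have h4 : (43 / 50 : ℝ) ^ 4 ≤ (1 + y * z) ^ 4 := pow_le_pow_left₀ (by norm_num) h1 4
    have h5 : (43 / 50 : ℝ) ^ 4 * (31 / 50) ≤ (1 + y * z) ^ 4 * (1 + y * t) :=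
      mul_le_mul h4 h2 (by norm_num) (by positivity)
    refine le_trans ?_ h5
    norm_num
  have h6 : (t - z) ^ 4 ≤ σ ^ 4 := by
    have : |t - z| ^ 4 ≤ σ ^ 4 := pow_le_pow_left₀ (abs_nonneg _) ht 4
    have e : |t - z| ^ 4 = (t - z) ^ 4 := by
      rw [← abs_pow, abs_of_nonneg (by positivity)]
    rwa [e] at this
  have h7 : 0 ≤ rem y z t := by
    unfold rem
    have : 0 < (1 + y * z) ^ 4 * (1 + y * t) := by linarith
    positivity
  rw [abs_of_nonneg h7]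
  unfold rem
  rw [div_le_iff₀ (by linarith)]
  have h8 : 0 ≤ y ^ 2 * σ ^ 4 := by positivity
  have h9 : y ^ 2 * (t - z) ^ 4 ≤ y ^ 2 * σ ^ 4 := mul_le_mul_of_nonneg_left h6 (by positivity)
  nlinarith

/-- algebra for the Lipschitz bound -/
private theorem lip_alg {y z t t' σ : ℝ} (hy : |y| ≤ 1 / 50) (hσ0 : 0 ≤ σ) (hσ : σ ≤ 12) (ht : |t - z| ≤ σ) (ht' : |t' - z| ≤ σ)
    (hp : 31 / 50 ≤ 1 + y * t) (hp' : 31 / 50 ≤ 1 + y * t') :
    |(t - z) ^ 4 / (1 + y * t) - (t' - z) ^ 4 / (1 + y * t')| ≤ 10 * σ ^ 3 * |t - t'| := by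
  have e : (t - z) ^ 4 / (1 + y * t) - (t' - z) ^ 4 / (1 + y * t') =
      ((t - t') * (((t - z) + (t' - z)) * ((t - z) ^ 2 + (t' - z) ^ 2))) / (1 + y * t) -
        (t' - z) ^ 4 * y * (t - t') / ((1 + y * t) * (1 + y * t')) := by
    have h1 : (1 + y * t) ≠ 0 := by linarith
    have h2 : (1 + y * t') ≠ 0 := by linarith
    have h3 : (1 + t * y) ≠ 0 := by rwa [mul_comm] at h1
    have h4 : (1 + t' * y) ≠ 0 := by rwa [mul_comm] at h2
    field_simp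
    ring
  obtain ⟨p, hpd⟩ : ∃ p, p = t - z := ⟨_, rfl⟩
  obtain ⟨q, hqd⟩ : ∃ q, q = t' - z := ⟨_, rfl⟩
  rw [← hpd, ← hqd] at e
  rw [← hpd] at ht
  rw [← hqd] at ht'
  rw [← hpd, ← hqd, e]
  have hp2 : p ^ 2 ≤ σ ^ 2 := by
    have := pow_le_pow_left₀ (abs_nonneg _) ht 2
    rwa [sq_abs] at this
  have hq2 : q ^ 2 ≤ σ ^ 2 := by
    have := pow_le_pow_left₀ (abs_nonneg _) ht' 2
    rwa [sq_abs] at this
  have hpq : |p + q| ≤ 2 * σ := (abs_add_le _ _).trans (by linarith)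
  have hA : |((t - t') * ((p + q) * (p ^ 2 + q ^ 2))) / (1 + y * t)| ≤ (50 / 31) * (4 * σ ^ 3) * |t - t'| := by
    rw [abs_div, abs_mul, abs_mul, abs_of_nonneg (by positivity : 0 ≤ p ^ 2 + q ^ 2), abs_of_pos (by linarith : 0 < 1 + y * t),
      div_le_iff₀ (by linarith)]
    have h1 : |p + q| * (p ^ 2 + q ^ 2) ≤ 2 * σ * (2 * σ ^ 2) :=
      mul_le_mul hpq (by linarith) (by positivity) (by positivity)
    have h2 : |t - t'| * (|p + q| * (p ^ 2 + q ^ 2)) ≤ |t - t'| * (4 * σ ^ 3) := by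
      refine mul_le_mul_of_nonneg_left (h1.trans (le_of_eq (by ring))) (abs_nonneg _)
    have h3 : 0 ≤ |t - t'| * (4 * σ ^ 3) := by positivity
    nlinarith
  have hB : |q ^ 4 * y * (t - t') / ((1 + y * t) * (1 + y * t'))| ≤ (50 / 31) ^ 2 * (12 / 50 * σ ^ 3) * |t - t'| := by
    have hpp : (31 / 50 : ℝ) ^ 2 ≤ (1 + y * t) * (1 + y * t') := by nlinarith
    rw [abs_div, abs_mul, abs_mul, abs_of_nonneg (by positivity : 0 ≤ q ^ 4), abs_of_pos (by nlinarith : 0 < (1 + y * t) * (1 + y * t')),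
      div_le_iff₀ (by nlinarith)]
    have h1 : q ^ 4 ≤ σ ^ 3 * 12 := by
      have h2 : q ^ 4 = q ^ 2 * q ^ 2 := by ring
      have h3 : q ^ 2 * q ^ 2 ≤ σ ^ 2 * σ ^ 2 := mul_le_mul hq2 hq2 (by positivity) (by positivity)
      have h4 : σ ^ 2 * σ ^ 2 ≤ σ ^ 3 * 12 := by
        have : σ ^ 2 * σ ^ 2 = σ ^ 3 * σ := by ring
        rw [this]
        exact mul_le_mul_of_nonneg_left hσ (by positivity)
      linarith
    have h2 : q ^ 4 * |y| ≤ σ ^ 3 * 12 * (1 / 50) := mul_le_mul h1 hy (abs_nonneg _) (by positivity)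
    have h3 : q ^ 4 * |y| * |t - t'| ≤ σ ^ 3 * 12 * (1 / 50) * |t - t'| := mul_le_mul_of_nonneg_right h2 (abs_nonneg _)
    have h4 : 0 ≤ σ ^ 3 * |t - t'| := by positivity
    nlinarith
  refine (abs_sub _ _).trans ?_
  have h5 : 0 ≤ σ ^ 3 * |t - t'| := by positivity
  nlinarith

theorem rem_lip {y z t t' σ : ℝ} (hy : |y| ≤ 1 / 50) (hz : |z| ≤ 7) (hσ0 : 0 ≤ σ) (hσ : σ ≤ 12) (ht : |t - z| ≤ σ) (ht' : |t' - z| ≤ σ) :
    |rem y z t - rem y z t'| * (2 * σ) ≤ 40 * y ^ 2 * σ ^ 4 * |t - t'| := by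
  have hyz : |y * z| ≤ 7 / 50 := by
    rw [abs_mul]
    nlinarith [abs_nonneg y, abs_nonneg z]
  have hb : ∀ x : ℝ, |x - z| ≤ σ → 31 / 50 ≤ 1 + y * x := by
    intro x hx
    have htt : |x| ≤ 19 := by
      have h := abs_add_le (x - z) z
      rw [sub_add_cancel] at h
      linarith
    have hyt : |y * x| ≤ 19 / 50 := by
      rw [abs_mul]
      nlinarith [abs_nonneg y, abs_nonneg x]
    linarith [(abs_le.1 hyt).1]
  have h1 : 43 / 50 ≤ 1 + y * z := by linarith [(abs_le.1 hyz).1]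
  have h4 : (43 / 50 : ℝ) ^ 4 ≤ (1 + y * z) ^ 4 := pow_le_pow_left₀ (by norm_num) h1 4
  have hd : rem y z t - rem y z t' = y ^ 2 / (1 + y * z) ^ 4 * ((t - z) ^ 4 / (1 + y * t) - (t' - z) ^ 4 / (1 + y * t')) := by
    unfold rem
    have h2 : (1 + y * t) ≠ 0 := by linarith [hb t ht]
    have h3 : (1 + y * t') ≠ 0 := by linarith [hb t' ht']
    have h5 : (1 + y * z) ≠ 0 := by linarith
    field_simp
  have h6 := lip_alg (z := z) hy hσ0 hσ ht ht' (hb t ht) (hb t' ht')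
  rw [hd, abs_mul, abs_of_nonneg (by positivity : 0 ≤ y ^ 2 / (1 + y * z) ^ 4)]
  have h7 : y ^ 2 / (1 + y * z) ^ 4 ≤ 2 * y ^ 2 := by
    rw [div_le_iff₀ (by positivity)]
    have h8 : (1 / 2 : ℝ) ≤ (1 + y * z) ^ 4 := le_trans (by norm_num) h4
    nlinarith [sq_nonneg y]
  have h9 : y ^ 2 / (1 + y * z) ^ 4 * |(t - z) ^ 4 / (1 + y * t) - (t' - z) ^ 4 / (1 + y * t')| ≤ 2 * y ^ 2 * (10 * σ ^ 3 * |t - t'|) :=
    mul_le_mul h7 h6 (abs_nonneg _) (by positivity)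
  calc y ^ 2 / (1 + y * z) ^ 4 * |(t - z) ^ 4 / (1 + y * t) - (t' - z) ^ 4 / (1 + y * t')| * (2 * σ)
      ≤ 2 * y ^ 2 * (10 * σ ^ 3 * |t - t'|) * (2 * σ) := mul_le_mul_of_nonneg_right h9 (by positivity)
    _ = 40 * y ^ 2 * σ ^ 4 * |t - t'| := by ring

end Pool.Agent.Helper76.MM
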