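import Pool.Agent.Helper76.MM.A2
import Pool.Agent.Helper92.DT.R4

/-!
# MM-A3: the true family is locally the linear family

PROOF. `ph_expand`: `r ph (β + y) k = dt k (r lam) + (t p2 + g p3) + uu β k · (r rem y z (tt β k))`, `t = r/(1+yz)³`, `g = -(r y)/(1+yz)⁴`. `m12_shift` removes the linear form, `mul12_exp` (Helper92.DT.R4) the remainder, with
`U = 20 H`, `χ t = ± r rem y z t`, `t₁ = z - σ`, `t₂ = z + σ`, `B = 800` (`rem_bd`, `rem_lip`, `r y² H σ⁴ ≤ 1`).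
-/

open MeasureTheory Real Set Filter Topology

set_option autoImplicit false

namespace Pool.Agent.Helper76.MM

open Pool.Agent.Helper22.AE
open Pool.Agent.Helper92.GC
open Pool.Agent.Helper92.DT (m12)
open Pool.Agent.Helper78.CE (p2 p3 hs mu2 InReg)
open Pool.Agent.Helper22.AC (IsWt)

private lemma ee_add_a3 (x y : ℝ) : ee (x + y) = ee x * ee y := by
  unfold ee
  rw [← Complex.exp_add]
  congr 1
  push_cast
  ring

theorem loc : ∃ C : ℝ, 1 ≤ C ∧ ∀ (S : Finset (ℤ × ℤ)) (a : ℤ × ℤ → ℂ) (β y z r H σ : ℝ), 0 < H → 0 ≤ σ → σ ≤ 12 → |z| ≤ 7 → |y| ≤ 1 / 50 → 0 ≤ r →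
    r * y ^ 2 * H * σ ^ 4 ≤ 1 → (∀ k ∈ S, 0 < uu β k ∧ uu β k ≤ 20 * H ∧ |tt β k - z| ≤ σ) →
      tf S a r (β + y) ≤ C * lf S a β z (r / (1 + y * z) ^ 3) (-(r * y) / (1 + y * z) ^ 4) ∧
      lf S a β z (r / (1 + y * z) ^ 3) (-(r * y) / (1 + y * z) ^ 4) ≤ C * tf S a r (β + y) := by
  refine ⟨exp (3800 * 800) ^ 12, one_le_pow₀ (one_le_exp (by norm_num)), ?_⟩
  intro S a β y z r H σ hH hσ0 hσ hz hy hr hsmall hS
  have hU : 0 < 20 * H := by linarith
  have hyz : |y * z| ≤ 7 / 50 := by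
    rw [abs_mul]
    nlinarith [abs_nonneg y, abs_nonneg z]
  have hq : 0 < 1 + y * z := by linarith [(abs_le.1 hyz).1]
  have hyt : ∀ t : ℝ, |t - z| ≤ σ → 0 < 1 + y * t := by
    intro t ht
    have htt : |t| ≤ 19 := by
      have h := abs_add_le (t - z) z
      rw [sub_add_cancel] at h
      linarith
    have hyt : |y * t| ≤ 19 / 50 := by
      rw [abs_mul]
      nlinarith [abs_nonneg y, abs_nonneg t]
    linarith [(abs_le.1 hyt).1]
  have hmem : ∀ t ∈ Icc (z - σ) (z + σ), |t - z| ≤ σ := by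
    intro t ht
    rw [abs_le]
    constructor <;> linarith [ht.1, ht.2]
  have hS' : ∀ k ∈ S, 0 < uu β k ∧ uu β k ≤ 20 * H ∧ z - σ ≤ tt β k ∧ tt β k ≤ z + σ := by
    intro k hk
    obtain ⟨h1, h2, h3⟩ := hS k hk
    have h4 := abs_le.1 h3
    exact ⟨h1, h2, by linarith, by linarith⟩
  -- the multipliers
  have hbd : ∀ s : ℝ, |s| ≤ 1 → ∀ t ∈ Icc (z - σ) (z + σ), |s * (r * rem y z t)| ≤ 800 / (20 * H) := by
    intro s hs t ht
    have h1 := rem_bd hy hz hσ0 hσ (hmem t ht)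
    rw [abs_mul, abs_mul, abs_of_nonneg hr, le_div_iff₀ hU]
    have h2 : r * |rem y z t| ≤ r * (3 * y ^ 2 * σ ^ 4) := mul_le_mul_of_nonneg_left h1 hr
    have h3 : r * |rem y z t| * (20 * H) ≤ r * (3 * y ^ 2 * σ ^ 4) * (20 * H) := mul_le_mul_of_nonneg_right h2 hU.le
    have h4 : r * (3 * y ^ 2 * σ ^ 4) * (20 * H) = 60 * (r * y ^ 2 * H * σ ^ 4) := by ring
    have h5 : 0 ≤ r * |rem y z t| * (20 * H) := by positivity
    calc |s| * (r * |rem y z t|) * (20 * H) = |s| * (r * |rem y z t| * (20 * H)) := by ring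
      _ ≤ 1 * (r * |rem y z t| * (20 * H)) := mul_le_mul_of_nonneg_right hs h5
      _ ≤ 800 := by linarith
  have hlp : ∀ s : ℝ, |s| ≤ 1 → ∀ x ∈ Icc (z - σ) (z + σ), ∀ x' ∈ Icc (z - σ) (z + σ),
      |s * (r * rem y z x) - s * (r * rem y z x')| * (z + σ - (z - σ)) ≤ 800 / (20 * H) * |x - x'| := by
    intro s hs x hx x' hx'
    have h1 := rem_lip hy hz hσ0 hσ (hmem x hx) (hmem x' hx')
    have e1 : s * (r * rem y z x) - s * (r * rem y z x') = s * (r * (rem y z x - rem y z x')) := by ring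
    have e2 : z + σ - (z - σ) = 2 * σ := by ring
    rw [e1, e2, abs_mul, abs_mul, abs_of_nonneg hr, div_mul_eq_mul_div, le_div_iff₀ hU]
    have h2 : r * (|rem y z x - rem y z x'| * (2 * σ)) ≤ r * (40 * y ^ 2 * σ ^ 4 * |x - x'|) := mul_le_mul_of_nonneg_left h1 hr
    have h3 : r * (|rem y z x - rem y z x'| * (2 * σ)) * (20 * H) ≤ r * (40 * y ^ 2 * σ ^ 4 * |x - x'|) * (20 * H) :=
      mul_le_mul_of_nonneg_right h2 hU.le
    have h4 : r * (40 * y ^ 2 * σ ^ 4 * |x - x'|) * (20 * H) = 800 * |x - x'| * (r * y ^ 2 * H * σ ^ 4) := by ring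
    have h5 : 800 * |x - x'| * (r * y ^ 2 * H * σ ^ 4) ≤ 800 * |x - x'| * 1 := mul_le_mul_of_nonneg_left hsmall (by positivity)
    have h6 : 0 ≤ r * (|rem y z x - rem y z x'| * (2 * σ)) * (20 * H) := by positivity
    calc |s| * (r * |rem y z x - rem y z x'|) * (2 * σ) * (20 * H) = |s| * (r * (|rem y z x - rem y z x'| * (2 * σ)) * (20 * H)) := by ring
      _ ≤ 1 * (r * (|rem y z x - rem y z x'| * (2 * σ)) * (20 * H)) := mul_le_mul_of_nonneg_right hs h6
      _ ≤ 800 * |x - x'| := by linarith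
  have hm1 := Pool.Agent.Helper92.DT.mul12_exp (S := S) (β := β) hU (by linarith : z - σ ≤ z + σ) hS'
    (χ := fun t => 1 * (r * rem y z t)) (B := 800) (hbd 1 (by norm_num)) (hlp 1 (by norm_num))
  have hm2 := Pool.Agent.Helper92.DT.mul12_exp (S := S) (β := β) hU (by linarith : z - σ ≤ z + σ) hS'
    (χ := fun t => -1 * (r * rem y z t)) (B := 800) (hbd (-1) (by norm_num)) (hlp (-1) (by norm_num))
  -- the phases
  obtain ⟨t, ht⟩ : ∃ t, t = r / (1 + y * z) ^ 3 := ⟨_, rfl⟩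
  obtain ⟨g, hg⟩ : ∃ g, g = -(r * y) / (1 + y * z) ^ 4 := ⟨_, rfl⟩
  rw [← ht, ← hg]
  obtain ⟨c, hc⟩ : ∃ c : ℝ × ℝ, c = (r * (lam β y z).1, r * (lam β y z).2) := ⟨_, rfl⟩
  have hph : ∀ k ∈ S, r * ph (β + y) k = dt k c + (t * p2 β z k + g * p3 β z k) + uu β k * (1 * (r * rem y z (tt β k))) := by
    intro k hk
    obtain ⟨h1, -, h3⟩ := hS k hk
    rw [ph_expand h1 hq (hyt _ h3), hc, ht, hg]
    unfold dt
    simp only
    field_simp
  have hph2 : ∀ k ∈ S, t * p2 β z k + g * p3 β z k = dt k (-c) + r * ph (β + y) k + uu β k * (-1 * (r * rem y z (tt β k))) := by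
    intro k hk
    rw [hph k hk]
    have : dt k (-c) = -dt k c := by
      unfold dt
      rw [Prod.fst_neg, Prod.snd_neg]
      ring
    rw [this]
    ring
  constructor
  · have e1 : tf S a r (β + y) = m12 S (fun k => ee (uu β k * (1 * (r * rem y z (tt β k)))) * (a k * ee (t * p2 β z k + g * p3 β z k))) := by
      rw [← Pool.Agent.Helper92.DT.m12_shift S _ c]
      unfold tf
      refine Pool.Agent.Helper92.DT.m12_congr fun k hk => ?_
      rw [hph k hk, ee_add_a3, ee_add_a3]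
      ring
    rw [e1]
    exact hm1.2 _
  · have e1 : lf S a β z t g = m12 S (fun k => ee (uu β k * (-1 * (r * rem y z (tt β k)))) * (a k * ee (r * ph (β + y) k))) := by
      rw [← Pool.Agent.Helper92.DT.m12_shift S _ (-c)]
      unfold lf
      refine Pool.Agent.Helper92.DT.m12_congr fun k hk => ?_
      rw [hph2 k hk, ee_add_a3, ee_add_a3]
      ring
    rw [e1]
    exact hm2.2 _

end Pool.Agent.Helper76.MM
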