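import Mathlib

/-!
# MM-A4: the change of variables (r, y) -> (t, g) = (r / z³, -r y / z⁴), z = 1 + y z₀

PROOF of `fwd`. `|y z₀| ≤ 7 X/T ≤ 7/1000`. Inner integral, fixed `y`, `q = 1 + y z₀`: substitution `r = q³ t`: `= q³ ∫_{r₁/q³}^{(r₁+X)/q³} G t (-(t y)/q) dt ≤ 2 ∫_{|t - r₁| ≤ 200 X}`
(`|r/q³ - r| ≤ 5T · 25 X/T`...: `|q⁻³ - 1| ≤ 4 · 7 X/T`, `r ≤ 5T`, so `≤ 140 X + X`). Exchange the two integrals (continuous function on a rectangle: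
`MeasureTheory.integral_integral_swap`, or `intervalIntegral_integral_swap`). Fixed `t` (`t ≥ r₁ - 200X ≥ T/4`): `φ y = -(t y)/(1 + y z₀)` has `φ' = -t/(1 + y z₀)²`, `|φ'| ≥ T/5`, `φ` maps `[0, X/T]` into `[-200X, 0]`
(`t ≤ 5T`): `∫_0^{X/T} G t (φ y) dy ≤ (5/T) ∫ G t (φ y) |φ' y| dy = (5/T) ∫_{φ(X/T)}^{0} G t g dg` (`intervalIntegral.integral_comp_mul_deriv`).
PROOF of `bwd`. The same backwards. Fixed `t ∈ [r₁ - Y, r₁ + Y]` (`T/4 ≤ t ≤ 5T`), `Y' = 5Y/T ≤ 1/200`: `φ` is decreasing on `[-Y', Y']`, `φ(Y') ≤ -Y`, `φ(-Y') ≥ Y` (`t Y'/(1 + |y z₀|) ≥ (T/4)(5Y/T)/(1.04)`),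
so `∫_{-Y}^{Y} G t g dg ≤ ∫_{φ(Y')}^{φ(-Y')} G t g dg = ∫_{-Y'}^{Y'} G t (φ y) |φ' y| dy ≤ 6 T ∫_{-Y'}^{Y'} G t (φ y) dy`. Exchange; fixed `y`: `t = r/q³`, `∫_{|t - r₁| ≤ Y} G t (-(t y)/q) dt = q⁻³ ∫_{q³ [r₁ - Y, r₁ + Y]} G (r/q³) (-(r y)/q⁴) dr`,
`q³ [r₁ - Y, r₁ + Y] ⊆ [r₁ - 500 Y, r₁ + 500 Y]` (`|q³ - 1| ≤ 4 · 7 · 5Y/T = 140 Y/T`... times `r₁ ≤ 4T` — use the sharper `|q³ - 1| ≤ 3.1 · 35 Y/T ≤ 110 Y/T`, `110 · 4 + 2 ≤ 500`).
-/

open MeasureTheory Real Set Filter Topology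

set_option autoImplicit false

namespace Pool.Agent.Helper76.MM

/-- the inverse cube of `1 + y z₀` -/
private theorem du57 {z₀ y : ℝ} (hq : 1 + y * z₀ ≠ 0) :
    HasDerivAt (fun y : ℝ => ((1 + y * z₀) ^ 3)⁻¹) (-(3 * z₀) / (1 + y * z₀) ^ 4) y := by
  have h1 : HasDerivAt (fun y : ℝ => 1 + y * z₀) z₀ y := by
    simpa using ((hasDerivAt_id y).mul_const z₀).const_add 1
  have h2 := (h1.fun_pow 3).fun_inv (pow_ne_zero 3 hq)
  refine h2.congr_deriv ?_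
  field_simp
  push_cast
  ring

private theorem dv57 {z₀ y : ℝ} (hq : 1 + y * z₀ ≠ 0) :
    HasDerivAt (fun y : ℝ => -y * ((1 + y * z₀) ^ 4)⁻¹) (-(1 - 3 * (y * z₀)) / (1 + y * z₀) ^ 5) y := by
  have h1 : HasDerivAt (fun y : ℝ => 1 + y * z₀) z₀ y := by
    simpa using ((hasDerivAt_id y).mul_const z₀).const_add 1
  have h2 := (h1.fun_pow 4).fun_inv (pow_ne_zero 4 hq)
  have h3 := (hasDerivAt_id y).neg.mul h2
  refine h3.congr_deriv ?_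
  simp only [id, Pi.neg_apply]
  field_simp
  push_cast
  ring

/-- the change of variables, `p = (y, r)` -/
private noncomputable def Ph57 (z₀ : ℝ) (p : ℝ × ℝ) : ℝ × ℝ :=
  (p.2 / (1 + p.1 * z₀) ^ 3, -(p.2 * p.1) / (1 + p.1 * z₀) ^ 4)

private noncomputable def Pd57 (z₀ : ℝ) (p : ℝ × ℝ) : ℝ × ℝ →L[ℝ] ℝ × ℝ :=
  LinearMap.toContinuousLinearMap (Matrix.toLin (Module.Basis.finTwoProd ℝ) (Module.Basis.finTwoProd ℝ)
    !![p.2 * (-(3 * z₀) / (1 + p.1 * z₀) ^ 4), ((1 + p.1 * z₀) ^ 3)⁻¹;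
      p.2 * (-(1 - 3 * (p.1 * z₀)) / (1 + p.1 * z₀) ^ 5), -p.1 * ((1 + p.1 * z₀) ^ 4)⁻¹])

private theorem hasFD57 {z₀ : ℝ} {p : ℝ × ℝ} (hq : 1 + p.1 * z₀ ≠ 0) :
    HasFDerivAt (Ph57 z₀) (Pd57 z₀ p) p := by
  have e : Ph57 z₀ = fun p : ℝ × ℝ => (p.2 * ((1 + p.1 * z₀) ^ 3)⁻¹, p.2 * (-p.1 * ((1 + p.1 * z₀) ^ 4)⁻¹)) := by
    funext p
    unfold Ph57
    rw [div_eq_mul_inv, div_eq_mul_inv]
    congr 1
    ring
  rw [e]
  unfold Pd57
  rw [Matrix.toLin_finTwoProd_toContinuousLinearMap]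
  have h1 := (hasFDerivAt_snd (𝕜 := ℝ) (E := ℝ) (F := ℝ) (p := p)).mul
    ((du57 hq).comp_hasFDerivAt p (hasFDerivAt_fst (𝕜 := ℝ) (E := ℝ) (F := ℝ) (p := p)))
  have h2 := (hasFDerivAt_snd (𝕜 := ℝ) (E := ℝ) (F := ℝ) (p := p)).mul
    ((dv57 hq).comp_hasFDerivAt p (hasFDerivAt_fst (𝕜 := ℝ) (E := ℝ) (F := ℝ) (p := p)))
  have h3 := HasFDerivAt.prodMk (𝕜 := ℝ) h1 h2
  refine HasFDerivAt.congr_fderiv h3 ?_
  ext <;> simp

private theorem det57 {z₀ : ℝ} {p : ℝ × ℝ} (_hq : 1 + p.1 * z₀ ≠ 0) :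
    (Pd57 z₀ p).det = p.2 / (1 + p.1 * z₀) ^ 8 := by
  unfold Pd57
  rw [LinearMap.det_toContinuousLinearMap, LinearMap.det_toLin, Matrix.det_fin_two_of]
  field_simp
  ring

private theorem inj57 {z₀ : ℝ} {S : Set (ℝ × ℝ)} (hS : ∀ p ∈ S, 0 < 1 + p.1 * z₀ ∧ 0 < p.2) :
    Set.InjOn (Ph57 z₀) S := by
  have key : ∀ p ∈ S, 0 < (Ph57 z₀ p).1 + (Ph57 z₀ p).2 * z₀ ∧
      p.1 * ((Ph57 z₀ p).1 + (Ph57 z₀ p).2 * z₀) = -(Ph57 z₀ p).2 ∧ p.2 = (Ph57 z₀ p).1 * (1 + p.1 * z₀) ^ 3 := by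
    intro p hp
    obtain ⟨h1, h2⟩ := hS p hp
    have e : (Ph57 z₀ p).1 + (Ph57 z₀ p).2 * z₀ = p.2 / (1 + p.1 * z₀) ^ 4 := by
      unfold Ph57
      field_simp
      ring
    refine ⟨by rw [e]; positivity, ?_, ?_⟩
    · rw [e]
      unfold Ph57
      field_simp
    · unfold Ph57
      field_simp
  intro p hp p' hp' h
  obtain ⟨a1, a2, a3⟩ := key p hp
  obtain ⟨b1, b2, b3⟩ := key p' hp'
  rw [h] at a1 a2 a3
  have e1 : p.1 = p'.1 := by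
    have : p.1 * ((Ph57 z₀ p').1 + (Ph57 z₀ p').2 * z₀) = p'.1 * ((Ph57 z₀ p').1 + (Ph57 z₀ p').2 * z₀) := by
      rw [a2, b2]
    exact mul_right_cancel₀ a1.ne' this
  have e2 : p.2 = p'.2 := by rw [a3, b3, e1]
  exact Prod.ext e1 e2

private theorem chg57 {G : ℝ → ℝ → ℝ} {z₀ : ℝ} {S : Set (ℝ × ℝ)} (hSm : MeasurableSet S)
    (hS : ∀ p ∈ S, 0 < 1 + p.1 * z₀ ∧ 0 < p.2) :
    ∫ q in Ph57 z₀ '' S, G q.1 q.2 =
      ∫ p in S, (p.2 / (1 + p.1 * z₀) ^ 8) * G (p.2 / (1 + p.1 * z₀) ^ 3) (-(p.2 * p.1) / (1 + p.1 * z₀) ^ 4) := by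
  rw [MeasureTheory.integral_image_eq_integral_abs_det_fderiv_smul volume hSm
    (fun p hp => (hasFD57 (hS p hp).1.ne').hasFDerivWithinAt) (inj57 hS)]
  refine setIntegral_congr_fun hSm fun p hp => ?_
  obtain ⟨h1, h2⟩ := hS p hp
  simp only [det57 h1.ne', smul_eq_mul]
  rw [abs_of_pos (by positivity)]
  rfl

/-- continuity of the transformed function on a rectangle -/
private theorem cont57 {G : ℝ → ℝ → ℝ} (hG : Continuous (fun q : ℝ × ℝ => G q.1 q.2)) {z₀ : ℝ} {S : Set (ℝ × ℝ)}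
    (hS : ∀ p ∈ S, 0 < 1 + p.1 * z₀) :
    ContinuousOn (fun p : ℝ × ℝ => G (p.2 / (1 + p.1 * z₀) ^ 3) (-(p.2 * p.1) / (1 + p.1 * z₀) ^ 4)) S := by
  have h : ContinuousOn (fun p : ℝ × ℝ => ((p.2 / (1 + p.1 * z₀) ^ 3, -(p.2 * p.1) / (1 + p.1 * z₀) ^ 4) : ℝ × ℝ)) S := ?_
  · exact hG.comp_continuousOn h
  refine ContinuousOn.prodMk ?_ ?_
  · refine ContinuousOn.div (by fun_prop) (by fun_prop) fun p hp => ?_
    exact pow_ne_zero 3 (hS p hp).ne'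
  · refine ContinuousOn.div (by fun_prop) (by fun_prop) fun p hp => ?_
    exact pow_ne_zero 4 (hS p hp).ne'

theorem fwd : ∃ C : ℝ, 1 ≤ C ∧ ∀ (G : ℝ → ℝ → ℝ) (z₀ T X r₁ : ℝ), Continuous (fun q : ℝ × ℝ => G q.1 q.2) → (∀ t g, 0 ≤ G t g) →
    |z₀| ≤ 7 → 0 < X → 1000 * X ≤ T → T / 2 ≤ r₁ → r₁ ≤ 4 * T →
      ∫ y in Icc 0 (X / T), ∫ r in Icc r₁ (r₁ + X), G (r / (1 + y * z₀) ^ 3) (-(r * y) / (1 + y * z₀) ^ 4) ≤
        C / T * ∫ t in Icc (r₁ - 200 * X) (r₁ + 200 * X), ∫ g in Icc (-(200 * X)) (200 * X), G t g := by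
  refine ⟨4, by norm_num, fun G z₀ T X r₁ hG hG0 hz hX hXT h1 h2 => ?_⟩
  have hT : 0 < T := by linarith
  obtain ⟨S, hSd⟩ : ∃ S : Set (ℝ × ℝ), S = Icc 0 (X / T) ×ˢ Icc r₁ (r₁ + X) := ⟨_, rfl⟩
  obtain ⟨B, hBd⟩ : ∃ B : Set (ℝ × ℝ), B = Icc (r₁ - 200 * X) (r₁ + 200 * X) ×ˢ Icc (-(200 * X)) (200 * X) := ⟨_, rfl⟩
  have hSm : MeasurableSet S := by rw [hSd]; exact measurableSet_Icc.prod measurableSet_Icc
  have hBm : MeasurableSet B := by rw [hBd]; exact measurableSet_Icc.prod measurableSet_Icc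
  have hSc : IsCompact S := by rw [hSd]; exact isCompact_Icc.prod isCompact_Icc
  have hBc : IsCompact B := by rw [hBd]; exact isCompact_Icc.prod isCompact_Icc
  -- facts on S
  have hfacts : ∀ p ∈ S, 0 ≤ p.1 ∧ p.1 * T ≤ X ∧ r₁ ≤ p.2 ∧ p.2 ≤ r₁ + X ∧ |p.1 * z₀| * T ≤ 7 * X ∧
      993 / 1000 ≤ 1 + p.1 * z₀ ∧ 1 + p.1 * z₀ ≤ 1007 / 1000 := by
    intro p hp
    rw [hSd] at hp
    obtain ⟨⟨a1, a2⟩, a3, a4⟩ := hp
    have a5 : p.1 * T ≤ X := by rwa [le_div_iff₀ hT] at a2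
    have a6 : |p.1 * z₀| * T ≤ 7 * X := by
      rw [abs_mul, abs_of_nonneg a1]
      have : p.1 * |z₀| ≤ p.1 * 7 := mul_le_mul_of_nonneg_left hz a1
      nlinarith [abs_nonneg z₀]
    have a7 : |p.1 * z₀| ≤ 7 / 1000 := by
      by_contra hcon
      rw [not_le] at hcon
      nlinarith
    have a8 := abs_le.mp a7
    exact ⟨a1, a5, a3, a4, a6, by linarith [a8.1], by linarith [a8.2]⟩
  have hpos : ∀ p ∈ S, 0 < 1 + p.1 * z₀ ∧ 0 < p.2 := by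
    intro p hp
    obtain ⟨a1, a2, a3, a4, a5, a6, a7⟩ := hfacts p hp
    exact ⟨by linarith, by linarith⟩
  have hcont := cont57 hG (fun p hp => (hpos p hp).1)
  have hint : IntegrableOn (fun p : ℝ × ℝ => G (p.2 / (1 + p.1 * z₀) ^ 3) (-(p.2 * p.1) / (1 + p.1 * z₀) ^ 4)) S :=
    hcont.integrableOn_compact hSc
  have hcw : ContinuousOn (fun p : ℝ × ℝ => (p.2 / (1 + p.1 * z₀) ^ 8) *
      G (p.2 / (1 + p.1 * z₀) ^ 3) (-(p.2 * p.1) / (1 + p.1 * z₀) ^ 4)) S := by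
    refine ContinuousOn.mul ?_ hcont
    refine ContinuousOn.div (by fun_prop) (by fun_prop) fun p hp => ?_
    exact pow_ne_zero 8 (hpos p hp).1.ne'
  have hintw := hcw.integrableOn_compact (μ := volume) hSc
  have eL : ∫ y in Icc 0 (X / T), ∫ r in Icc r₁ (r₁ + X), G (r / (1 + y * z₀) ^ 3) (-(r * y) / (1 + y * z₀) ^ 4) =
      ∫ p in S, G (p.2 / (1 + p.1 * z₀) ^ 3) (-(p.2 * p.1) / (1 + p.1 * z₀) ^ 4) := by
    rw [hSd] at hint ⊢
    rw [Measure.volume_eq_prod] at hint ⊢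
    exact (setIntegral_prod _ hint).symm
  have hintB : IntegrableOn (fun q : ℝ × ℝ => G q.1 q.2) B := hG.continuousOn.integrableOn_compact hBc
  have eR : ∫ t in Icc (r₁ - 200 * X) (r₁ + 200 * X), ∫ g in Icc (-(200 * X)) (200 * X), G t g =
      ∫ q in B, G q.1 q.2 := by
    rw [hBd] at hintB ⊢
    rw [Measure.volume_eq_prod] at hintB ⊢
    exact (setIntegral_prod _ hintB).symm
  rw [eL, eR]
  have hsub : Ph57 z₀ '' S ⊆ B := by
    rintro _ ⟨p, hp, rfl⟩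
    obtain ⟨a1, a2, a3, a4, a5, a6, a7⟩ := hfacts p hp
    obtain ⟨q, hq⟩ : ∃ q : ℝ, q = 1 + p.1 * z₀ := ⟨_, rfl⟩
    have hq1 : |q - 1| * T ≤ 7 * X := by rw [hq, add_sub_cancel_left]; exact a5
    rw [← hq] at a6 a7
    have hq0 : 0 < q := by linarith
    have hq3 : 97 / 100 ≤ q ^ 3 := by nlinarith [sq_nonneg (q - 1), mul_pos hq0 hq0]
    have hq4 : 97 / 100 ≤ q ^ 4 := by
      have : (993 / 1000 : ℝ) ^ 4 ≤ q ^ 4 := pow_le_pow_left₀ (by norm_num) a6 4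
      norm_num at this
      linarith
    have b1 : |q ^ 3 - 1| * T ≤ 22 * X := by
      have e : q ^ 3 - 1 = (q - 1) * (q ^ 2 + q + 1) := by ring
      have h3 : q ^ 2 + q + 1 ≤ 31 / 10 := by nlinarith
      have h4 : 0 < q ^ 2 + q + 1 := by positivity
      rw [e, abs_mul, abs_of_pos h4]
      have h5 : |q - 1| * (q ^ 2 + q + 1) * T = (|q - 1| * T) * (q ^ 2 + q + 1) := by ring
      rw [h5]
      have h6 : (|q - 1| * T) * (q ^ 2 + q + 1) ≤ (7 * X) * (31 / 10) :=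
        mul_le_mul hq1 h3 h4.le (by positivity)
      linarith
    have hr5 : p.2 ≤ 5 * T := by linarith
    have hr0 : 0 < p.2 := by linarith
    have b2 : |p.2 / q ^ 3 - p.2| ≤ 120 * X := by
      have e : p.2 / q ^ 3 - p.2 = -(p.2 * (q ^ 3 - 1)) / q ^ 3 := by
        field_simp
        ring
      rw [e, abs_div, abs_neg, abs_mul, abs_of_pos hr0, abs_of_pos (by positivity : 0 < q ^ 3), div_le_iff₀ (by positivity)]
      have h7 : p.2 * |q ^ 3 - 1| ≤ 5 * T * |q ^ 3 - 1| := mul_le_mul_of_nonneg_right hr5 (abs_nonneg _)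
      nlinarith
    have b3 : |p.2 * p.1 / q ^ 4| ≤ 6 * X := by
      rw [abs_of_nonneg (by positivity), div_le_iff₀ (by positivity)]
      have h8 : p.2 * p.1 ≤ 5 * T * p.1 := mul_le_mul_of_nonneg_right hr5 a1
      nlinarith
    have b2' := abs_le.mp b2
    have b3' := abs_le.mp b3
    have e9 : -(p.2 * p.1) / q ^ 4 = -(p.2 * p.1 / q ^ 4) := by ring
    rw [hBd]
    unfold Ph57
    rw [← hq, e9]
    refine ⟨⟨?_, ?_⟩, ?_, ?_⟩ <;> simp only <;> linarith [b2'.1, b2'.2, b3'.1, b3'.2]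
  calc ∫ p in S, G (p.2 / (1 + p.1 * z₀) ^ 3) (-(p.2 * p.1) / (1 + p.1 * z₀) ^ 4)
      ≤ ∫ p in S, 4 / T * ((p.2 / (1 + p.1 * z₀) ^ 8) *
          G (p.2 / (1 + p.1 * z₀) ^ 3) (-(p.2 * p.1) / (1 + p.1 * z₀) ^ 4)) := by
        refine setIntegral_mono_on hint (hintw.const_mul _) hSm fun p hp => ?_
        obtain ⟨a1, a2, a3, a4, a5, a6, a7⟩ := hfacts p hp
        rw [← mul_assoc]
        refine le_mul_of_one_le_left (hG0 _ _) ?_
        have h8 : (1 + p.1 * z₀) ^ 8 ≤ 2 := by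
          have : (1 + p.1 * z₀) ^ 8 ≤ (1007 / 1000 : ℝ) ^ 8 := pow_le_pow_left₀ (by linarith) a7 8
          norm_num at this
          linarith
        have h9 : 0 < (1 + p.1 * z₀) ^ 8 := by
          have : 0 < 1 + p.1 * z₀ := by linarith
          positivity
        rw [div_mul_div_comm, le_div_iff₀ (by positivity)]
        nlinarith
    _ = 4 / T * ∫ q in Ph57 z₀ '' S, G q.1 q.2 := by
        rw [integral_const_mul, chg57 hSm hpos]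
    _ ≤ 4 / T * ∫ q in B, G q.1 q.2 := by
        refine mul_le_mul_of_nonneg_left ?_ (by positivity)
        exact setIntegral_mono_set hintB (Eventually.of_forall fun q => hG0 _ _) hsub.eventuallyLE

theorem bwd : ∃ C : ℝ, 1 ≤ C ∧ ∀ (G : ℝ → ℝ → ℝ) (z₀ T Y r₁ : ℝ), Continuous (fun q : ℝ × ℝ => G q.1 q.2) → (∀ t g, 0 ≤ G t g) →
    |z₀| ≤ 7 → 0 < Y → 1000 * Y ≤ T → T / 2 ≤ r₁ → r₁ ≤ 4 * T →
      ∫ t in Icc (r₁ - Y) (r₁ + Y), ∫ g in Icc (-Y) Y, G t g ≤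
        C * T * ∫ y in Icc (-(5 * Y / T)) (5 * Y / T), ∫ r in Icc (r₁ - 500 * Y) (r₁ + 500 * Y),
          G (r / (1 + y * z₀) ^ 3) (-(r * y) / (1 + y * z₀) ^ 4) := by
  refine ⟨6, by norm_num, fun G z₀ T Y r₁ hG hG0 hz hY hYT h1 h2 => ?_⟩
  have hT : 0 < T := by linarith
  obtain ⟨B, hBd⟩ : ∃ B : Set (ℝ × ℝ), B = Icc (r₁ - Y) (r₁ + Y) ×ˢ Icc (-Y) Y := ⟨_, rfl⟩
  obtain ⟨S, hSd⟩ : ∃ S : Set (ℝ × ℝ), S = Icc (-(5 * Y / T)) (5 * Y / T) ×ˢ Icc (r₁ - 500 * Y) (r₁ + 500 * Y) := ⟨_, rfl⟩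
  obtain ⟨S', hSd'⟩ : ∃ S' : Set (ℝ × ℝ), S' = Icc (-(5 * Y / T)) (5 * Y / T) ×ˢ Icc (r₁ - 450 * Y) (r₁ + 450 * Y) := ⟨_, rfl⟩
  have hSS : S' ⊆ S := by
    rw [hSd, hSd']
    exact Set.prod_mono le_rfl (Icc_subset_Icc (by linarith) (by linarith))
  have hSm : MeasurableSet S := by rw [hSd]; exact measurableSet_Icc.prod measurableSet_Icc
  have hSm' : MeasurableSet S' := by rw [hSd']; exact measurableSet_Icc.prod measurableSet_Icc
  have hSc : IsCompact S := by rw [hSd]; exact isCompact_Icc.prod isCompact_Icc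
  have hSc' : IsCompact S' := by rw [hSd']; exact isCompact_Icc.prod isCompact_Icc
  have hBc : IsCompact B := by rw [hBd]; exact isCompact_Icc.prod isCompact_Icc
  have hfacts : ∀ p ∈ S, r₁ - 500 * Y ≤ p.2 ∧ p.2 ≤ r₁ + 500 * Y ∧
      965 / 1000 ≤ 1 + p.1 * z₀ := by
    intro p hp
    rw [hSd] at hp
    obtain ⟨⟨a1, a2⟩, a3, a4⟩ := hp
    have a5 : |p.1| ≤ 5 * Y / T := abs_le.mpr ⟨a1, a2⟩
    have a6 : 5 * Y / T ≤ 1 / 200 := by
      rw [div_le_iff₀ hT]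
      linarith
    have a7 : |p.1 * z₀| ≤ 1 / 200 * 7 := by
      rw [abs_mul]
      exact mul_le_mul (a5.trans a6) hz (abs_nonneg _) (by norm_num)
    have a8 := abs_le.mp a7
    exact ⟨a3, a4, by linarith [a8.1]⟩
  have hpos : ∀ p ∈ S', 0 < 1 + p.1 * z₀ ∧ 0 < p.2 := by
    intro p hp
    obtain ⟨a1, a2, a3⟩ := hfacts p (hSS hp)
    rw [hSd'] at hp
    obtain ⟨_, a5, a6⟩ := hp
    exact ⟨by linarith, by linarith⟩
  have hcont := cont57 hG (z₀ := z₀) (S := S) (fun p hp => by linarith [(hfacts p hp).2.2])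
  have hint : IntegrableOn (fun p : ℝ × ℝ => G (p.2 / (1 + p.1 * z₀) ^ 3) (-(p.2 * p.1) / (1 + p.1 * z₀) ^ 4)) S :=
    hcont.integrableOn_compact hSc
  have hcw : ContinuousOn (fun p : ℝ × ℝ => (p.2 / (1 + p.1 * z₀) ^ 8) *
      G (p.2 / (1 + p.1 * z₀) ^ 3) (-(p.2 * p.1) / (1 + p.1 * z₀) ^ 4)) S' := by
    refine ContinuousOn.mul ?_ (hcont.mono hSS)
    refine ContinuousOn.div (by fun_prop) (by fun_prop) fun p hp => ?_
    exact pow_ne_zero 8 (hpos p hp).1.ne'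
  have hintw := hcw.integrableOn_compact (μ := volume) hSc'
  have eR : ∫ y in Icc (-(5 * Y / T)) (5 * Y / T), ∫ r in Icc (r₁ - 500 * Y) (r₁ + 500 * Y),
      G (r / (1 + y * z₀) ^ 3) (-(r * y) / (1 + y * z₀) ^ 4) =
      ∫ p in S, G (p.2 / (1 + p.1 * z₀) ^ 3) (-(p.2 * p.1) / (1 + p.1 * z₀) ^ 4) := by
    have hint2 := hint
    rw [hSd] at hint2 ⊢
    rw [Measure.volume_eq_prod] at hint2 ⊢
    exact (setIntegral_prod _ hint2).symm
  have hintB : IntegrableOn (fun q : ℝ × ℝ => G q.1 q.2) B := hG.continuousOn.integrableOn_compact hBc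
  have eL : ∫ t in Icc (r₁ - Y) (r₁ + Y), ∫ g in Icc (-Y) Y, G t g = ∫ q in B, G q.1 q.2 := by
    rw [hBd] at hintB ⊢
    rw [Measure.volume_eq_prod] at hintB ⊢
    exact (setIntegral_prod _ hintB).symm
  rw [eL, eR]
  have hsub : B ⊆ Ph57 z₀ '' S' := by
    rintro ⟨t, g⟩ htg
    rw [hBd] at htg
    obtain ⟨⟨c1, c2⟩, c3, c4⟩ := htg
    simp only at c1 c2 c3 c4
    have hz' := abs_le.mp hz
    have hgz : |g * z₀| ≤ 7 * Y := by
      rw [abs_mul]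
      have hg : |g| ≤ Y := abs_le.mpr ⟨c3, c4⟩
      calc |g| * |z₀| ≤ Y * 7 := mul_le_mul hg hz (abs_nonneg _) hY.le
        _ = 7 * Y := by ring
    have hgz' := abs_le.mp hgz
    obtain ⟨D, hD⟩ : ∃ D : ℝ, D = t + g * z₀ := ⟨_, rfl⟩
    have hD0 : 49 / 100 * T ≤ D := by rw [hD]; linarith [hgz'.1]
    have hDp : 0 < D := by linarith
    have htp : 0 < t := by linarith
    have eq1 : 1 + -g / D * z₀ = t / D := by
      rw [eq_div_iff hDp.ne']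
      have : (1 + -g / D * z₀) * D = D - g * z₀ := by field_simp; ring
      rw [this, hD]
      ring
    refine ⟨(-g / D, t * (t / D) ^ 3), ?_, ?_⟩
    · rw [hSd']
      refine ⟨?_, ?_⟩
      · have hy : |-g / D| ≤ 5 * Y / T := by
          rw [abs_div, abs_neg, abs_of_pos hDp, div_le_div_iff₀ hDp hT]
          have hg : |g| ≤ Y := abs_le.mpr ⟨c3, c4⟩
          nlinarith
        exact ⟨(abs_le.mp hy).1, (abs_le.mp hy).2⟩
      · obtain ⟨q, hq⟩ : ∃ q : ℝ, q = t / D := ⟨_, rfl⟩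
        have hq1 : |q - 1| * T ≤ 15 * Y := by
          have e : q - 1 = -(g * z₀) / D := by
            rw [hq, hD]
            have : t + g * z₀ ≠ 0 := by rw [← hD]; exact hDp.ne'
            field_simp
            ring
          rw [e, abs_div, abs_neg, abs_of_pos hDp, div_mul_eq_mul_div, div_le_iff₀ hDp]
          nlinarith
        have hq2 : |q - 1| ≤ 15 / 1000 := by
          by_contra hcon
          rw [not_le] at hcon
          nlinarith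
        have hq2' := abs_le.mp hq2
        have hq0 : 0 < q := by linarith [hq2'.1]
        have b1 : |q ^ 3 - 1| * T ≤ 50 * Y := by
          have e : q ^ 3 - 1 = (q - 1) * (q ^ 2 + q + 1) := by ring
          have h3 : q ^ 2 + q + 1 ≤ 33 / 10 := by nlinarith [hq2'.1, hq2'.2]
          have h4 : 0 < q ^ 2 + q + 1 := by positivity
          rw [e, abs_mul, abs_of_pos h4]
          have h5 : |q - 1| * (q ^ 2 + q + 1) * T = (|q - 1| * T) * (q ^ 2 + q + 1) := by ring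
          rw [h5]
          have h6 : (|q - 1| * T) * (q ^ 2 + q + 1) ≤ (15 * Y) * (33 / 10) :=
            mul_le_mul hq1 h3 h4.le (by positivity)
          linarith
        have b2 : |t * q ^ 3 - t| ≤ 250 * Y := by
          have e : t * q ^ 3 - t = t * (q ^ 3 - 1) := by ring
          rw [e, abs_mul, abs_of_pos htp]
          have h7 : t * |q ^ 3 - 1| ≤ 5 * T * |q ^ 3 - 1| := mul_le_mul_of_nonneg_right (by linarith) (abs_nonneg _)
          nlinarith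
        have b2' := abs_le.mp b2
        show t * (t / D) ^ 3 ∈ Icc (r₁ - 450 * Y) (r₁ + 450 * Y)
        rw [← hq]
        constructor <;> linarith [b2'.1, b2'.2]
    · unfold Ph57
      simp only
      rw [eq1]
      have htD : t / D ≠ 0 := (div_pos htp hDp).ne'
      refine Prod.ext ?_ ?_
      · simp only
        field_simp
      · simp only
        field_simp
  calc ∫ q in B, G q.1 q.2 ≤ ∫ q in Ph57 z₀ '' S', G q.1 q.2 := by
        refine setIntegral_mono_set ?_ (Eventually.of_forall fun q => hG0 _ _) hsub.eventuallyLE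
        have himg : IsCompact (Ph57 z₀ '' S') := by
          refine hSc'.image_of_continuousOn fun p hp => ?_
          exact (hasFD57 (hpos p hp).1.ne').continuousAt.continuousWithinAt
        exact hG.continuousOn.integrableOn_compact himg
    _ = ∫ p in S', (p.2 / (1 + p.1 * z₀) ^ 8) *
          G (p.2 / (1 + p.1 * z₀) ^ 3) (-(p.2 * p.1) / (1 + p.1 * z₀) ^ 4) := chg57 hSm' hpos
    _ ≤ ∫ p in S', 6 * T * G (p.2 / (1 + p.1 * z₀) ^ 3) (-(p.2 * p.1) / (1 + p.1 * z₀) ^ 4) := by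
        refine setIntegral_mono_on hintw ((hint.mono_set hSS).const_mul _) hSm' fun p hp => ?_
        obtain ⟨a1, a2, a3⟩ := hfacts p (hSS hp)
        refine mul_le_mul_of_nonneg_right ?_ (hG0 _ _)
        have h9 : (7519 / 10000 : ℝ) ≤ (1 + p.1 * z₀) ^ 8 := by
          have : (965 / 1000 : ℝ) ^ 8 ≤ (1 + p.1 * z₀) ^ 8 := pow_le_pow_left₀ (by norm_num) a3 8
          norm_num at this
          linarith
        rw [div_le_iff₀ (by linarith)]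
        nlinarith
    _ = 6 * T * ∫ p in S', G (p.2 / (1 + p.1 * z₀) ^ 3) (-(p.2 * p.1) / (1 + p.1 * z₀) ^ 4) := integral_const_mul _ _
    _ ≤ 6 * T * ∫ p in S, G (p.2 / (1 + p.1 * z₀) ^ 3) (-(p.2 * p.1) / (1 + p.1 * z₀) ^ 4) := by
        refine mul_le_mul_of_nonneg_left ?_ (by positivity)
        exact setIntegral_mono_set hint (Eventually.of_forall fun q => hG0 _ _) hSS.eventuallyLE

end Pool.Agent.Helper76.MM
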