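import Pool.Agent.Helper76.MM.A1
import Pool.Agent.Helper76.MM.A3
import Pool.Agent.Helper76.MM.A4
import Pool.Agent.Helper76.MM.A6
import Pool.Agent.Helper76.MM.A7
import Pool.Agent.Helper92.GC.Q2

/-!
# MM-B1: decoupling of the true family on one small box

PROOF. `S = ∅`: the left side is `0 ^ (1/6) = 0`. Otherwise `j₀ < M^s₀`, put `N = M^s₀`, `τ = -6 + 12 (j₀ + 1/2)/N` (`|τ| ≤ 6`), `d = b₁ - b₀`, `z = τ / (1 + d τ)` (`|z| ≤ 7`). For `k ∈ S`: `tt b₁ k = tt b₀ k / (1 + d tt b₀ k)`,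
so `|tt b₁ k - z| ≤ 1.3 · 6/N ≤ 10/N =: σ`, `0 < uu b₁ k = uu b₀ k (1 + d tt b₀ k) ≤ 20 H`; `InReg b₀ H S`. Weights `v`, `w` : `IsDw (400 X)` at `r₁ - 200 X`, `-200 X` (`exists_dw`, Q1), `G = lf S a b₁ z`.
(1) `b = b₁ + y`: `TT S .. = ∫_{y ∈ [0, X/T]} ∫_r tf S a r (b₁ + y) ≤ C ∫∫ lf S a b₁ z (r/q³) (-(r y)/q⁴)` (`loc`; `r y² H σ⁴ ≤ 5T (X/T)² H 10⁴/N⁴ ≤ 1`), `≤ C'/T ∫∫ lf` (`fwd`), `≤ (C''X²/T) LL v w b₁ z S a` (`low2`).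
(2) `CE.box_dec` (with `B = S`, `arc b₀ S (M^s₀) j₀ = S`, `η = (1/M)^(3m+3)`, weights of scale `400 X`) and `LL_eq`: `LL v w b₁ z S a ^ (1/6) ≤ C M^(ε m) ∑_r LL v w b₁ z S_r a ^ (1/6)`, `S_r` the sub-arcs.
(3) `up2` with `Y = 400 X H^δ`, `D = (10⁴H²)^12`, `n = ⌈(26 + 3|B|)/δ⌉`, `bwd` and `loc` (second part).
-/

open MeasureTheory Real Set Filter Topology

set_option autoImplicit false

namespace Pool.Agent.Helper76.MM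

open Pool.Agent.Helper22.AE
open Pool.Agent.Helper92.GC
open Pool.Agent.Helper92.DT (m12)
open Pool.Agent.Helper78.CE (p2 p3 hs mu2 InReg)
open Pool.Agent.Helper22.AC (IsWt)

open Classical in
private lemma mem_arc_b1 {β : ℝ} {S : Finset (ℤ × ℤ)} {N j : ℕ} {k : ℤ × ℤ} :
    k ∈ arc β S N j ↔ k ∈ S ∧ ⌊(N : ℝ) * ((tt β k + 6) / 12)⌋₊ = j := by
  unfold arc
  rw [Finset.mem_filter]

open Classical in
private lemma mem_reg_b1 {β H : ℝ} {k : ℤ × ℤ} (hk : k ∈ reg β H) : H / 4 ≤ uu β k ∧ uu β k ≤ 8 * H ∧ |(k.2 : ℝ)| ≤ 5 * uu β k := by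
  unfold reg at hk
  rw [Finset.mem_filter] at hk
  exact hk.2

/-- the slope at `b₁` from the slope at `b₀` -/
theorem uu_shift {b₀ b : ℝ} {k : ℤ × ℤ} (hu : 0 < uu b₀ k) : uu b k = uu b₀ k * (1 + (b - b₀) * tt b₀ k) := by
  unfold tt
  have h : uu b k = uu b₀ k + (b - b₀) * (k.2 : ℝ) := by
    unfold uu
    ring
  rw [h]
  field_simp

theorem tt_shift {b₀ b : ℝ} {k : ℤ × ℤ} (hu : 0 < uu b₀ k) :
    tt b k = tt b₀ k / (1 + (b - b₀) * tt b₀ k) := by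
  have h1 : tt b k = (k.2 : ℝ) / uu b k := rfl
  have h2 : tt b₀ k = (k.2 : ℝ) / uu b₀ k := rfl
  rw [h1, uu_shift hu, ← div_div, ← h2]

theorem tt_reg {b₀ H : ℝ} (hH : 0 < H) {k : ℤ × ℤ} (hk : k ∈ reg b₀ H) : 0 < uu b₀ k ∧ |tt b₀ k| ≤ 5 := by
  obtain ⟨h1, -, h3⟩ := mem_reg_b1 hk
  have hu : 0 < uu b₀ k := by linarith
  refine ⟨hu, ?_⟩
  unfold tt
  rw [abs_div, abs_of_pos hu, div_le_iff₀ hu]
  exact h3

/-- on the region all `uu b k` with `|b - b₀| ≤ 1/50` are positive -/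
theorem uu_pos {b₀ b H : ℝ} (hH : 0 < H) (hb : |b - b₀| ≤ 1 / 50) {k : ℤ × ℤ} (hk : k ∈ reg b₀ H) : 0 < uu b k := by
  obtain ⟨h1, h2⟩ := tt_reg hH hk
  rw [uu_shift h1]
  have h3 : |(b - b₀) * tt b₀ k| ≤ 1 / 10 := by
    rw [abs_mul]
    nlinarith [abs_nonneg (b - b₀), abs_nonneg (tt b₀ k)]
  have h4 := (abs_le.1 h3).1
  exact mul_pos h1 (by linarith)

/-- the centre of the arc -/
private lemma centre_b1 {b₀ b₁ H : ℝ} {N j₀ : ℕ} {S : Finset (ℤ × ℤ)} (hH : 1 ≤ H) (hN : 1 ≤ N) (hb : |b₁ - b₀| ≤ 1 / 55)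
    (hS : S ⊆ arc b₀ (reg b₀ H) N j₀) (hne : S.Nonempty) :
    ∃ z : ℝ, |z| ≤ 7 ∧ ∀ k ∈ S, 0 < uu b₁ k ∧ uu b₁ k ≤ 20 * H ∧ |tt b₁ k - z| ≤ 10 / N := by
  have hN0 : (0 : ℝ) < N := by exact_mod_cast hN
  have hH0 : 0 < H := by linarith
  obtain ⟨d, hd⟩ : ∃ d, d = b₁ - b₀ := ⟨_, rfl⟩
  rw [← hd] at hb
  -- position of `tt b₀ k`
  have hpos : ∀ k ∈ S, -6 + 12 * (j₀ : ℝ) / N ≤ tt b₀ k ∧ tt b₀ k ≤ -6 + 12 * ((j₀ : ℝ) + 1) / N := by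
    intro k hk
    obtain ⟨h1, h2⟩ := mem_arc_b1.1 (hS hk)
    obtain ⟨-, h4⟩ := tt_reg hH0 h1
    have h5 := (abs_le.1 h4).1
    have h6 : 0 ≤ (N : ℝ) * ((tt b₀ k + 6) / 12) := by
      have : 0 ≤ (tt b₀ k + 6) / 12 := by linarith
      positivity
    rw [Nat.floor_eq_iff h6] at h2
    obtain ⟨h7, h8⟩ := h2
    constructor
    · have : 12 * (j₀ : ℝ) / N ≤ tt b₀ k + 6 := by
        rw [div_le_iff₀ hN0]
        linarith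
      linarith
    · have : tt b₀ k + 6 ≤ 12 * ((j₀ : ℝ) + 1) / N := by
        rw [le_div_iff₀ hN0]
        linarith
      linarith
  obtain ⟨τ, hτ⟩ : ∃ τ, τ = -6 + 12 * ((j₀ : ℝ) + 1 / 2) / N := ⟨_, rfl⟩
  have hτk : ∀ k ∈ S, |tt b₀ k - τ| ≤ 6 / N := by
    intro k hk
    obtain ⟨h1, h2⟩ := hpos k hk
    have e1 : 12 * (j₀ : ℝ) / N = 12 * ((j₀ : ℝ) + 1 / 2) / N - 6 / N := by ring
    have e2 : 12 * ((j₀ : ℝ) + 1) / N = 12 * ((j₀ : ℝ) + 1 / 2) / N + 6 / N := by ring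
    rw [abs_le, hτ]
    constructor <;> linarith
  have hτ6 : |τ| ≤ 6 := by
    obtain ⟨k, hk⟩ := hne
    obtain ⟨h1, h2⟩ := hpos k hk
    obtain ⟨h1', -⟩ := mem_arc_b1.1 (hS hk)
    obtain ⟨-, h4⟩ := tt_reg hH0 h1'
    have h5 : (j₀ : ℝ) ≤ (N : ℝ) - 1 := by
      have h6 : (j₀ : ℝ) < N := by
        have h7 : 12 * (j₀ : ℝ) / N ≤ 11 := by linarith [(abs_le.1 h4).2]
        rw [div_le_iff₀ hN0] at h7
        linarith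
      have h8 : j₀ + 1 ≤ N := by exact_mod_cast h6
      have h9 : ((j₀ + 1 : ℕ) : ℝ) ≤ N := by exact_mod_cast h8
      push_cast at h9
      linarith
    rw [abs_le, hτ]
    have h6 : 0 ≤ 12 * ((j₀ : ℝ) + 1 / 2) / N := by positivity
    have h7 : 12 * ((j₀ : ℝ) + 1 / 2) / N ≤ 12 := by
      rw [div_le_iff₀ hN0]
      linarith
    constructor <;> linarith
  have hdτ : |d * τ| ≤ 6 / 55 := by
    rw [abs_mul]
    nlinarith [abs_nonneg d, abs_nonneg τ]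
  have hdτ1 : 49 / 55 ≤ 1 + d * τ := by linarith [(abs_le.1 hdτ).1]
  refine ⟨τ / (1 + d * τ), ?_, fun k hk => ?_⟩
  · rw [abs_div, abs_of_pos (by linarith : 0 < 1 + d * τ), div_le_iff₀ (by linarith)]
    linarith
  · obtain ⟨h1, -⟩ := mem_arc_b1.1 (hS hk)
    obtain ⟨h3, h4⟩ := tt_reg hH0 h1
    obtain ⟨-, h2, -⟩ := mem_reg_b1 h1
    have hdt : |d * tt b₀ k| ≤ 5 / 55 := by
      rw [abs_mul]
      nlinarith [abs_nonneg d, abs_nonneg (tt b₀ k)]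
    have hdt1 : 50 / 55 ≤ 1 + d * tt b₀ k := by linarith [(abs_le.1 hdt).1]
    have hdt2 : 1 + d * tt b₀ k ≤ 60 / 55 := by linarith [(abs_le.1 hdt).2]
    have hu : uu b₁ k = uu b₀ k * (1 + d * tt b₀ k) := by
      rw [hd]
      exact uu_shift h3
    have ht : tt b₁ k = tt b₀ k / (1 + d * tt b₀ k) := by
      rw [hd]
      exact tt_shift h3
    refine ⟨by rw [hu]; exact mul_pos h3 (by linarith), ?_, ?_⟩
    · rw [hu]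
      have h5 : uu b₀ k * (1 + d * tt b₀ k) ≤ 8 * H * (60 / 55) := mul_le_mul h2 hdt2 (by linarith) (by linarith)
      linarith
    · rw [ht]
      have e : tt b₀ k / (1 + d * tt b₀ k) - τ / (1 + d * τ) = (tt b₀ k - τ) / ((1 + d * tt b₀ k) * (1 + d * τ)) := by
        have h5 : 1 + d * tt b₀ k ≠ 0 := by linarith
        have h6 : 1 + d * τ ≠ 0 := by linarith
        rw [div_sub_div _ _ h5 h6]
        congr 1
        ring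
      have h7 : (3 / 4 : ℝ) ≤ (1 + d * tt b₀ k) * (1 + d * τ) := by nlinarith
      rw [e, abs_div, abs_of_pos (by linarith : 0 < (1 + d * tt b₀ k) * (1 + d * τ)), div_le_iff₀ (by linarith)]
      have h8 := hτk k hk
      have h9 : 10 / (N : ℝ) * (3 / 4) ≤ 10 / (N : ℝ) * ((1 + d * tt b₀ k) * (1 + d * τ)) :=
        mul_le_mul_of_nonneg_left h7 (by positivity)
      have h10 : 6 / (N : ℝ) ≤ 10 / (N : ℝ) * (3 / 4) := by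
        rw [div_mul_eq_mul_div]
        gcongr
        norm_num
      linarith

/-- continuity of the substituted linear family -/
private lemma G_cont_b1 {G : ℝ → ℝ → ℝ} (hG : Continuous (fun q : ℝ × ℝ => G q.1 q.2)) {z y₁ y₂ : ℝ} (r₁ r₂ : ℝ)
    (hz : ∀ y ∈ Icc y₁ y₂, 0 < 1 + y * z) :
    ContinuousOn (fun q : ℝ × ℝ => G (q.2 / (1 + q.1 * z) ^ 3) (-(q.2 * q.1) / (1 + q.1 * z) ^ 4)) (Icc y₁ y₂ ×ˢ Icc r₁ r₂) := by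
  have h : ContinuousOn (fun q : ℝ × ℝ => ((q.2 / (1 + q.1 * z) ^ 3, -(q.2 * q.1) / (1 + q.1 * z) ^ 4) : ℝ × ℝ)) (Icc y₁ y₂ ×ˢ Icc r₁ r₂) := by
    refine ContinuousOn.prodMk ?_ ?_
    · refine ContinuousOn.div (by fun_prop) (by fun_prop) fun q hq => ?_
      exact (pow_pos (hz q.1 hq.1) 3).ne'
    · refine ContinuousOn.div (by fun_prop) (by fun_prop) fun q hq => ?_
      exact (pow_pos (hz q.1 hq.1) 4).ne'
  exact hG.comp_continuousOn h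

/-- continuity of the true family near `b₁` -/
private lemma tf_cont_b1 {S : Finset (ℤ × ℤ)} (a : ℤ × ℤ → ℂ) {c y₁ y₂ : ℝ} (r₁ r₂ : ℝ)
    (h : ∀ k ∈ S, ∀ y ∈ Icc y₁ y₂, uu (c + y) k ≠ 0) :
    ContinuousOn (fun q : ℝ × ℝ => tf S a q.2 (c + q.1)) (Icc y₁ y₂ ×ˢ Icc r₁ r₂) := by
  have h1 := tf_contOn S a {b | ∀ k ∈ S, uu b k ≠ 0} (fun k hk b hb => hb k hk)
  refine h1.comp (f := fun q : ℝ × ℝ => (q.2, c + q.1)) (by fun_prop) ?_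
  intro q hq
  refine ⟨mem_univ _, fun k hk => h k hk q.1 hq.1⟩

/-- part (1) -/
private lemma part1_b1 {Cl Cf c₀ : ℝ} (hCl : 1 ≤ Cl) (hCf : 1 ≤ Cf) (hc₀ : 0 < c₀)
    {S : Finset (ℤ × ℤ)} {a : ℤ × ℤ → ℂ} (ha : ∀ k, ‖a k‖ ≤ 1) {b₁ z H T X r₁ σ : ℝ} {v w : ℝ → ℝ} {Cd : ℕ → ℝ}
    (hH : 1 ≤ H) (hσ0 : 0 ≤ σ) (hX : 0 < X) (hXT : 1000 * X ≤ T) (hr : T / 2 ≤ r₁) (hr' : r₁ ≤ 4 * T) (hz : |z| ≤ 7)
    (hS : ∀ k ∈ S, 0 < uu b₁ k ∧ uu b₁ k ≤ 20 * H ∧ |tt b₁ k - z| ≤ σ)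
    (hsmall : 5 * (X ^ 2 * H * σ ^ 4) ≤ T)
    (hpos : ∀ k ∈ S, ∀ y ∈ Icc 0 (X / T), uu (b₁ + y) k ≠ 0)
    (hv : IsDw (400 * X) (r₁ - 200 * X) v c₀ Cd) (hw : IsDw (400 * X) (-(200 * X)) w c₀ Cd)
    (hloc : ∀ (y r : ℝ), |y| ≤ 1 / 50 → 0 ≤ r → r * y ^ 2 * H * σ ^ 4 ≤ 1 →
      tf S a r (b₁ + y) ≤ Cl * lf S a b₁ z (r / (1 + y * z) ^ 3) (-(r * y) / (1 + y * z) ^ 4))
    (hfwd : ∀ (G : ℝ → ℝ → ℝ), Continuous (fun q : ℝ × ℝ => G q.1 q.2) → (∀ t g, 0 ≤ G t g) →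
      ∫ y in Icc 0 (X / T), ∫ r in Icc r₁ (r₁ + X), G (r / (1 + y * z) ^ 3) (-(r * y) / (1 + y * z) ^ 4) ≤
        Cf / T * ∫ t in Icc (r₁ - 200 * X) (r₁ + 200 * X), ∫ g in Icc (-(200 * X)) (200 * X), G t g) :
    TT S a r₁ (r₁ + X) b₁ (b₁ + X / T) ≤ Cl * Cf * (400 / c₀) ^ 2 * (X ^ 2 / T * LL v w b₁ z S a) := by
  have hT : 0 < T := by linarith
  have hG := lf_cont S a b₁ z
  have hG0 : ∀ t g, 0 ≤ lf S a b₁ z t g := fun t g => lf_nonneg S a b₁ z t g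
  have hXT1 : X / T ≤ 1 / 1000 := by
    rw [div_le_iff₀ hT]
    linarith
  have hy : ∀ y ∈ Icc (0 : ℝ) (X / T), |y| ≤ 1 / 50 ∧ 0 < 1 + y * z := by
    intro y hy
    have h1 : |y| ≤ 1 / 50 := by
      rw [abs_of_nonneg hy.1]
      linarith [hy.2]
    refine ⟨h1, ?_⟩
    have h2 : |y * z| ≤ 7 / 50 := by
      rw [abs_mul]
      nlinarith [abs_nonneg y, abs_nonneg z]
    linarith [(abs_le.1 h2).1]
  have h1 : TT S a r₁ (r₁ + X) b₁ (b₁ + X / T) = ∫ y in Icc 0 (X / T), ∫ r in Icc r₁ (r₁ + X), tf S a r (b₁ + y) := by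
    unfold TT
    rw [icc_shift _ b₁]
    congr 2
    ring_nf
  have h2 : ∫ y in Icc 0 (X / T), ∫ r in Icc r₁ (r₁ + X), tf S a r (b₁ + y) ≤
      ∫ y in Icc 0 (X / T), ∫ r in Icc r₁ (r₁ + X), Cl * lf S a b₁ z (r / (1 + y * z) ^ 3) (-(r * y) / (1 + y * z) ^ 4) := by
    refine iter_mono (f := fun y r => tf S a r (b₁ + y)) (g := fun y r => Cl * lf S a b₁ z (r / (1 + y * z) ^ 3) (-(r * y) / (1 + y * z) ^ 4))
      (tf_cont_b1 a _ _ hpos) ((G_cont_b1 hG _ _ fun y hy' => (hy y hy').2).const_smul Cl) ?_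
    intro y hy' r hr1
    refine hloc y r (hy y hy').1 (by linarith [hr1.1]) ?_
    have h3 : y ^ 2 ≤ (X / T) ^ 2 := pow_le_pow_left₀ hy'.1 hy'.2 2
    have h4 : r ≤ 5 * T := by linarith [hr1.2]
    have h5 : r * y ^ 2 ≤ 5 * T * (X / T) ^ 2 := mul_le_mul h4 h3 (sq_nonneg _) (by positivity)
    have h6 : r * y ^ 2 * (H * σ ^ 4) ≤ 5 * T * (X / T) ^ 2 * (H * σ ^ 4) := mul_le_mul_of_nonneg_right h5 (by positivity)
    have h7 : 5 * T * (X / T) ^ 2 * (H * σ ^ 4) = 5 * (X ^ 2 * H * σ ^ 4) / T := by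
      field_simp
    have h8 : 5 * (X ^ 2 * H * σ ^ 4) / T ≤ 1 := by
      rw [div_le_one hT]
      exact hsmall
    calc r * y ^ 2 * H * σ ^ 4 = r * y ^ 2 * (H * σ ^ 4) := by ring
      _ ≤ 1 := by linarith
  have h3 : ∫ y in Icc 0 (X / T), ∫ r in Icc r₁ (r₁ + X), Cl * lf S a b₁ z (r / (1 + y * z) ^ 3) (-(r * y) / (1 + y * z) ^ 4) =
      Cl * ∫ y in Icc 0 (X / T), ∫ r in Icc r₁ (r₁ + X), lf S a b₁ z (r / (1 + y * z) ^ 3) (-(r * y) / (1 + y * z) ^ 4) := by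
    simp only [integral_const_mul]
  have h4 := hfwd (lf S a b₁ z) hG hG0
  have h5 := low2 (D := (S.card : ℝ) ^ 12) hX hc₀ hv hw hG hG0 (fun t g => lf_le S ha b₁ z t g)
  have h6 : (∫ t, ∫ g, v t * w g * lf S a b₁ z t g) = LL v w b₁ z S a := rfl
  rw [h6] at h5
  rw [h1]
  refine (h2.trans (le_of_eq h3)).trans ?_
  have h7 : Cl * ∫ y in Icc 0 (X / T), ∫ r in Icc r₁ (r₁ + X), lf S a b₁ z (r / (1 + y * z) ^ 3) (-(r * y) / (1 + y * z) ^ 4) ≤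
      Cl * (Cf / T * ((400 * X / c₀) ^ 2 * LL v w b₁ z S a)) := by
    refine mul_le_mul_of_nonneg_left (h4.trans ?_) (by linarith)
    exact mul_le_mul_of_nonneg_left h5 (by positivity)
  refine h7.trans (le_of_eq ?_)
  field_simp

/-- part (3) -/
private lemma part3_b1 {Cl Cb c₀ : ℝ} (hCl : 1 ≤ Cl) (hCb : 1 ≤ Cb)
    {S : Finset (ℤ × ℤ)} {a : ℤ × ℤ → ℂ} (ha : ∀ k, ‖a k‖ ≤ 1) {b₁ z H T X Y r₁ σ D : ℝ} {v w : ℝ → ℝ} {Cd : ℕ → ℝ} (n : ℕ)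
    (hH : 1 ≤ H) (hσ0 : 0 ≤ σ) (hX : 0 < X) (hY : 400 * X ≤ Y) (hYT : 1000 * Y ≤ T) (hr : T / 2 ≤ r₁) (hr' : r₁ ≤ 4 * T) (hz : |z| ≤ 7)
    (hD : ((S.card : ℝ)) ^ 12 ≤ D)
    (hsmall : 125 * (Y ^ 2 * H * σ ^ 4) ≤ T)
    (hpos : ∀ k ∈ S, ∀ y ∈ Icc (-(5 * Y / T)) (5 * Y / T), uu (b₁ + y) k ≠ 0)
    (hv : IsDw (400 * X) (r₁ - 200 * X) v c₀ Cd) (hw : IsDw (400 * X) (-(200 * X)) w c₀ Cd)
    (hloc : ∀ (y r : ℝ), |y| ≤ 1 / 50 → 0 ≤ r → r * y ^ 2 * H * σ ^ 4 ≤ 1 →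
      lf S a b₁ z (r / (1 + y * z) ^ 3) (-(r * y) / (1 + y * z) ^ 4) ≤ Cl * tf S a r (b₁ + y))
    (hbwd : ∀ (G : ℝ → ℝ → ℝ), Continuous (fun q : ℝ × ℝ => G q.1 q.2) → (∀ t g, 0 ≤ G t g) →
      ∫ t in Icc (r₁ - Y) (r₁ + Y), ∫ g in Icc (-Y) Y, G t g ≤
        Cb * T * ∫ y in Icc (-(5 * Y / T)) (5 * Y / T), ∫ r in Icc (r₁ - 500 * Y) (r₁ + 500 * Y),
          G (r / (1 + y * z) ^ 3) (-(r * y) / (1 + y * z) ^ 4)) :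
    X ^ 2 / T * LL v w b₁ z S a ≤ (Cd 0 / 400) ^ 2 * Cb * Cl * TT S a (r₁ - 500 * Y) (r₁ + 500 * Y) (b₁ - 5 * Y / T) (b₁ + 5 * Y / T) +
      X ^ 2 / T * (2 * D * (800 * X / Y) ^ n * (π * (Cd n + Cd (n + 2)))) := by
  have hT : 0 < T := by linarith
  have hYp : 0 < Y := by linarith
  have hG := lf_cont S a b₁ z
  have hG0 : ∀ t g, 0 ≤ lf S a b₁ z t g := fun t g => lf_nonneg S a b₁ z t g
  have hYT1 : 5 * Y / T ≤ 1 / 200 := by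
    rw [div_le_iff₀ hT]
    linarith
  have hy : ∀ y ∈ Icc (-(5 * Y / T)) (5 * Y / T), |y| ≤ 1 / 50 ∧ 0 < 1 + y * z := by
    intro y hy
    have h1 : |y| ≤ 1 / 50 := by
      rw [abs_le]
      constructor <;> linarith [hy.1, hy.2]
    refine ⟨h1, ?_⟩
    have h2 : |y * z| ≤ 7 / 50 := by
      rw [abs_mul]
      nlinarith [abs_nonneg y, abs_nonneg z]
    linarith [(abs_le.1 h2).1]
  have h5 := up2 (D := (S.card : ℝ) ^ 12) hX hY hv hw hG hG0 (fun t g => lf_le S ha b₁ z t g) n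
  have h6 : (∫ t, ∫ g, v t * w g * lf S a b₁ z t g) = LL v w b₁ z S a := rfl
  rw [h6] at h5
  have h4 := hbwd (lf S a b₁ z) hG hG0
  have h1 : TT S a (r₁ - 500 * Y) (r₁ + 500 * Y) (b₁ - 5 * Y / T) (b₁ + 5 * Y / T) =
      ∫ y in Icc (-(5 * Y / T)) (5 * Y / T), ∫ r in Icc (r₁ - 500 * Y) (r₁ + 500 * Y), tf S a r (b₁ + y) := by
    unfold TT
    rw [icc_shift _ b₁]
    congr 2 <;> ring_nf
  have h2 : ∫ y in Icc (-(5 * Y / T)) (5 * Y / T), ∫ r in Icc (r₁ - 500 * Y) (r₁ + 500 * Y),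
        lf S a b₁ z (r / (1 + y * z) ^ 3) (-(r * y) / (1 + y * z) ^ 4) ≤
      ∫ y in Icc (-(5 * Y / T)) (5 * Y / T), ∫ r in Icc (r₁ - 500 * Y) (r₁ + 500 * Y), Cl * tf S a r (b₁ + y) := by
    refine iter_mono (f := fun y r => lf S a b₁ z (r / (1 + y * z) ^ 3) (-(r * y) / (1 + y * z) ^ 4)) (g := fun y r => Cl * tf S a r (b₁ + y))
      (G_cont_b1 hG _ _ fun y hy' => (hy y hy').2) ((tf_cont_b1 a _ _ hpos).const_smul Cl) ?_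
    intro y hy' r hr1
    refine hloc y r (hy y hy').1 (by linarith [hr1.1]) ?_
    have h3 : y ^ 2 ≤ (5 * Y / T) ^ 2 := by
      rw [sq_le_sq, abs_of_nonneg (by positivity : 0 ≤ 5 * Y / T), abs_le]
      exact hy'
    have h4 : r ≤ 5 * T := by linarith [hr1.2]
    have h5 : r * y ^ 2 ≤ 5 * T * (5 * Y / T) ^ 2 := mul_le_mul h4 h3 (sq_nonneg _) (by positivity)
    have h6 : r * y ^ 2 * (H * σ ^ 4) ≤ 5 * T * (5 * Y / T) ^ 2 * (H * σ ^ 4) := mul_le_mul_of_nonneg_right h5 (by positivity)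
    have h7 : 5 * T * (5 * Y / T) ^ 2 * (H * σ ^ 4) = 125 * (Y ^ 2 * H * σ ^ 4) / T := by
      field_simp
      ring
    have h8 : 125 * (Y ^ 2 * H * σ ^ 4) / T ≤ 1 := by
      rw [div_le_one hT]
      exact hsmall
    calc r * y ^ 2 * H * σ ^ 4 = r * y ^ 2 * (H * σ ^ 4) := by ring
      _ ≤ 1 := by linarith
  have h3 : ∫ y in Icc (-(5 * Y / T)) (5 * Y / T), ∫ r in Icc (r₁ - 500 * Y) (r₁ + 500 * Y), Cl * tf S a r (b₁ + y) =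
      Cl * ∫ y in Icc (-(5 * Y / T)) (5 * Y / T), ∫ r in Icc (r₁ - 500 * Y) (r₁ + 500 * Y), tf S a r (b₁ + y) := by
    simp only [integral_const_mul]
  rw [h3, ← h1] at h2
  have hCd : 0 ≤ Cd n + Cd (n + 2) := by
    have e1 := hv.dec n (r₁ - 200 * X)
    have e2 := hv.dec (n + 2) (r₁ - 200 * X)
    have e3 : 0 ≤ Cd n / (400 * X) := (mul_nonneg (hv.wt.nonneg _) (by positivity)).trans e1
    have e4 : 0 ≤ Cd (n + 2) / (400 * X) := (mul_nonneg (hv.wt.nonneg _) (by positivity)).trans e2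
    have e5 : 0 < 400 * X := by linarith
    have e6 := mul_nonneg e3 e5.le
    have e7 := mul_nonneg e4 e5.le
    rw [div_mul_cancel₀ _ e5.ne'] at e6 e7
    linarith
  have h7 : LL v w b₁ z S a ≤ (Cd 0 / (400 * X)) ^ 2 * (Cb * T * (Cl * TT S a (r₁ - 500 * Y) (r₁ + 500 * Y) (b₁ - 5 * Y / T) (b₁ + 5 * Y / T))) +
      2 * D * (800 * X / Y) ^ n * (π * (Cd n + Cd (n + 2))) := by
    refine h5.trans (add_le_add ?_ ?_)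
    · refine mul_le_mul_of_nonneg_left (h4.trans ?_) (by positivity)
      exact mul_le_mul_of_nonneg_left h2 (by positivity)
    · have e1 : 0 ≤ (800 * X / Y) ^ n * (π * (Cd n + Cd (n + 2))) := by positivity
      nlinarith
  have h8 := mul_le_mul_of_nonneg_left h7 (by positivity : 0 ≤ X ^ 2 / T)
  refine h8.trans (le_of_eq ?_)
  rw [_root_.mul_add]
  congr 1
  field_simp

theorem TT_nonneg (S : Finset (ℤ × ℤ)) (a : ℤ × ℤ → ℂ) (r₁ r₂ β₁ β₂ : ℝ) : 0 ≤ TT S a r₁ r₂ β₁ β₂ :=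
  iter_nonneg (f := fun b r => tf S a r b) fun _ _ _ _ => tf_nonneg _ _ _ _

theorem TT_contOn {S : Finset (ℤ × ℤ)} (a : ℤ × ℤ → ℂ) {r₁ r₂ β₁ β₂ : ℝ} (hpos : ∀ k ∈ S, ∀ b ∈ Icc β₁ β₂, uu b k ≠ 0) :
    ContinuousOn (fun q : ℝ × ℝ => tf S a q.2 q.1) (Icc β₁ β₂ ×ˢ Icc r₁ r₂) := by
  have h1 := tf_contOn S a (Icc β₁ β₂) hpos
  exact h1.comp (f := fun q : ℝ × ℝ => (q.2, q.1)) (by fun_prop) fun q hq => ⟨mem_univ _, hq.1⟩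

theorem TT_mono {S : Finset (ℤ × ℤ)} (a : ℤ × ℤ → ℂ) {r₁ r₂ β₁ β₂ r₁' r₂' β₁' β₂' : ℝ} (hpos : ∀ k ∈ S, ∀ b ∈ Icc β₁' β₂', uu b k ≠ 0)
    (h1 : r₁' ≤ r₁) (h2 : r₂ ≤ r₂') (h3 : β₁' ≤ β₁) (h4 : β₂ ≤ β₂') : TT S a r₁ r₂ β₁ β₂ ≤ TT S a r₁' r₂' β₁' β₂' :=
  rect_mono (f := fun b r => tf S a r b) (TT_contOn a hpos) (fun _ _ _ _ => tf_nonneg _ _ _ _) h3 h4 h1 h2

private lemma TT_empty_b1 (a : ℤ × ℤ → ℂ) (r₁ r₂ β₁ β₂ : ℝ) : TT ∅ a r₁ r₂ β₁ β₂ = 0 := by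
  unfold TT tf m12 tp
  simp

/-- the far part -/
private lemma far_b1 {H T X δ B P : ℝ} {n : ℕ} (hH : 1 ≤ H) (hT : 0 < T) (hX : 0 < X) (hXT : X ≤ T) (hTB : T ≤ H ^ B)
    (hn : 26 + 3 * |B| ≤ δ * n) (hP : 0 ≤ P) :
    X ^ 2 / T * (2 * (10 ^ 4 * H ^ 2) ^ 12 * (800 * X / (400 * (X * H ^ δ))) ^ n * P) ≤
      2 * (10 ^ 4) ^ 12 * 2 ^ n * P * H ^ (-(2 * B + 2)) := by
  have hH0 : 0 < H := by linarith
  have hHd : 0 < H ^ δ := rpow_pos_of_pos hH0 _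
  have h1 : 800 * X / (400 * (X * H ^ δ)) = 2 * H ^ (-δ) := by
    rw [rpow_neg hH0.le]
    field_simp
    norm_num
  have h2 : X ^ 2 / T ≤ H ^ B := by
    rw [div_le_iff₀ hT]
    have : X ^ 2 ≤ T * T := by nlinarith
    nlinarith
  have h3 : (2 * H ^ (-δ)) ^ n = 2 ^ n * H ^ (-(δ * n)) := by
    rw [mul_pow, ← rpow_natCast (H ^ (-δ)) n, ← rpow_mul hH0.le]
    congr 2
    ring
  have h4 : ((10 : ℝ) ^ 4 * H ^ 2) ^ 12 = (10 ^ 4) ^ 12 * H ^ (24 : ℝ) := by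
    have h5 : (H ^ 2) ^ 12 = H ^ (24 : ℝ) := by
      rw [← pow_mul, ← rpow_natCast H (2 * 12)]
      norm_num
    rw [mul_pow, h5]
  rw [h1, h3, h4]
  have h5 : H ^ B * (H ^ (24 : ℝ) * H ^ (-(δ * n))) ≤ H ^ (-(2 * B + 2)) := by
    rw [← rpow_add hH0, ← rpow_add hH0]
    refine rpow_le_rpow_of_exponent_le hH ?_
    have := le_abs_self B
    linarith
  have h6 : 0 ≤ H ^ (24 : ℝ) * H ^ (-(δ * n)) := by positivity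
  calc X ^ 2 / T * (2 * ((10 ^ 4) ^ 12 * H ^ (24 : ℝ)) * (2 ^ n * H ^ (-(δ * n))) * P)
      = 2 * (10 ^ 4) ^ 12 * 2 ^ n * P * (X ^ 2 / T * (H ^ (24 : ℝ) * H ^ (-(δ * n)))) := by ring
    _ ≤ 2 * (10 ^ 4) ^ 12 * 2 ^ n * P * (H ^ B * (H ^ (24 : ℝ) * H ^ (-(δ * n)))) := by
        refine mul_le_mul_of_nonneg_left ?_ (by positivity)
        exact mul_le_mul_of_nonneg_right h2 h6
    _ ≤ _ := mul_le_mul_of_nonneg_left h5 (by positivity)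

theorem one_box {ε : ℝ} (hε : 0 < ε) : ∃ M : ℕ, 36 ≤ M ∧ ∃ C : ℝ, 1 ≤ C ∧ ∀ δ B : ℝ, 0 < δ → ∃ C₁ : ℝ, 1 ≤ C₁ ∧
    ∀ (m s₀ j₀ : ℕ) (b₀ b₁ H T X r₁ : ℝ) (a : ℤ × ℤ → ℂ) (S : Finset (ℤ × ℤ)), 1 ≤ H → H ≤ T → T ≤ H ^ B → |b₀| ≤ 1 / 2 →
      |b₁ - b₀| ≤ 1 / 55 → T / 2 ≤ r₁ → r₁ ≤ 4 * T → (∀ k, ‖a k‖ ≤ 1) → S ⊆ arc b₀ (reg b₀ H) (M ^ s₀) j₀ →
      (∀ k ∈ S, ∀ k' ∈ S, |uu b₁ k - uu b₁ k'| ≤ (1 / (M : ℝ)) ^ (3 * m + 3) * H) →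
      100 * ((M : ℝ) ^ (s₀ + m)) ^ 3 ≤ 1728 * (H * X) → 10 ^ 14 * (X ^ 2 * H * H ^ (2 * δ)) ≤ T * ((M : ℝ) ^ s₀) ^ 4 →
      10 ^ 7 * (X * H ^ δ) ≤ T →
      TT S a r₁ (r₁ + X) b₁ (b₁ + X / T) ^ (1 / 6 : ℝ) ≤ C * (M : ℝ) ^ (ε * m) * ∑ r ∈ Finset.range (M ^ m),
        (TT (arc b₀ S (M ^ (s₀ + m)) (M ^ m * j₀ + r)) a (r₁ - 10 ^ 6 * (X * H ^ δ)) (r₁ + 10 ^ 6 * (X * H ^ δ))
          (b₁ - 10 ^ 4 * (X * H ^ δ) / T) (b₁ + 10 ^ 4 * (X * H ^ δ) / T) + C₁ * H ^ (-(2 * B + 2))) ^ (1 / 6 : ℝ) := by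
  obtain ⟨M0, hM0, hdec⟩ := Pool.Agent.Helper78.CE.box_dec hε
  obtain ⟨c₀, hc₀, Cd, hdw⟩ := exists_dw
  obtain ⟨Cl, hCl, hloc⟩ := loc
  obtain ⟨Cf, hCf, hfwd⟩ := fwd
  obtain ⟨Cb, hCb, hbwd⟩ := bwd
  obtain ⟨M, hMdef⟩ : ∃ M, M = max M0 36 := ⟨_, rfl⟩
  have hM36 : 36 ≤ M := by rw [hMdef]; exact le_max_right _ _
  obtain ⟨C, hC, hbox⟩ := hdec M (by rw [hMdef]; exact le_max_left _ _)
  obtain ⟨A1, hA1⟩ : ∃ A, A = Cl * Cf * (400 / c₀) ^ 2 := ⟨_, rfl⟩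
  obtain ⟨A2, hA2⟩ : ∃ A, A = (Cd 0 / 400) ^ 2 * Cb * Cl + 1 := ⟨_, rfl⟩
  have hA1p : 0 ≤ A1 := by rw [hA1]; positivity
  have hA2p : 1 ≤ A2 := by
    rw [hA2]
    have : 0 ≤ (Cd 0 / 400) ^ 2 * Cb * Cl := by positivity
    linarith
  refine ⟨M, hM36, C * (1 + A1 * A2) ^ (1 / 6 : ℝ), ?_, ?_⟩
  · refine one_le_mul_of_one_le_of_one_le hC (one_le_rpow ?_ (by norm_num))
    have : 0 ≤ A1 * A2 := by positivity
    linarith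
  intro δ B hδ
  obtain ⟨n, hn⟩ : ∃ n : ℕ, n = ⌈(26 + 3 * |B|) / δ⌉₊ := ⟨_, rfl⟩
  have hn1 : 26 + 3 * |B| ≤ δ * n := by
    have h1 := Nat.le_ceil ((26 + 3 * |B|) / δ)
    rw [← hn, div_le_iff₀ hδ] at h1
    linarith
  refine ⟨max 1 (2 * (10 ^ 4) ^ 12 * 2 ^ n * |π * (Cd n + Cd (n + 2))|), le_max_left _ _, ?_⟩
  intro m s₀ j₀ b₀ b₁ H T X r₁ a S hH hHT hTB hb₀ hb₁ hr hr' ha hS hslab hX1 hX2 hX3
  obtain ⟨C₁, hC₁⟩ : ∃ C₁ : ℝ, C₁ = max 1 (2 * (10 ^ 4) ^ 12 * 2 ^ n * |π * (Cd n + Cd (n + 2))|) := ⟨_, rfl⟩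
  rw [← hC₁]
  have hC₁1 : 1 ≤ C₁ := by rw [hC₁]; exact le_max_left _ _
  have hH0 : 0 < H := by linarith
  have hT : 0 < T := by linarith
  have hM1 : 1 ≤ M := by omega
  have hMr : (1 : ℝ) ≤ M := by exact_mod_cast hM1
  have hMpos : (0 : ℝ) < M := by linarith
  have hHd1 : 1 ≤ H ^ δ := one_le_rpow hH hδ.le
  have hHd2 : (H ^ δ) ^ 2 = H ^ (2 * δ) := by
    rw [← rpow_natCast (H ^ δ) 2, ← rpow_mul hH0.le]
    congr 1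
    push_cast
    ring
  have hHd3 : 1 ≤ H ^ (2 * δ) := one_le_rpow hH (by linarith)
  have hκ : 0 ≤ C₁ * H ^ (-(2 * B + 2)) := by positivity
  rcases S.eq_empty_or_nonempty with hSe | hne
  · rw [hSe, TT_empty_b1, zero_rpow (by norm_num)]
    refine mul_nonneg (mul_nonneg (by positivity) (by positivity)) (Finset.sum_nonneg fun r _ => rpow_nonneg ?_ _)
    exact add_nonneg (TT_nonneg _ _ _ _ _ _) hκ
  have hX : 0 < X := by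
    have h1 : 0 < 1728 * (H * X) := lt_of_lt_of_le (by positivity) hX1
    by_contra hcon
    push Not at hcon
    nlinarith
  obtain ⟨N, hN⟩ : ∃ N : ℕ, N = M ^ s₀ := ⟨_, rfl⟩
  have hNr : (N : ℝ) = (M : ℝ) ^ s₀ := by rw [hN]; push_cast; rfl
  have hN1 : 1 ≤ N := by rw [hN]; exact Nat.one_le_pow _ _ (by omega)
  have hN0 : (0 : ℝ) < N := by exact_mod_cast hN1
  rw [← hNr] at hX2
  rw [← hN] at hS
  obtain ⟨z, hz, hzS⟩ := centre_b1 hH hN1 hb₁ hS hne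
  obtain ⟨σ, hσ⟩ : ∃ σ : ℝ, σ = 10 / N := ⟨_, rfl⟩
  rw [← hσ] at hzS
  have hσ0 : 0 ≤ σ := by rw [hσ]; positivity
  have hσ12 : σ ≤ 12 := by
    rw [hσ, div_le_iff₀ hN0]
    have : (1 : ℝ) ≤ N := by exact_mod_cast hN1
    linarith
  have hσN : σ ^ 4 * (N : ℝ) ^ 4 = 10 ^ 4 := by
    rw [hσ]
    field_simp
  obtain ⟨Y, hY⟩ : ∃ Y : ℝ, Y = 400 * (X * H ^ δ) := ⟨_, rfl⟩
  have hXd : X ≤ X * H ^ δ := le_mul_of_one_le_right hX.le hHd1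
  have hXT : 10 ^ 7 * X ≤ T := le_trans (by linarith) hX3
  have hXY : 400 * X ≤ Y := by rw [hY]; linarith
  have hYT : 20000 * Y ≤ T := by rw [hY]; linarith
  have hYp : 0 < Y := by linarith
  -- smallness of the remainder
  have hsm : 10 ^ 10 * (X ^ 2 * H * H ^ (2 * δ) * σ ^ 4) ≤ T := by
    have h1 : 10 ^ 10 * (X ^ 2 * H * H ^ (2 * δ) * σ ^ 4) * (N : ℝ) ^ 4 ≤ T * (N : ℝ) ^ 4 := by
      calc 10 ^ 10 * (X ^ 2 * H * H ^ (2 * δ) * σ ^ 4) * (N : ℝ) ^ 4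
          = 10 ^ 10 * (X ^ 2 * H * H ^ (2 * δ)) * (σ ^ 4 * (N : ℝ) ^ 4) := by ring
        _ = 10 ^ 14 * (X ^ 2 * H * H ^ (2 * δ)) := by rw [hσN]; ring
        _ ≤ _ := hX2
    exact le_of_mul_le_mul_right h1 (by positivity)
  have hsm1 : 5 * (X ^ 2 * H * σ ^ 4) ≤ T := by
    have h1 : X ^ 2 * H * σ ^ 4 ≤ X ^ 2 * H * H ^ (2 * δ) * σ ^ 4 := by
      have : X ^ 2 * H * H ^ (2 * δ) * σ ^ 4 = X ^ 2 * H * σ ^ 4 * H ^ (2 * δ) := by ring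
      rw [this]
      exact le_mul_of_one_le_right (by positivity) hHd3
    have h2 : 0 ≤ X ^ 2 * H * H ^ (2 * δ) * σ ^ 4 := by positivity
    linarith
  have hsm3 : 125 * (Y ^ 2 * H * σ ^ 4) ≤ T := by
    have h1 : 125 * (Y ^ 2 * H * σ ^ 4) = 20000000 * (X ^ 2 * H * H ^ (2 * δ) * σ ^ 4) := by
      rw [hY, ← hHd2]
      ring
    have h2 : 0 ≤ X ^ 2 * H * H ^ (2 * δ) * σ ^ 4 := by positivity
    rw [h1]
    linarith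
  have hreg : ∀ k ∈ S, k ∈ reg b₀ H := fun k hk => (mem_arc_b1.1 (hS hk)).1
  have hp : ∀ (c : ℝ), |c - b₁| ≤ 1 / 1000 → ∀ k ∈ S, uu c k ≠ 0 := by
    intro c hc k hk
    refine (uu_pos hH0 (b₀ := b₀) (H := H) ?_ (hreg k hk)).ne'
    have h1 : c - b₀ = (c - b₁) + (b₁ - b₀) := by ring
    rw [h1]
    exact (abs_add_le _ _).trans (by linarith)
  have hXT2 : X / T ≤ 1 / 1000 := by
    rw [div_le_iff₀ hT]
    linarith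
  have hYT2 : 5 * Y / T ≤ 1 / 1000 := by
    rw [div_le_iff₀ hT]
    linarith
  obtain ⟨v, hv⟩ := hdw (400 * X) (by positivity) (r₁ - 200 * X)
  obtain ⟨w, hw⟩ := hdw (400 * X) (by positivity) (-(200 * X))
  -- part 1
  have h1 := part1_b1 hCl hCf hc₀ ha hH hσ0 hX (by linarith) hr hr' hz hzS hsm1
    (fun k hk y hy => hp (b₁ + y) (by
      rw [add_sub_cancel_left, abs_of_nonneg hy.1]
      exact hy.2.trans hXT2) k hk) hv hw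
    (fun y r hy hr0 hsmall => (hloc S a b₁ y z r H σ hH0 hσ0 hσ12 hz hy hr0 hsmall hzS).1)
    (fun G hG hG0 => hfwd G z T X r₁ hG hG0 hz hX (by linarith) hr hr')
  rw [← hA1] at h1
  -- part 2
  have hself : arc b₀ S N j₀ = S := by
    ext k
    rw [mem_arc_b1]
    exact ⟨fun h => h.1, fun h => ⟨h, (mem_arc_b1.1 (hS h)).2⟩⟩
  have hin : InReg b₀ H S := by
    intro k hk
    obtain ⟨e1, e2, e3⟩ := mem_reg_b1 (hreg k hk)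
    exact ⟨by linarith, by linarith, e3⟩
  have h2 := hbox m N j₀ b₀ b₁ z H (400 * X) ((1 / (M : ℝ)) ^ (3 * m + 3)) v w a S hN1 hH0 (by positivity) hv.wt hw.wt hin
    (hb₁.trans (by norm_num)) (hz.trans (by norm_num)) hslab le_rfl (by
      rw [hNr, ← pow_add, div_pow, ← mul_div_assoc, div_le_div_iff₀ (by positivity) (by positivity)]
      nlinarith [hX1])
  rw [hself, LL_eq hv.wt hw.wt] at h2
  simp only [LL_eq hv.wt hw.wt] at h2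
  have hNM : N * M ^ m = M ^ (s₀ + m) := by rw [hN, pow_add]
  rw [hNM] at h2
  -- part 3
  have h3 : ∀ r ∈ Finset.range (M ^ m), X ^ 2 / T * LL v w b₁ z (arc b₀ S (M ^ (s₀ + m)) (M ^ m * j₀ + r)) a ≤
      A2 * (TT (arc b₀ S (M ^ (s₀ + m)) (M ^ m * j₀ + r)) a (r₁ - 10 ^ 6 * (X * H ^ δ)) (r₁ + 10 ^ 6 * (X * H ^ δ))
          (b₁ - 10 ^ 4 * (X * H ^ δ) / T) (b₁ + 10 ^ 4 * (X * H ^ δ) / T) + C₁ * H ^ (-(2 * B + 2))) := by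
    intro r _
    obtain ⟨S', hS'⟩ : ∃ S', S' = arc b₀ S (M ^ (s₀ + m)) (M ^ m * j₀ + r) := ⟨_, rfl⟩
    rw [← hS']
    have hsub : S' ⊆ S := by
      rw [hS']
      intro k hk
      exact (mem_arc_b1.1 hk).1
    have hcard : (S'.card : ℝ) ^ 12 ≤ (10 ^ 4 * H ^ 2) ^ 12 := by
      refine pow_le_pow_left₀ (by positivity) (le_trans ?_ (reg_card (β := b₀) hH)) 12
      exact_mod_cast Finset.card_le_card fun k hk => hreg k (hsub hk)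
    have e1 := part3_b1 (D := (10 ^ 4 * H ^ 2) ^ 12) hCl hCb ha n hH hσ0 hX hXY (by linarith) hr hr' hz hcard hsm3
      (fun k hk y hy => hp (b₁ + y) (by
        rw [add_sub_cancel_left]
        exact (abs_le.2 hy).trans hYT2) k (hsub hk)) hv hw
      (fun y r hy hr0 hsmall => (hloc S' a b₁ y z r H σ hH0 hσ0 hσ12 hz hy hr0 hsmall (fun k hk => hzS k (hsub hk))).2)
      (fun G hG hG0 => hbwd G z T Y r₁ hG hG0 hz hYp (by linarith) hr hr')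
    have e2 : TT S' a (r₁ - 500 * Y) (r₁ + 500 * Y) (b₁ - 5 * Y / T) (b₁ + 5 * Y / T) ≤
        TT S' a (r₁ - 10 ^ 6 * (X * H ^ δ)) (r₁ + 10 ^ 6 * (X * H ^ δ)) (b₁ - 10 ^ 4 * (X * H ^ δ) / T) (b₁ + 10 ^ 4 * (X * H ^ δ) / T) := by
      have hXd0 : 0 < X * H ^ δ := by positivity
      have e3 : 5 * Y / T ≤ 10 ^ 4 * (X * H ^ δ) / T := by
        rw [hY]
        exact div_le_div_of_nonneg_right (by linarith) hT.le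
      have e4 : 10 ^ 4 * (X * H ^ δ) / T ≤ 1 / 1000 := by
        rw [div_le_iff₀ hT]
        linarith
      refine TT_mono a (fun k hk b hb => hp b ?_ k (hsub hk)) ?_ ?_ ?_ ?_
      · rw [abs_le]
        constructor <;> linarith [hb.1, hb.2]
      · rw [hY]; linarith
      · rw [hY]; linarith
      · linarith
      · linarith
    have hCdn : 0 ≤ π * (Cd n + Cd (n + 2)) := by
      have e1 := hv.dec n (r₁ - 200 * X)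
      have e2 := hv.dec (n + 2) (r₁ - 200 * X)
      have e3 : 0 ≤ Cd n / (400 * X) := (mul_nonneg (hv.wt.nonneg _) (by positivity)).trans e1
      have e4 : 0 ≤ Cd (n + 2) / (400 * X) := (mul_nonneg (hv.wt.nonneg _) (by positivity)).trans e2
      have e5 : 0 < 400 * X := by linarith
      have e6 := mul_nonneg e3 e5.le
      have e7 := mul_nonneg e4 e5.le
      rw [div_mul_cancel₀ _ e5.ne'] at e6 e7
      positivity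
    have e5 := far_b1 (P := π * (Cd n + Cd (n + 2))) hH hT hX (by linarith) hTB hn1 hCdn
    rw [← hY] at e5
    have e6 : 2 * (10 ^ 4) ^ 12 * 2 ^ n * (π * (Cd n + Cd (n + 2))) * H ^ (-(2 * B + 2)) ≤ C₁ * H ^ (-(2 * B + 2)) := by
      refine mul_le_mul_of_nonneg_right ?_ (by positivity)
      rw [hC₁, abs_of_nonneg hCdn]
      exact le_max_right _ _
    have e7 : 0 ≤ TT S' a (r₁ - 500 * Y) (r₁ + 500 * Y) (b₁ - 5 * Y / T) (b₁ + 5 * Y / T) := TT_nonneg _ _ _ _ _ _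
    have e8 : (Cd 0 / 400) ^ 2 * Cb * Cl = A2 - 1 := by rw [hA2]; ring
    rw [e8] at e1
    have e9 : (A2 - 1) * TT S' a (r₁ - 500 * Y) (r₁ + 500 * Y) (b₁ - 5 * Y / T) (b₁ + 5 * Y / T) ≤
        A2 * TT S' a (r₁ - 10 ^ 6 * (X * H ^ δ)) (r₁ + 10 ^ 6 * (X * H ^ δ)) (b₁ - 10 ^ 4 * (X * H ^ δ) / T) (b₁ + 10 ^ 4 * (X * H ^ δ) / T) :=
      mul_le_mul (by linarith) e2 e7 (by linarith)
    have e10 : C₁ * H ^ (-(2 * B + 2)) ≤ A2 * (C₁ * H ^ (-(2 * B + 2))) := le_mul_of_one_le_left hκ hA2p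
    rw [_root_.mul_add]
    linarith
  -- combination
  obtain ⟨W, hW⟩ : ∃ W : ℕ → ℝ, W = fun r => TT (arc b₀ S (M ^ (s₀ + m)) (M ^ m * j₀ + r)) a (r₁ - 10 ^ 6 * (X * H ^ δ))
    (r₁ + 10 ^ 6 * (X * H ^ δ)) (b₁ - 10 ^ 4 * (X * H ^ δ) / T) (b₁ + 10 ^ 4 * (X * H ^ δ) / T) + C₁ * H ^ (-(2 * B + 2)) := ⟨_, rfl⟩
  have hW0 : ∀ r, 0 ≤ W r := by
    intro r
    rw [hW]
    exact add_nonneg (TT_nonneg _ _ _ _ _ _) hκ
  have h3' : ∀ r ∈ Finset.range (M ^ m), X ^ 2 / T * LL v w b₁ z (arc b₀ S (M ^ (s₀ + m)) (M ^ m * j₀ + r)) a ≤ A2 * W r := by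
    intro r hr
    rw [hW]
    exact h3 r hr
  have hLL0 : ∀ S', 0 ≤ LL v w b₁ z S' a := fun S' => LL_nonneg hv.wt hw.wt _ _ _ _
  have hU0 : 0 ≤ X ^ 2 / T := by positivity
  have h4 : (X ^ 2 / T * LL v w b₁ z S a) ^ (1 / 6 : ℝ) ≤ C * (M : ℝ) ^ (ε * (m : ℝ)) * ∑ r ∈ Finset.range (M ^ m), (A2 * W r) ^ (1 / 6 : ℝ) := by
    rw [mul_rpow hU0 (hLL0 _)]
    calc (X ^ 2 / T) ^ (1 / 6 : ℝ) * LL v w b₁ z S a ^ (1 / 6 : ℝ)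
        ≤ (X ^ 2 / T) ^ (1 / 6 : ℝ) * (C * (M : ℝ) ^ (ε * (m : ℝ)) * ∑ r ∈ Finset.range (M ^ m),
            LL v w b₁ z (arc b₀ S (M ^ (s₀ + m)) (M ^ m * j₀ + r)) a ^ (1 / 6 : ℝ)) :=
          mul_le_mul_of_nonneg_left h2 (by positivity)
      _ = C * (M : ℝ) ^ (ε * (m : ℝ)) * ∑ r ∈ Finset.range (M ^ m),
            (X ^ 2 / T * LL v w b₁ z (arc b₀ S (M ^ (s₀ + m)) (M ^ m * j₀ + r)) a) ^ (1 / 6 : ℝ) := by
          have e : ∀ r, (X ^ 2 / T * LL v w b₁ z (arc b₀ S (M ^ (s₀ + m)) (M ^ m * j₀ + r)) a) ^ (1 / 6 : ℝ) =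
              (X ^ 2 / T) ^ (1 / 6 : ℝ) * LL v w b₁ z (arc b₀ S (M ^ (s₀ + m)) (M ^ m * j₀ + r)) a ^ (1 / 6 : ℝ) :=
            fun r => mul_rpow hU0 (hLL0 _)
          simp only [e]
          rw [← Finset.mul_sum]
          ring
      _ ≤ _ := by
          refine mul_le_mul_of_nonneg_left (Finset.sum_le_sum fun r hr => ?_) (by positivity)
          exact rpow_le_rpow (mul_nonneg hU0 (hLL0 _)) (h3' r hr) (by norm_num)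
  have h5 : TT S a r₁ (r₁ + X) b₁ (b₁ + X / T) ^ (1 / 6 : ℝ) ≤ A1 ^ (1 / 6 : ℝ) * (X ^ 2 / T * LL v w b₁ z S a) ^ (1 / 6 : ℝ) := by
    rw [← mul_rpow hA1p (mul_nonneg hU0 (hLL0 _))]
    exact rpow_le_rpow (TT_nonneg _ _ _ _ _ _) h1 (by norm_num)
  have h6 : ∑ r ∈ Finset.range (M ^ m), (A2 * W r) ^ (1 / 6 : ℝ) = A2 ^ (1 / 6 : ℝ) * ∑ r ∈ Finset.range (M ^ m), W r ^ (1 / 6 : ℝ) := by
    rw [Finset.mul_sum]
    exact Finset.sum_congr rfl fun r _ => mul_rpow (by linarith) (hW0 r)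
  rw [h6] at h4
  have h7 : ∑ r ∈ Finset.range (M ^ m), (TT (arc b₀ S (M ^ (s₀ + m)) (M ^ m * j₀ + r)) a (r₁ - 10 ^ 6 * (X * H ^ δ)) (r₁ + 10 ^ 6 * (X * H ^ δ))
          (b₁ - 10 ^ 4 * (X * H ^ δ) / T) (b₁ + 10 ^ 4 * (X * H ^ δ) / T) + C₁ * H ^ (-(2 * B + 2))) ^ (1 / 6 : ℝ) =
      ∑ r ∈ Finset.range (M ^ m), W r ^ (1 / 6 : ℝ) := by
    rw [hW]
  rw [h7]
  have hs0 : 0 ≤ ∑ r ∈ Finset.range (M ^ m), W r ^ (1 / 6 : ℝ) := Finset.sum_nonneg fun r _ => rpow_nonneg (hW0 r) _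
  have h8 : A1 ^ (1 / 6 : ℝ) * A2 ^ (1 / 6 : ℝ) ≤ (1 + A1 * A2) ^ (1 / 6 : ℝ) := by
    rw [← mul_rpow hA1p (by linarith)]
    exact rpow_le_rpow (by positivity) (by linarith) (by norm_num)
  calc TT S a r₁ (r₁ + X) b₁ (b₁ + X / T) ^ (1 / 6 : ℝ)
      ≤ A1 ^ (1 / 6 : ℝ) * (C * (M : ℝ) ^ (ε * (m : ℝ)) * (A2 ^ (1 / 6 : ℝ) * ∑ r ∈ Finset.range (M ^ m), W r ^ (1 / 6 : ℝ))) :=
        h5.trans (mul_le_mul_of_nonneg_left h4 (by positivity))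
    _ = (A1 ^ (1 / 6 : ℝ) * A2 ^ (1 / 6 : ℝ)) * (C * (M : ℝ) ^ (ε * (m : ℝ)) * ∑ r ∈ Finset.range (M ^ m), W r ^ (1 / 6 : ℝ)) := by ring
    _ ≤ (1 + A1 * A2) ^ (1 / 6 : ℝ) * (C * (M : ℝ) ^ (ε * (m : ℝ)) * ∑ r ∈ Finset.range (M ^ m), W r ^ (1 / 6 : ℝ)) :=
        mul_le_mul_of_nonneg_right h8 (by positivity)
    _ = _ := by ring

end Pool.Agent.Helper76.MM
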