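import Mathlib

/-!
# MM-B2: the triangle inequality over boxes

PROOF of `mink`. Put `f k i = (y k i)^(1/6) ≥ 0`; Minkowski in `ℓ^6(s)`: `(∑_i (∑_k f k i)^6)^(1/6) ≤ ∑_k (∑_i f k i ^ 6)^(1/6)` by induction on `t` from `Real.Lp_add_le_of_nonneg` (p = 6), and
`x i ≤ (D ∑_k f k i)^6` from `h` (`x i ≥ 0`), `f k i ^ 6 = y k i`.
PROOF of `overlap`. For each `x` at most `2Y/X + 1` indices `i` with `|x - (x₀ + i X)| ≤ Y`, all such `x` lie in `[x₀ - Y, x₀ + n X + Y]`; write every integral over the big interval with an indicator (`integral_finset_sum`,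
`setIntegral_mono_on`).
PROOF of `adj`. `intervalIntegral.sum_integral_adjacent_intervals` as in GC.Q4 (`cover`).
-/

open MeasureTheory Real Set Filter Topology

set_option autoImplicit false

namespace Pool.Agent.Helper76.MM

private theorem mink_aux86 {ι κ : Type} (s : Finset ι) (t : Finset κ) (f : κ → ι → ℝ)
    (hf : ∀ k ∈ t, ∀ i ∈ s, 0 ≤ f k i) :
    (∑ i ∈ s, (∑ k ∈ t, f k i) ^ (6 : ℝ)) ^ (1 / 6 : ℝ) ≤
      ∑ k ∈ t, (∑ i ∈ s, f k i ^ (6 : ℝ)) ^ (1 / 6 : ℝ) := by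
  classical
  induction t using Finset.induction_on with
  | empty => simp
  | insert a t ha ih =>
    have h1 : ∀ i ∈ s, 0 ≤ f a i := hf a (Finset.mem_insert_self a t)
    have h2 : ∀ k ∈ t, ∀ i ∈ s, 0 ≤ f k i := fun k hk => hf k (Finset.mem_insert_of_mem hk)
    rw [Finset.sum_insert ha]
    have h3 : ∀ i ∈ s, (∑ k ∈ insert a t, f k i) ^ (6 : ℝ) = (f a i + ∑ k ∈ t, f k i) ^ (6 : ℝ) := by
      intro i _
      rw [Finset.sum_insert ha]
    rw [Finset.sum_congr rfl h3]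
    refine (Real.Lp_add_le_of_nonneg s (by norm_num) h1
      fun i hi => Finset.sum_nonneg fun k hk => h2 k hk i hi).trans ?_
    have h4 := ih h2
    linarith

theorem mink {ι κ : Type} (s : Finset ι) (t : Finset κ) (x : ι → ℝ) (y : κ → ι → ℝ) {D : ℝ} (hD : 0 ≤ D) (hx : ∀ i ∈ s, 0 ≤ x i)
    (hy : ∀ k ∈ t, ∀ i ∈ s, 0 ≤ y k i) (h : ∀ i ∈ s, x i ^ (1 / 6 : ℝ) ≤ D * ∑ k ∈ t, y k i ^ (1 / 6 : ℝ)) :
    (∑ i ∈ s, x i) ^ (1 / 6 : ℝ) ≤ D * ∑ k ∈ t, (∑ i ∈ s, y k i) ^ (1 / 6 : ℝ) := by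
  have hf : ∀ k ∈ t, ∀ i ∈ s, 0 ≤ y k i ^ (1 / 6 : ℝ) := fun k hk i hi => rpow_nonneg (hy k hk i hi) _
  have h6 : ∀ z : ℝ, 0 ≤ z → (z ^ (1 / 6 : ℝ)) ^ (6 : ℝ) = z := by
    intro z hz
    rw [← rpow_mul hz]
    norm_num
  have h16 : ∀ z : ℝ, 0 ≤ z → (z ^ (6 : ℝ)) ^ (1 / 6 : ℝ) = z := by
    intro z hz
    rw [← rpow_mul hz]
    norm_num
  have hS : ∀ i ∈ s, 0 ≤ ∑ k ∈ t, y k i ^ (1 / 6 : ℝ) := fun i hi => Finset.sum_nonneg fun k hk => hf k hk i hi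
  have h1 : ∑ i ∈ s, x i ≤ D ^ (6 : ℝ) * ∑ i ∈ s, (∑ k ∈ t, y k i ^ (1 / 6 : ℝ)) ^ (6 : ℝ) := by
    rw [Finset.mul_sum]
    refine Finset.sum_le_sum fun i hi => ?_
    rw [← mul_rpow hD (hS i hi), ← h6 (x i) (hx i hi)]
    exact rpow_le_rpow (rpow_nonneg (hx i hi) _) (h i hi) (by norm_num)
  have h2 : 0 ≤ ∑ i ∈ s, (∑ k ∈ t, y k i ^ (1 / 6 : ℝ)) ^ (6 : ℝ) :=
    Finset.sum_nonneg fun i hi => rpow_nonneg (hS i hi) _
  have h3 := mink_aux86 s t (fun k i => y k i ^ (1 / 6 : ℝ)) hf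
  have h4 : ∀ k ∈ t, (∑ i ∈ s, (y k i ^ (1 / 6 : ℝ)) ^ (6 : ℝ)) ^ (1 / 6 : ℝ) = (∑ i ∈ s, y k i) ^ (1 / 6 : ℝ) := by
    intro k hk
    rw [Finset.sum_congr rfl fun i hi => h6 (y k i) (hy k hk i hi)]
  rw [Finset.sum_congr rfl h4] at h3
  calc (∑ i ∈ s, x i) ^ (1 / 6 : ℝ)
      ≤ (D ^ (6 : ℝ) * ∑ i ∈ s, (∑ k ∈ t, y k i ^ (1 / 6 : ℝ)) ^ (6 : ℝ)) ^ (1 / 6 : ℝ) :=
        rpow_le_rpow (Finset.sum_nonneg hx) h1 (by norm_num)
    _ = D * (∑ i ∈ s, (∑ k ∈ t, y k i ^ (1 / 6 : ℝ)) ^ (6 : ℝ)) ^ (1 / 6 : ℝ) := by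
        rw [mul_rpow (rpow_nonneg hD _) h2, h16 D hD]
    _ ≤ _ := mul_le_mul_of_nonneg_left h3 hD

private theorem count86 {x x₀ X Y : ℝ} (n : ℕ) (hX : 0 < X) (hY : 0 ≤ Y) :
    (((Finset.range n).filter fun i : ℕ => x ∈ Icc (x₀ + i * X - Y) (x₀ + i * X + Y)).card : ℝ) ≤
      2 * Y / X + 1 := by
  rcases ((Finset.range n).filter fun i : ℕ => x ∈ Icc (x₀ + i * X - Y) (x₀ + i * X + Y)).eq_empty_or_nonempty
    with h | h
  · rw [h, Finset.card_empty]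
    have h1 : 0 ≤ 2 * Y / X := by positivity
    push_cast
    linarith
  · obtain ⟨m, hm, hm'⟩ := Finset.exists_min_image _ id h
    obtain ⟨M, hM, hM'⟩ := Finset.exists_max_image _ id h
    have h1 : ((Finset.range n).filter fun i : ℕ => x ∈ Icc (x₀ + i * X - Y) (x₀ + i * X + Y)) ⊆
        Finset.Icc m M := fun i hi => Finset.mem_Icc.2 ⟨hm' i hi, hM' i hi⟩
    have h2 := Finset.card_le_card h1
    rw [Nat.card_Icc] at h2
    have h3 : m ≤ M := hm' M hM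
    have h4 := (Finset.mem_filter.1 hm).2
    have h5 := (Finset.mem_filter.1 hM).2
    rw [Set.mem_Icc] at h4 h5
    have h6 : ((M : ℝ) - m) * X ≤ 2 * Y := by linarith [h4.2, h5.1]
    have h7 : ((M : ℝ) - m) ≤ 2 * Y / X := by
      rw [le_div_iff₀ hX]
      exact h6
    have h8 : (((Finset.range n).filter fun i : ℕ => x ∈ Icc (x₀ + i * X - Y) (x₀ + i * X + Y)).card : ℝ) ≤
        ((M + 1 - m : ℕ) : ℝ) := by exact_mod_cast h2
    rw [Nat.cast_sub (by omega)] at h8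
    push_cast at h8
    linarith

theorem overlap {F : ℝ → ℝ} {x₀ X Y : ℝ} (n : ℕ) (hX : 0 < X) (hY : 0 ≤ Y) (hF : ∀ x, 0 ≤ F x)
    (hi : IntegrableOn F (Icc (x₀ - Y) (x₀ + n * X + Y))) :
    ∑ i ∈ Finset.range n, ∫ x in Icc (x₀ + i * X - Y) (x₀ + i * X + Y), F x ≤
      (2 * Y / X + 1) * ∫ x in Icc (x₀ - Y) (x₀ + n * X + Y), F x := by
  have hsub : ∀ i ∈ Finset.range n, Icc (x₀ + i * X - Y) (x₀ + i * X + Y) ⊆ Icc (x₀ - Y) (x₀ + n * X + Y) := by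
    intro i hi'
    have h1 : (i : ℝ) ≤ n := by exact_mod_cast (Finset.mem_range.1 hi').le
    have h2 : 0 ≤ (i : ℝ) * X := by positivity
    have h3 : (i : ℝ) * X ≤ n * X := mul_le_mul_of_nonneg_right h1 hX.le
    exact Icc_subset_Icc (by linarith) (by linarith)
  have h1 : ∀ i ∈ Finset.range n, ∫ x in Icc (x₀ + i * X - Y) (x₀ + i * X + Y), F x =
      ∫ x in Icc (x₀ - Y) (x₀ + n * X + Y), (Icc (x₀ + i * X - Y) (x₀ + i * X + Y)).indicator F x := by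
    intro i hi'
    rw [setIntegral_indicator measurableSet_Icc, inter_eq_self_of_subset_right (hsub i hi')]
  have h2 : ∀ i ∈ Finset.range n, Integrable ((Icc (x₀ + i * X - Y) (x₀ + i * X + Y)).indicator F)
      (volume.restrict (Icc (x₀ - Y) (x₀ + n * X + Y))) := fun i _ => hi.integrable.indicator measurableSet_Icc
  rw [Finset.sum_congr rfl h1, ← integral_finsetSum _ h2, ← integral_const_mul]
  refine integral_mono (integrable_finsetSum _ h2) (hi.integrable.const_mul _) fun x => ?_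
  have h3 : ∑ i ∈ Finset.range n, (Icc (x₀ + i * X - Y) (x₀ + i * X + Y)).indicator F x =
      (((Finset.range n).filter fun i : ℕ => x ∈ Icc (x₀ + i * X - Y) (x₀ + i * X + Y)).card : ℝ) * F x := by
    rw [← nsmul_eq_mul, ← Finset.sum_const, Finset.sum_filter]
    refine Finset.sum_congr rfl fun i _ => ?_
    rw [Set.indicator_apply]
  show ∑ i ∈ Finset.range n, (Icc (x₀ + i * X - Y) (x₀ + i * X + Y)).indicator F x ≤ (2 * Y / X + 1) * F x
  rw [h3]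
  exact mul_le_mul_of_nonneg_right (count86 n hX hY) (hF x)

theorem adj {F : ℝ → ℝ} {x₀ X : ℝ} (n : ℕ) (hX : 0 ≤ X) (hi : IntegrableOn F (Icc x₀ (x₀ + n * X))) :
    ∫ x in Icc x₀ (x₀ + n * X), F x = ∑ i ∈ Finset.range n, ∫ x in Icc (x₀ + i * X) (x₀ + i * X + X), F x := by
  have h1 : ∀ i ∈ Finset.range n, ∫ x in Icc (x₀ + i * X) (x₀ + i * X + X), F x =
      ∫ x in (x₀ + (i : ℕ) * X)..(x₀ + ((i + 1 : ℕ) : ℝ) * X), F x := by
    intro i _
    rw [integral_Icc_eq_integral_Ioc, intervalIntegral.integral_of_le (by push_cast; linarith)]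
    congr 3
    push_cast
    ring
  have h2 := intervalIntegral.sum_integral_adjacent_intervals (μ := volume) (f := F)
    (a := fun i : ℕ => x₀ + (i : ℝ) * X) (n := n) (fun k hk => by
      rw [intervalIntegrable_iff_integrableOn_Icc_of_le (by push_cast; linarith)]
      refine hi.mono_set (Icc_subset_Icc ?_ ?_)
      · have h3 : 0 ≤ (k : ℝ) * X := by positivity
        linarith
      · have h3 : ((k + 1 : ℕ) : ℝ) ≤ n := by exact_mod_cast hk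
        have h4 := mul_le_mul_of_nonneg_right h3 hX
        linarith)
  have h5 : 0 ≤ (n : ℝ) * X := by positivity
  rw [Finset.sum_congr rfl h1, h2, integral_Icc_eq_integral_Ioc]
  simp only [Nat.cast_zero, zero_mul, add_zero]
  rw [intervalIntegral.integral_of_le (by linarith)]

end Pool.Agent.Helper76.MM
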