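import Pool.Agent.Helper76.MM.A7
import Pool.Agent.Helper76.MM.B2

/-!
# MM-B3: coverings of rectangles by small rectangles
-/

open MeasureTheory Real Set Filter Topology

set_option autoImplicit false

namespace Pool.Agent.Helper76.MM

private theorem cover2_cont {F : ℝ → ℝ → ℝ} (hF : Continuous (fun q : ℝ × ℝ => F q.1 q.2)) {β₁ r₁ X X' : ℝ} (I J : ℕ) (hX : 0 ≤ X) (hX' : 0 ≤ X') :
    ∫ b in Icc β₁ (β₁ + J * X'), ∫ r in Icc r₁ (r₁ + I * X), F b r =
      ∑ j ∈ Finset.range J, ∑ i ∈ Finset.range I,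
        ∫ b in Icc (β₁ + j * X') (β₁ + j * X' + X'), ∫ r in Icc (r₁ + i * X) (r₁ + i * X + X), F b r := by
  have hs : ∀ b, Continuous (F b) := fun b => hF.comp (f := fun r : ℝ => (b, r)) (by fun_prop)
  have h1 := adj (F := fun b => ∫ r in Icc r₁ (r₁ + I * X), F b r) (x₀ := β₁) (X := X') J hX'
    ((inner_cont hF _ _).continuousOn.integrableOn_compact isCompact_Icc)
  rw [h1]
  refine Finset.sum_congr rfl fun j _ => ?_
  have h2 : ∀ b, ∫ r in Icc r₁ (r₁ + I * X), F b r = ∑ i ∈ Finset.range I, ∫ r in Icc (r₁ + i * X) (r₁ + i * X + X), F b r := fun b =>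
    adj I hX ((hs b).continuousOn.integrableOn_compact isCompact_Icc)
  simp only [h2]
  rw [integral_finsetSum]
  intro i _
  exact ((inner_cont hF _ _).continuousOn.integrableOn_compact isCompact_Icc)

private theorem overlap2_cont {F : ℝ → ℝ → ℝ} (hF : Continuous (fun q : ℝ × ℝ => F q.1 q.2)) (h0 : ∀ b r, 0 ≤ F b r) {β₁ r₁ X X' E E' : ℝ}
    (I J : ℕ) (hX : 0 < X) (hX' : 0 < X') (hE : 0 ≤ E) (hE' : 0 ≤ E') :
    ∑ j ∈ Finset.range J, ∑ i ∈ Finset.range I,
        ∫ b in Icc (β₁ + j * X' - E') (β₁ + j * X' + E'), ∫ r in Icc (r₁ + i * X - E) (r₁ + i * X + E), F b r ≤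
      (2 * E' / X' + 1) * ((2 * E / X + 1) *
        ∫ b in Icc (β₁ - E') (β₁ + J * X' + E'), ∫ r in Icc (r₁ - E) (r₁ + I * X + E), F b r) := by
  have hs : ∀ b, Continuous (F b) := fun b => hF.comp (f := fun r : ℝ => (b, r)) (by fun_prop)
  have hi : ∀ u v a b : ℝ, IntegrableOn (fun x => ∫ r in Icc u v, F x r) (Icc a b) := fun u v a b =>
    (inner_cont hF _ _).continuousOn.integrableOn_compact isCompact_Icc
  have h1 : ∀ j ∈ Finset.range J, ∑ i ∈ Finset.range I,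
        ∫ b in Icc (β₁ + j * X' - E') (β₁ + j * X' + E'), ∫ r in Icc (r₁ + i * X - E) (r₁ + i * X + E), F b r ≤
      ∫ b in Icc (β₁ + j * X' - E') (β₁ + j * X' + E'), (2 * E / X + 1) * ∫ r in Icc (r₁ - E) (r₁ + I * X + E), F b r := by
    intro j _
    rw [← integral_finsetSum _ fun i _ => hi _ _ _ _]
    refine setIntegral_mono_on (integrable_finset_sum _ fun i _ => hi _ _ _ _) ((hi _ _ _ _).const_mul _) measurableSet_Icc fun b _ => ?_
    exact overlap I hX hE (h0 b) ((hs b).continuousOn.integrableOn_compact isCompact_Icc)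
  refine (Finset.sum_le_sum h1).trans ?_
  have h2 := overlap (F := fun b => (2 * E / X + 1) * ∫ r in Icc (r₁ - E) (r₁ + I * X + E), F b r) (x₀ := β₁) (X := X') (Y := E') J hX' hE'
    (fun b => mul_nonneg (by positivity) (setIntegral_nonneg measurableSet_Icc fun r _ => h0 b r)) ((hi _ _ _ _).const_mul _)
  rw [integral_const_mul] at h2
  exact h2

theorem cover2 {f : ℝ → ℝ → ℝ} {β₁ r₁ X X' : ℝ} (I J : ℕ) (hX : 0 ≤ X) (hX' : 0 ≤ X')
    (hf : ContinuousOn (fun q : ℝ × ℝ => f q.1 q.2) (Icc β₁ (β₁ + J * X') ×ˢ Icc r₁ (r₁ + I * X))) :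
    ∫ b in Icc β₁ (β₁ + J * X'), ∫ r in Icc r₁ (r₁ + I * X), f b r =
      ∑ j ∈ Finset.range J, ∑ i ∈ Finset.range I,
        ∫ b in Icc (β₁ + j * X') (β₁ + j * X' + X'), ∫ r in Icc (r₁ + i * X) (r₁ + i * X + X), f b r := by
  obtain ⟨F, hF, hFe, -⟩ := ext2 (by have : 0 ≤ (J : ℝ) * X' := by positivity
                                     linarith) (by have : 0 ≤ (I : ℝ) * X := by positivity
                                                   linarith) hf
  have hcongr : ∀ {a b c d : ℝ}, β₁ ≤ a → b ≤ β₁ + J * X' → r₁ ≤ c → d ≤ r₁ + I * X →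
      ∫ b in Icc a b, ∫ r in Icc c d, f b r = ∫ b in Icc a b, ∫ r in Icc c d, F b r := by
    intro a b c d h1 h2 h3 h4
    refine setIntegral_congr_fun measurableSet_Icc fun y hy => ?_
    refine setIntegral_congr_fun measurableSet_Icc fun r hr => ?_
    exact (hFe y ⟨h1.trans hy.1, hy.2.trans h2⟩ r ⟨h3.trans hr.1, hr.2.trans h4⟩).symm
  rw [hcongr le_rfl le_rfl le_rfl le_rfl, cover2_cont hF I J hX hX']
  refine Finset.sum_congr rfl fun j hj => Finset.sum_congr rfl fun i hi => ?_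
  have hj' : (j : ℝ) + 1 ≤ J := by
    have := Finset.mem_range.1 hj
    exact_mod_cast this
  have hi' : (i : ℝ) + 1 ≤ I := by
    have := Finset.mem_range.1 hi
    exact_mod_cast this
  have e1 : 0 ≤ (j : ℝ) * X' := by positivity
  have e2 : 0 ≤ (i : ℝ) * X := by positivity
  have e3 : ((j : ℝ) + 1) * X' ≤ J * X' := mul_le_mul_of_nonneg_right hj' hX'
  have e4 : ((i : ℝ) + 1) * X ≤ I * X := mul_le_mul_of_nonneg_right hi' hX
  exact (hcongr (by linarith) (by linarith) (by linarith) (by linarith)).symm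

theorem overlap2 {f : ℝ → ℝ → ℝ} {β₁ r₁ X X' E E' : ℝ} (I J : ℕ) (hX : 0 < X) (hX' : 0 < X') (hE : 0 ≤ E) (hE' : 0 ≤ E')
    (hf : ContinuousOn (fun q : ℝ × ℝ => f q.1 q.2) (Icc (β₁ - E') (β₁ + J * X' + E') ×ˢ Icc (r₁ - E) (r₁ + I * X + E)))
    (h0 : ∀ b ∈ Icc (β₁ - E') (β₁ + J * X' + E'), ∀ r ∈ Icc (r₁ - E) (r₁ + I * X + E), 0 ≤ f b r) :
    ∑ j ∈ Finset.range J, ∑ i ∈ Finset.range I,
        ∫ b in Icc (β₁ + j * X' - E') (β₁ + j * X' + E'), ∫ r in Icc (r₁ + i * X - E) (r₁ + i * X + E), f b r ≤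
      (2 * E' / X' + 1) * ((2 * E / X + 1) *
        ∫ b in Icc (β₁ - E') (β₁ + J * X' + E'), ∫ r in Icc (r₁ - E) (r₁ + I * X + E), f b r) := by
  have hJ : 0 ≤ (J : ℝ) * X' := by positivity
  have hI : 0 ≤ (I : ℝ) * X := by positivity
  obtain ⟨F, hF, hFe, hFv⟩ := ext2 (by linarith) (by linarith) hf
  have hF0 : ∀ b r, 0 ≤ F b r := by
    intro b r
    obtain ⟨b', hb', r', hr', e⟩ := hFv b r
    rw [e]
    exact h0 b' hb' r' hr'
  have hcongr : ∀ {a b c d : ℝ}, β₁ - E' ≤ a → b ≤ β₁ + J * X' + E' → r₁ - E ≤ c → d ≤ r₁ + I * X + E →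
      ∫ b in Icc a b, ∫ r in Icc c d, f b r = ∫ b in Icc a b, ∫ r in Icc c d, F b r := by
    intro a b c d h1 h2 h3 h4
    refine setIntegral_congr_fun measurableSet_Icc fun y hy => ?_
    refine setIntegral_congr_fun measurableSet_Icc fun r hr => ?_
    exact (hFe y ⟨h1.trans hy.1, hy.2.trans h2⟩ r ⟨h3.trans hr.1, hr.2.trans h4⟩).symm
  rw [hcongr le_rfl le_rfl le_rfl le_rfl]
  refine le_trans (le_of_eq ?_) (overlap2_cont hF hF0 I J hX hX' hE hE')
  refine Finset.sum_congr rfl fun j hj => Finset.sum_congr rfl fun i hi => ?_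
  have hj' : (j : ℝ) + 1 ≤ J := by
    have := Finset.mem_range.1 hj
    exact_mod_cast this
  have hi' : (i : ℝ) + 1 ≤ I := by
    have := Finset.mem_range.1 hi
    exact_mod_cast this
  have e1 : 0 ≤ (j : ℝ) * X' := by positivity
  have e2 : 0 ≤ (i : ℝ) * X := by positivity
  have e3 : ((j : ℝ) + 1) * X' ≤ J * X' := mul_le_mul_of_nonneg_right hj' hX'.le
  have e4 : ((i : ℝ) + 1) * X ≤ I * X := mul_le_mul_of_nonneg_right hi' hX.le
  exact hcongr (by linarith) (by linarith) (by linarith) (by linarith)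

end Pool.Agent.Helper76.MM
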