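import Pool.Agent.Helper76.MM.B1
import Pool.Agent.Helper76.MM.B3

/-!
# MM-B4: one step of the decoupling on a rectangle

`X = (M^(s₀+m))³ / H`, `ρ` with `10^8 X H^δ ≤ ρ T`, `ρ ≤ 1/1000`.
PROOF. `I = ⌈(r₂ - r₁)/X⌉₊ + 1`, `J = ⌈(β₂ - β₁) T/X⌉₊ + 1` boxes `(r₁ + i X, β₁ + j X/T)`, `i < I`, `j < J`; they cover the rectangle (`tf ≥ 0`, `adj` in both variables; the integrands are continuous on `|b - b₀| ≤ 1/50`, where `uu b k > 0` for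
`k ∈ S ⊆ reg b₀ H`: `uu b k = uu b₀ k (1 + (b - b₀) tt b₀ k)`): `TT S .. ≤ ∑_{i,j} TT S (box i j)`. `one_box` for every box (`|b₁ - b₀| ≤ 1/56 + 2X/T ≤ 1/55`, `r₁ ≤ 3T + 2X ≤ 4T`), `mink`, and `overlap` in both variables
(`∑_{i,j} TT S_r (near i j) ≤ (2·10^6 H^δ + 1)(2·10^4 H^δ + 1) TT S_r (enlarged)`, `I X ≤ r₂ - r₁ + 2X`...). The number of boxes is `≤ (4TH)(4TH) ≤ 16 H^(2B+2)`, so the sum of the constants is `≤ 16 C₁`, `K = 16 C₁`.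
Finally `(x + K)^(1/6) ≤ x^(1/6) + K^(1/6)` and `K^(1/6) ≤ ∑_r (.. + K)^(1/6)` (there is at least one `r`).
-/

open MeasureTheory Real Set Filter Topology

set_option autoImplicit false

namespace Pool.Agent.Helper76.MM

open Pool.Agent.Helper22.AE
open Pool.Agent.Helper92.GC
open Pool.Agent.Helper92.DT (m12)
open Pool.Agent.Helper78.CE (p2 p3 hs mu2 InReg)
open Pool.Agent.Helper22.AC (IsWt)

private lemma arc_sub_b4 {β : ℝ} {S : Finset (ℤ × ℤ)} {N j : ℕ} : arc β S N j ⊆ S := by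
  classical
  unfold arc
  exact Finset.filter_subset _ _

private lemma hpos_b4 {b₀ H : ℝ} (hH : 0 < H) {S : Finset (ℤ × ℤ)} (hS : S ⊆ reg b₀ H) {β₁ β₂ : ℝ} (h1 : b₀ - 1 / 50 ≤ β₁)
    (h2 : β₂ ≤ b₀ + 1 / 50) : ∀ k ∈ S, ∀ b ∈ Icc β₁ β₂, uu b k ≠ 0 := by
  intro k hk b hb
  exact (uu_pos hH (by rw [abs_le]; constructor <;> linarith [hb.1, hb.2]) (hS hk)).ne'

private lemma lhs_b4 {b₀ H : ℝ} (hH : 0 < H) {S : Finset (ℤ × ℤ)} (hS : S ⊆ reg b₀ H) (a : ℤ × ℤ → ℂ) {β₁ r₁ X X' : ℝ} (I J : ℕ) (hX : 0 ≤ X)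
    (hX' : 0 ≤ X') (h1 : b₀ - 1 / 50 ≤ β₁) (h2 : β₁ + J * X' ≤ b₀ + 1 / 50) :
    TT S a r₁ (r₁ + I * X) β₁ (β₁ + J * X') = ∑ p ∈ Finset.range J ×ˢ Finset.range I,
      TT S a (r₁ + p.2 * X) (r₁ + p.2 * X + X) (β₁ + p.1 * X') (β₁ + p.1 * X' + X') := by
  rw [Finset.sum_product]
  exact cover2 (f := fun b r => tf S a r b) I J hX hX' (TT_contOn a (hpos_b4 hH hS h1 h2))

private lemma rhs_b4 {b₀ H : ℝ} (hH : 0 < H) {S : Finset (ℤ × ℤ)} (hS : S ⊆ reg b₀ H) (a : ℤ × ℤ → ℂ) {β₁ r₁ X X' E E' κ : ℝ} (I J : ℕ)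
    (hX : 0 < X) (hX' : 0 < X') (hE : 0 ≤ E) (hE' : 0 ≤ E') (h1 : b₀ - 1 / 50 ≤ β₁ - E') (h2 : β₁ + J * X' + E' ≤ b₀ + 1 / 50) :
    ∑ p ∈ Finset.range J ×ˢ Finset.range I,
      (TT S a (r₁ + p.2 * X - E) (r₁ + p.2 * X + E) (β₁ + p.1 * X' - E') (β₁ + p.1 * X' + E') + κ) ≤
      (2 * E' / X' + 1) * ((2 * E / X + 1) * TT S a (r₁ - E) (r₁ + I * X + E) (β₁ - E') (β₁ + J * X' + E')) + J * I * κ := by
  rw [Finset.sum_add_distrib, Finset.sum_const, Finset.card_product, Finset.card_range, Finset.card_range, nsmul_eq_mul,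
    Finset.sum_product]
  have h3 := overlap2 (f := fun b r => tf S a r b) (β₁ := β₁) (r₁ := r₁) I J hX hX' hE hE' (TT_contOn a (hpos_b4 hH hS h1 h2))
    (fun b _ r _ => tf_nonneg _ _ _ _)
  push_cast
  exact add_le_add h3 le_rfl

private lemma count_b4 {L X : ℝ} (hL : 0 ≤ L) (hX : 0 < X) :
    ∃ I : ℕ, L ≤ I * X ∧ (I : ℝ) * X ≤ L + 2 * X ∧ (∀ i < I, (i : ℝ) * X ≤ L + X) ∧ (I : ℝ) ≤ L / X + 2 := by
  have h1 := Nat.le_ceil (L / X)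
  have h2 := (Nat.ceil_lt_add_one (a := L / X) (div_nonneg hL hX.le)).le
  rw [div_le_iff₀ hX] at h1
  have h3 : (⌈L / X⌉₊ : ℝ) * X ≤ (L / X + 1) * X := mul_le_mul_of_nonneg_right h2 hX.le
  rw [add_mul, div_mul_cancel₀ _ hX.ne'] at h3
  refine ⟨⌈L / X⌉₊ + 1, ?_, ?_, ?_, ?_⟩
  · push_cast
    linarith
  · push_cast
    linarith
  · intro i hi
    have h4 : (i : ℝ) ≤ ⌈L / X⌉₊ := by
      have : i ≤ ⌈L / X⌉₊ := by omega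
      exact_mod_cast this
    have h5 : (i : ℝ) * X ≤ ⌈L / X⌉₊ * X := mul_le_mul_of_nonneg_right h4 hX.le
    linarith
  · push_cast
    linarith

private lemma sixth_b4 {g Y : ℝ} (hg : 0 ≤ g) (hY : 0 ≤ Y) : ((100 * g) ^ 6 * Y) ^ (1 / 6 : ℝ) = 100 * g * Y ^ (1 / 6 : ℝ) := by
  rw [mul_rpow (by positivity) hY]
  congr 1
  rw [← rpow_natCast (100 * g) 6, ← rpow_mul (by positivity)]
  norm_num

theorem step {ε : ℝ} (hε : 0 < ε) : ∃ M : ℕ, 36 ≤ M ∧ ∃ C : ℝ, 1 ≤ C ∧ ∀ δ B : ℝ, 0 < δ → ∃ K : ℝ, 1 ≤ K ∧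
    ∀ (m s₀ j₀ : ℕ) (b₀ H T ρ r₁ r₂ β₁ β₂ : ℝ) (a : ℤ × ℤ → ℂ) (S : Finset (ℤ × ℤ)), 1 ≤ H → H ≤ T → T ≤ H ^ B → |b₀| ≤ 1 / 2 →
      b₀ - 1 / 56 ≤ β₁ → β₁ ≤ β₂ → β₂ ≤ b₀ + 1 / 56 → T / 2 ≤ r₁ → r₁ ≤ r₂ → r₂ ≤ 3 * T → (∀ k, ‖a k‖ ≤ 1) →
      S ⊆ arc b₀ (reg b₀ H) (M ^ s₀) j₀ →
      (∀ b : ℝ, |b - b₀| ≤ 1 / 55 → ∀ k ∈ S, ∀ k' ∈ S, |uu b k - uu b k'| ≤ (1 / (M : ℝ)) ^ (3 * m + 3) * H) →
      10 ^ 14 * ((M : ℝ) ^ (2 * s₀ + 6 * m) * H ^ (2 * δ)) ≤ H * T → 10 ^ 8 * ((M : ℝ) ^ (3 * (s₀ + m)) * H ^ δ) ≤ ρ * (H * T) → ρ ≤ 1 / 1000 →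
      (TT S a r₁ r₂ β₁ β₂ + K) ^ (1 / 6 : ℝ) ≤ C * H ^ δ * (M : ℝ) ^ (ε * m) * ∑ r ∈ Finset.range (M ^ m),
        (TT (arc b₀ S (M ^ (s₀ + m)) (M ^ m * j₀ + r)) a (r₁ - ρ * T) (r₂ + ρ * T) (β₁ - ρ) (β₂ + ρ) + K) ^ (1 / 6 : ℝ) := by
  obtain ⟨M, hM, C, hC, hbox⟩ := one_box hε
  refine ⟨M, hM, 101 * C, by linarith, fun δ B hδ => ?_⟩
  obtain ⟨C₁, hC₁, hb1⟩ := hbox δ B hδ
  refine ⟨16 * C₁, by linarith, ?_⟩
  intro m s₀ j₀ b₀ H T ρ r₁ r₂ β₁ β₂ a S hH hHT hTB hb₀ hβ1 hβ hβ2 hr1 hr hr2 ha hS hslab hc1 hc2 hρ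
  have hH0 : 0 < H := by linarith
  have hT : 0 < T := by linarith
  have hMr : (36 : ℝ) ≤ M := by exact_mod_cast hM
  have hM0 : (0 : ℝ) < M := by linarith
  have hM1 : (1 : ℝ) ≤ M := by linarith
  have hSreg : S ⊆ reg b₀ H := hS.trans arc_sub_b4
  obtain ⟨N, hN⟩ : ∃ N : ℝ, N = (M : ℝ) ^ (s₀ + m) := ⟨_, rfl⟩
  have hN1 : 1 ≤ N := by
    rw [hN]
    exact one_le_pow₀ hM1
  have hN3 : 1 ≤ N ^ 3 := one_le_pow₀ hN1
  obtain ⟨X, hX⟩ : ∃ X : ℝ, X = N ^ 3 / H := ⟨_, rfl⟩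
  have hX0 : 0 < X := by
    rw [hX]
    positivity
  have hHX : H * X = N ^ 3 := by
    rw [hX]
    field_simp
  obtain ⟨g, hg⟩ : ∃ g : ℝ, g = H ^ δ := ⟨_, rfl⟩
  have hg1 : 1 ≤ g := by
    rw [hg]
    exact one_le_rpow hH hδ.le
  have hg0 : 0 < g := by linarith
  have hg2 : H ^ (2 * δ) = g ^ 2 := by
    rw [hg, ← rpow_natCast (H ^ δ) 2, ← rpow_mul hH0.le]
    congr 1
    push_cast
    ring
  rw [hg2] at hc1
  rw [← hg] at hc2 ⊢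
  -- the size of `X`
  have hXg : 10 ^ 8 * (X * g) ≤ ρ * T := by
    have e : (M : ℝ) ^ (3 * (s₀ + m)) = H * X := by
      rw [hHX, hN, ← pow_mul]
      congr 1
      ring
    rw [e] at hc2
    refine le_of_mul_le_mul_left ?_ hH0
    calc H * (10 ^ 8 * (X * g)) = 10 ^ 8 * (H * X * g) := by ring
      _ ≤ ρ * (H * T) := hc2
      _ = H * (ρ * T) := by ring
  have hXXg : X ≤ X * g := le_mul_of_one_le_right hX0.le hg1
  have hρT : ρ * T ≤ T / 1000 := by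
    have := mul_le_mul_of_nonneg_right hρ hT.le
    linarith
  have hXg0 : 0 < X * g := mul_pos hX0 hg0
  obtain ⟨X', hX'⟩ : ∃ X' : ℝ, X' = X / T := ⟨_, rfl⟩
  have hX'0 : 0 < X' := by
    rw [hX']
    exact div_pos hX0 hT
  have hXg' : 10 ^ 8 * (X * g / T) ≤ ρ := by
    have h1 : 10 ^ 8 * (X * g / T) = (10 ^ 8 * (X * g)) / T := by ring
    rw [h1, div_le_iff₀ hT]
    exact hXg
  have hX'g : X' ≤ X * g / T := by
    rw [hX']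
    exact div_le_div_of_nonneg_right hXXg hT.le
  have hXgT0 : 0 < X * g / T := div_pos hXg0 hT
  -- the numbers of boxes
  obtain ⟨I, hI1, hI2, hI3, hI4⟩ := count_b4 (L := r₂ - r₁) (by linarith) hX0
  obtain ⟨J, hJ1, hJ2, hJ3, hJ4⟩ := count_b4 (L := β₂ - β₁) (by linarith) hX'0
  -- the left hand side
  have hL : TT S a r₁ r₂ β₁ β₂ ≤ ∑ p ∈ Finset.range J ×ˢ Finset.range I,
      TT S a (r₁ + p.2 * X) (r₁ + p.2 * X + X) (β₁ + p.1 * X') (β₁ + p.1 * X' + X') := by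
    rw [← lhs_b4 hH0 hSreg a I J hX0.le hX'0.le (by linarith) (by linarith)]
    exact TT_mono a (hpos_b4 hH0 hSreg (by linarith) (by linarith)) le_rfl (by linarith) le_rfl (by linarith)
  -- the single boxes
  have hbx : ∀ p ∈ Finset.range J ×ˢ Finset.range I,
      TT S a (r₁ + p.2 * X) (r₁ + p.2 * X + X) (β₁ + p.1 * X') (β₁ + p.1 * X' + X') ^ (1 / 6 : ℝ) ≤
        C * (M : ℝ) ^ (ε * m) * ∑ r ∈ Finset.range (M ^ m),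
        (TT (arc b₀ S (M ^ (s₀ + m)) (M ^ m * j₀ + r)) a (r₁ + p.2 * X - 10 ^ 6 * (X * g)) (r₁ + p.2 * X + 10 ^ 6 * (X * g))
          (β₁ + p.1 * X' - 10 ^ 4 * (X * g) / T) (β₁ + p.1 * X' + 10 ^ 4 * (X * g) / T) + C₁ * H ^ (-(2 * B + 2))) ^ (1 / 6 : ℝ) := by
    intro p hp
    rw [Finset.mem_product, Finset.mem_range, Finset.mem_range] at hp
    have h1 := hJ3 p.1 hp.1
    have h2 := hI3 p.2 hp.2
    have h3 : 0 ≤ (p.1 : ℝ) * X' := by positivity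
    have h4 : 0 ≤ (p.2 : ℝ) * X := by positivity
    have hb : |β₁ + p.1 * X' - b₀| ≤ 1 / 55 := by
      rw [abs_le]
      constructor
      · linarith
      · have : X' ≤ 1 / 10 ^ 5 := by linarith
        norm_num at this ⊢
        linarith
    have h5 := hb1 m s₀ j₀ b₀ (β₁ + p.1 * X') H T X (r₁ + p.2 * X) a S hH hHT hTB hb₀ hb (by linarith) (by linarith) ha hS
      (fun k hk k' hk' => hslab _ hb k hk k' hk') (by rw [← hN, hHX]; linarith) (by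
        rw [hg2]
        refine le_of_mul_le_mul_left ?_ hH0
        have e1 : H * (10 ^ 14 * (X ^ 2 * H * g ^ 2)) = 10 ^ 14 * ((H * X) ^ 2 * g ^ 2) := by ring
        have e2 : (M : ℝ) ^ (2 * s₀ + 6 * m) * ((M : ℝ) ^ s₀) ^ 4 = (N ^ 3) ^ 2 := by
          rw [hN, ← pow_mul, ← pow_mul, ← pow_mul, ← pow_add]
          congr 1
          ring
        rw [e1, hHX, ← e2]
        calc 10 ^ 14 * ((M : ℝ) ^ (2 * s₀ + 6 * m) * ((M : ℝ) ^ s₀) ^ 4 * g ^ 2)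
            = 10 ^ 14 * ((M : ℝ) ^ (2 * s₀ + 6 * m) * g ^ 2) * ((M : ℝ) ^ s₀) ^ 4 := by ring
          _ ≤ H * T * ((M : ℝ) ^ s₀) ^ 4 := mul_le_mul_of_nonneg_right hc1 (by positivity)
          _ = H * (T * ((M : ℝ) ^ s₀) ^ 4) := by ring) (by rw [← hg]; linarith)
    rw [← hg, ← hX'] at h5
    exact h5
  -- Minkowski
  have hTTn : ∀ (S : Finset (ℤ × ℤ)) (r₁ r₂ β₁ β₂ : ℝ), 0 ≤ TT S a r₁ r₂ β₁ β₂ := fun S r₁ r₂ β₁ β₂ => TT_nonneg S a r₁ r₂ β₁ β₂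
  have hκ : 0 ≤ C₁ * H ^ (-(2 * B + 2)) := by positivity
  obtain ⟨G, hG⟩ : ∃ G : ℝ, G = (M : ℝ) ^ (ε * m) := ⟨_, rfl⟩
  have hG1 : 1 ≤ G := by
    rw [hG]
    exact one_le_rpow hM1 (by positivity)
  rw [← hG] at hbx ⊢
  have hmk := mink (Finset.range J ×ˢ Finset.range I) (Finset.range (M ^ m))
    (fun p => TT S a (r₁ + p.2 * X) (r₁ + p.2 * X + X) (β₁ + p.1 * X') (β₁ + p.1 * X' + X'))
    (fun r p => TT (arc b₀ S (M ^ (s₀ + m)) (M ^ m * j₀ + r)) a (r₁ + p.2 * X - 10 ^ 6 * (X * g)) (r₁ + p.2 * X + 10 ^ 6 * (X * g))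
          (β₁ + p.1 * X' - 10 ^ 4 * (X * g) / T) (β₁ + p.1 * X' + 10 ^ 4 * (X * g) / T) + C₁ * H ^ (-(2 * B + 2)))
    (D := C * G) (by positivity) (fun p _ => hTTn _ _ _ _ _) (fun r _ p _ => add_nonneg (hTTn _ _ _ _ _) hκ) hbx
  -- the sum of the constants
  have hcst : (J : ℝ) * I * (C₁ * H ^ (-(2 * B + 2))) ≤ 15 * C₁ := by
    have hTH : 1 ≤ T * H := by nlinarith
    have hXi : 1 ≤ H * X := by
      rw [hHX]
      exact hN3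
    have h1 : (I : ℝ) ≤ 5 * (T * H) := by
      have h2 : (r₂ - r₁) / X ≤ 5 / 2 * (T * H) := by
        rw [div_le_iff₀ hX0]
        have h3 : 5 / 2 * T * 1 ≤ 5 / 2 * T * (H * X) := mul_le_mul_of_nonneg_left hXi (by positivity)
        linarith
      linarith
    have h2 : (J : ℝ) ≤ 3 * (T * H) := by
      have h3 : (β₂ - β₁) / X' ≤ T * H := by
        rw [div_le_iff₀ hX'0, hX']
        have h4 : T * H * (X / T) = H * X := by field_simp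
        rw [h4]
        linarith
      linarith
    have h3 : (J : ℝ) * I ≤ 15 * (T * H) ^ 2 := by
      calc (J : ℝ) * I ≤ 3 * (T * H) * (5 * (T * H)) := mul_le_mul h2 h1 (Nat.cast_nonneg _) (by positivity)
        _ = _ := by ring
    have h4 : (T * H) ^ 2 * H ^ (-(2 * B + 2)) ≤ 1 := by
      have h5 : (T * H) ^ 2 ≤ H ^ (2 * B + 2) := by
        have h6 : H ^ (2 * B + 2) = (H ^ B * H) ^ 2 := by
          rw [mul_pow, ← rpow_natCast (H ^ B) 2, ← rpow_mul hH0.le, ← rpow_natCast H 2, ← rpow_add hH0]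
          congr 1
          push_cast
          ring
        rw [h6]
        exact pow_le_pow_left₀ (by positivity) (mul_le_mul_of_nonneg_right hTB hH0.le) 2
      rw [rpow_neg hH0.le, ← div_eq_mul_inv, div_le_one (by positivity)]
      exact h5
    calc (J : ℝ) * I * (C₁ * H ^ (-(2 * B + 2))) ≤ 15 * (T * H) ^ 2 * (C₁ * H ^ (-(2 * B + 2))) := mul_le_mul_of_nonneg_right h3 hκ
      _ = 15 * C₁ * ((T * H) ^ 2 * H ^ (-(2 * B + 2))) := by ring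
      _ ≤ 15 * C₁ * 1 := mul_le_mul_of_nonneg_left h4 (by positivity)
      _ = 15 * C₁ := mul_one _
  -- every arc
  have harc : ∀ r ∈ Finset.range (M ^ m), (∑ p ∈ Finset.range J ×ˢ Finset.range I,
      (TT (arc b₀ S (M ^ (s₀ + m)) (M ^ m * j₀ + r)) a (r₁ + p.2 * X - 10 ^ 6 * (X * g)) (r₁ + p.2 * X + 10 ^ 6 * (X * g))
          (β₁ + p.1 * X' - 10 ^ 4 * (X * g) / T) (β₁ + p.1 * X' + 10 ^ 4 * (X * g) / T) + C₁ * H ^ (-(2 * B + 2)))) ^ (1 / 6 : ℝ) ≤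
      100 * g * (TT (arc b₀ S (M ^ (s₀ + m)) (M ^ m * j₀ + r)) a (r₁ - ρ * T) (r₂ + ρ * T) (β₁ - ρ) (β₂ + ρ) + 16 * C₁) ^ (1 / 6 : ℝ) := by
    intro r _
    obtain ⟨S', hS'⟩ : ∃ S', S' = arc b₀ S (M ^ (s₀ + m)) (M ^ m * j₀ + r) := ⟨_, rfl⟩
    rw [← hS']
    have hS'reg : S' ⊆ reg b₀ H := by
      rw [hS']
      exact arc_sub_b4.trans hSreg
    obtain ⟨Y, hY⟩ : ∃ Y, Y = TT S' a (r₁ - ρ * T) (r₂ + ρ * T) (β₁ - ρ) (β₂ + ρ) := ⟨_, rfl⟩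
    rw [← hY]
    have hY0 : 0 ≤ Y := by
      rw [hY]
      exact hTTn _ _ _ _ _
    rw [← sixth_b4 hg0.le (by linarith : 0 ≤ Y + 16 * C₁)]
    refine rpow_le_rpow (Finset.sum_nonneg fun p _ => add_nonneg (hTTn _ _ _ _ _) hκ) ?_ (by norm_num)
    have hE' : 10 ^ 4 * (X * g) / T = 10 ^ 4 * (X * g / T) := by ring
    rw [hE']
    refine (rhs_b4 hH0 hS'reg a I J hX0 hX'0 (by positivity) (by positivity) (by linarith) (by linarith)).trans ?_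
    have h1 : TT S' a (r₁ - 10 ^ 6 * (X * g)) (r₁ + I * X + 10 ^ 6 * (X * g)) (β₁ - 10 ^ 4 * (X * g / T)) (β₁ + J * X' + 10 ^ 4 * (X * g / T)) ≤ Y := by
      rw [hY]
      exact TT_mono a (hpos_b4 hH0 hS'reg (by linarith) (by linarith)) (by linarith) (by linarith) (by linarith) (by linarith)
    have h2 : 2 * (10 ^ 4 * (X * g / T)) / X' + 1 ≤ 3 * 10 ^ 4 * g := by
      have : 2 * (10 ^ 4 * (X * g / T)) / X' = 2 * 10 ^ 4 * g := by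
        rw [hX']
        field_simp
      rw [this]
      linarith
    have h3 : 2 * (10 ^ 6 * (X * g)) / X + 1 ≤ 3 * 10 ^ 6 * g := by
      have : 2 * (10 ^ 6 * (X * g)) / X = 2 * 10 ^ 6 * g := by
        field_simp
      rw [this]
      linarith
    have h4 : (2 * (10 ^ 6 * (X * g)) / X + 1) *
        TT S' a (r₁ - 10 ^ 6 * (X * g)) (r₁ + I * X + 10 ^ 6 * (X * g)) (β₁ - 10 ^ 4 * (X * g / T)) (β₁ + J * X' + 10 ^ 4 * (X * g / T)) ≤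
        3 * 10 ^ 6 * g * Y := mul_le_mul h3 h1 (hTTn _ _ _ _ _) (by positivity)
    have h5 : (2 * (10 ^ 4 * (X * g / T)) / X' + 1) * ((2 * (10 ^ 6 * (X * g)) / X + 1) *
        TT S' a (r₁ - 10 ^ 6 * (X * g)) (r₁ + I * X + 10 ^ 6 * (X * g)) (β₁ - 10 ^ 4 * (X * g / T)) (β₁ + J * X' + 10 ^ 4 * (X * g / T))) ≤
        3 * 10 ^ 4 * g * (3 * 10 ^ 6 * g * Y) :=
      mul_le_mul h2 h4 (mul_nonneg (by positivity) (hTTn _ _ _ _ _)) (by positivity)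
    have h6 : g ^ 2 ≤ g ^ 6 := pow_le_pow_right₀ hg1 (by norm_num)
    have h7 : (1 : ℝ) ≤ g ^ 6 := one_le_pow₀ hg1
    have h8 : 3 * 10 ^ 4 * g * (3 * 10 ^ 6 * g * Y) ≤ (100 * g) ^ 6 * Y := by
      have h9 : g ^ 2 * Y ≤ g ^ 6 * Y := mul_le_mul_of_nonneg_right h6 hY0
      have h10 : 0 ≤ g ^ 2 * Y := by positivity
      calc 3 * 10 ^ 4 * g * (3 * 10 ^ 6 * g * Y) = 9 * 10 ^ 10 * (g ^ 2 * Y) := by ring
        _ ≤ 10 ^ 12 * (g ^ 6 * Y) := by linarith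
        _ = _ := by ring
    have h9 : 15 * C₁ ≤ (100 * g) ^ 6 * (16 * C₁) := by
      have h10 : C₁ * 1 ≤ C₁ * g ^ 6 := mul_le_mul_of_nonneg_left h7 (by linarith)
      calc 15 * C₁ ≤ 16 * 10 ^ 12 * (C₁ * g ^ 6) := by linarith
        _ = _ := by ring
    rw [mul_add ((100 * g) ^ 6) Y]
    linarith
  -- conclusion
  have hKs : (16 * C₁) ^ (1 / 6 : ℝ) ≤ ∑ r ∈ Finset.range (M ^ m),
      (TT (arc b₀ S (M ^ (s₀ + m)) (M ^ m * j₀ + r)) a (r₁ - ρ * T) (r₂ + ρ * T) (β₁ - ρ) (β₂ + ρ) + 16 * C₁) ^ (1 / 6 : ℝ) := by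
    have h0 : 0 ∈ Finset.range (M ^ m) := Finset.mem_range.2 (by positivity)
    refine le_trans ?_ (Finset.single_le_sum (f := fun r => (TT (arc b₀ S (M ^ (s₀ + m)) (M ^ m * j₀ + r)) a (r₁ - ρ * T) (r₂ + ρ * T) (β₁ - ρ) (β₂ + ρ) +
      16 * C₁) ^ (1 / 6 : ℝ)) (fun r _ => rpow_nonneg (add_nonneg (hTTn _ _ _ _ _) (by linarith)) _) h0)
    exact rpow_le_rpow (by linarith) (by linarith [hTTn (arc b₀ S (M ^ (s₀ + m)) (M ^ m * j₀ + 0)) (r₁ - ρ * T) (r₂ + ρ * T) (β₁ - ρ) (β₂ + ρ)]) (by norm_num)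
  obtain ⟨Sg, hSg⟩ : ∃ s : ℝ, s = ∑ r ∈ Finset.range (M ^ m),
      (TT (arc b₀ S (M ^ (s₀ + m)) (M ^ m * j₀ + r)) a (r₁ - ρ * T) (r₂ + ρ * T) (β₁ - ρ) (β₂ + ρ) + 16 * C₁) ^ (1 / 6 : ℝ) := ⟨_, rfl⟩
  have hsum := Finset.sum_le_sum harc
  rw [← Finset.mul_sum, ← hSg] at hsum
  rw [← hSg] at hKs ⊢
  have hSg0 : 0 ≤ Sg := le_trans (rpow_nonneg (by linarith) _) hKs
  have hCG : 0 ≤ C * G := by positivity
  calc (TT S a r₁ r₂ β₁ β₂ + 16 * C₁) ^ (1 / 6 : ℝ)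
      ≤ TT S a r₁ r₂ β₁ β₂ ^ (1 / 6 : ℝ) + (16 * C₁) ^ (1 / 6 : ℝ) :=
        rpow_add_le_add_rpow (hTTn _ _ _ _ _) (by linarith) (by norm_num) (by norm_num)
    _ ≤ (∑ p ∈ Finset.range J ×ˢ Finset.range I,
          TT S a (r₁ + p.2 * X) (r₁ + p.2 * X + X) (β₁ + p.1 * X') (β₁ + p.1 * X' + X')) ^ (1 / 6 : ℝ) + Sg :=
        add_le_add (rpow_le_rpow (hTTn _ _ _ _ _) hL (by norm_num)) hKs
    _ ≤ C * G * (100 * g * Sg) + Sg := by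
        refine add_le_add (hmk.trans (mul_le_mul_of_nonneg_left hsum hCG)) le_rfl
    _ ≤ 101 * C * g * G * Sg := by
        have h1 : 1 ≤ C * G * g := one_le_mul_of_one_le_of_one_le (one_le_mul_of_one_le_of_one_le hC hG1) hg1
        have h2 := mul_le_mul_of_nonneg_right h1 hSg0
        have h3 : C * G * (100 * g * Sg) = 100 * (C * G * g * Sg) := by ring
        have h4 : 101 * C * g * G * Sg = 101 * (C * G * g * Sg) := by ring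
        rw [h3, h4]
        linarith

end Pool.Agent.Helper76.MM
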