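import Pool.Agent.Helper76.MM.B4
import Pool.Agent.Helper22.AC.A0

/-!
# MM-C1: iteration

PROOF. `M`, `C`, `K` from `step`. Induction on `n` (all other quantities universally quantified, in particular `r₁ r₂ β₁ β₂`; it is convenient to prove for `i ≤ n` the statement with `i` steps). Step `i → i + 1`: apply `step` with `s₀ + i m` to every arc
`arc b₀ S (M^(s₀ + i m)) (M^(i m) j₀ + r)` and the rectangle enlarged `i` times (`1/57 + i ρ ≤ 1/56` since `n ρ ≤ 1/4000`; `T - T/4000 ≥ T/2`); an arc of an arc: `arc b₀ (arc b₀ S N j) (N M^m) (M^m j + r) = arc b₀ S (N M^m) (M^m j + r)`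
(`⌊N x⌋₊ = ⌊N M^m x⌋₊ / M^m`, compare `gs_split`, GC.T3; all `k ∈ reg b₀ H` have `(tt + 6)/12 ≥ 0`). Regroup with `sum_range_mul'` (AC.A0). The hypotheses for `n` imply those of every step.
-/

open MeasureTheory Real Set Filter Topology

set_option autoImplicit false

namespace Pool.Agent.Helper76.MM

open Pool.Agent.Helper22.AE
open Pool.Agent.Helper92.GC
open Pool.Agent.Helper92.DT (m12)
open Pool.Agent.Helper78.CE (p2 p3 hs mu2 InReg)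
open Pool.Agent.Helper22.AC (IsWt)

private theorem mem_arc92 {β : ℝ} {S : Finset (ℤ × ℤ)} {N j : ℕ} {k : ℤ × ℤ} :
    k ∈ arc β S N j ↔ k ∈ S ∧ ⌊(N : ℝ) * ((tt β k + 6) / 12)⌋₊ = j := by
  classical
  unfold arc
  rw [Finset.mem_filter]

private theorem arc_arc92 {β : ℝ} {S : Finset (ℤ × ℤ)} {N j M r : ℕ} (hM : 1 ≤ M) (hr : r < M) :
    arc β (arc β S N j) (N * M) (M * j + r) = arc β S (N * M) (M * j + r) := by
  have hfl : ∀ k : ℤ × ℤ, ⌊(N : ℝ) * ((tt β k + 6) / 12)⌋₊ =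
      ⌊((N * M : ℕ) : ℝ) * ((tt β k + 6) / 12)⌋₊ / M := by
    intro k
    rw [← Nat.floor_div_natCast]
    congr 1
    have : (M : ℝ) ≠ 0 := by
      have : (0 : ℝ) < M := by exact_mod_cast hM
      exact this.ne'
    push_cast
    field_simp
  ext k
  rw [mem_arc92, mem_arc92, mem_arc92, hfl k]
  constructor
  · rintro ⟨⟨h1, _⟩, h3⟩
    exact ⟨h1, h3⟩
  · rintro ⟨h1, h2⟩
    refine ⟨⟨h1, ?_⟩, h2⟩
    rw [h2, Nat.mul_add_div (by omega), Nat.div_eq_of_lt hr, add_zero]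

theorem iter {ε : ℝ} (hε : 0 < ε) : ∃ M : ℕ, 36 ≤ M ∧ ∃ C : ℝ, 1 ≤ C ∧ ∀ δ B : ℝ, 0 < δ → ∃ K : ℝ, 1 ≤ K ∧
    ∀ (n m s₀ j₀ : ℕ) (b₀ H T ρ r₁ r₂ β₁ β₂ : ℝ) (a : ℤ × ℤ → ℂ) (S : Finset (ℤ × ℤ)), 1 ≤ H → H ≤ T → T ≤ H ^ B → |b₀| ≤ 1 / 2 →
      b₀ - 1 / 57 ≤ β₁ → β₁ ≤ β₂ → β₂ ≤ b₀ + 1 / 57 → T ≤ r₁ → r₁ ≤ r₂ → r₂ ≤ 2 * T → (∀ k, ‖a k‖ ≤ 1) →
      S ⊆ arc b₀ (reg b₀ H) (M ^ s₀) j₀ →
      (∀ b : ℝ, |b - b₀| ≤ 1 / 55 → ∀ k ∈ S, ∀ k' ∈ S, |uu b k - uu b k'| ≤ (1 / (M : ℝ)) ^ (3 * m + 3) * H) → 1 ≤ n →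
      10 ^ 14 * ((M : ℝ) ^ (2 * (s₀ + n * m) + 6 * m) * H ^ (2 * δ)) ≤ H * T →
      10 ^ 8 * ((M : ℝ) ^ (3 * (s₀ + n * m)) * H ^ δ) ≤ ρ * (H * T) → 0 ≤ ρ → n * ρ ≤ 1 / 4000 →
      (TT S a r₁ r₂ β₁ β₂ + K) ^ (1 / 6 : ℝ) ≤ (C * H ^ δ * (M : ℝ) ^ (ε * m)) ^ n * ∑ r ∈ Finset.range (M ^ (n * m)),
        (TT (arc b₀ S (M ^ (s₀ + n * m)) (M ^ (n * m) * j₀ + r)) a (r₁ - n * ρ * T) (r₂ + n * ρ * T) (β₁ - n * ρ) (β₂ + n * ρ) + K) ^
          (1 / 6 : ℝ) := by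
  obtain ⟨M, hM, C, hC, hst⟩ := step hε
  refine ⟨M, hM, C, hC, ?_⟩
  intro δ B hδ
  obtain ⟨K, hK, hstep⟩ := hst δ B hδ
  refine ⟨K, hK, ?_⟩
  intro n m s₀ j₀ b₀ H T ρ r₁ r₂ β₁ β₂ a S hH hHT hTB hb₀ hβ₁ hβ₁₂ hβ₂ hr₁ hr₁₂ hr₂ ha hS hu hn h14 h8 hρ hnρ
  have hM1 : 1 ≤ M := by omega
  have hMr : (1 : ℝ) ≤ M := by exact_mod_cast hM1
  have hM0 : (0 : ℝ) < M := by linarith
  have hH0 : 0 < H := by linarith
  have hT1 : 1 ≤ T := hH.trans hHT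
  have hn1 : (1 : ℝ) ≤ n := by exact_mod_cast hn
  obtain ⟨A, hA⟩ : ∃ A : ℝ, A = C * H ^ δ * (M : ℝ) ^ (ε * m) := ⟨_, rfl⟩
  have hA0 : 0 ≤ A := by
    rw [hA]
    positivity
  have key : ∀ i : ℕ, i ≤ n → (TT S a r₁ r₂ β₁ β₂ + K) ^ (1 / 6 : ℝ) ≤ A ^ i * ∑ r ∈ Finset.range (M ^ (i * m)),
        (TT (arc b₀ S (M ^ (s₀ + i * m)) (M ^ (i * m) * j₀ + r)) a (r₁ - i * ρ * T) (r₂ + i * ρ * T) (β₁ - i * ρ) (β₂ + i * ρ) + K) ^
          (1 / 6 : ℝ) := by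
    intro i
    induction i with
    | zero =>
      intro _
      have e : arc b₀ S (M ^ s₀) j₀ = S := by
        ext k
        rw [mem_arc92]
        exact ⟨fun h => h.1, fun h => ⟨h, (mem_arc92.1 (hS h)).2⟩⟩
      simp [e]
    | succ i ih =>
      intro hi
      have hi' : i ≤ n := by omega
      have h1 := ih hi'
      have hiR : (i : ℝ) + 1 ≤ n := by exact_mod_cast hi
      have hi0 : (0 : ℝ) ≤ i := Nat.cast_nonneg i
      have hiρ : (i : ℝ) * ρ ≤ 1 / 4000 := (mul_le_mul_of_nonneg_right (by linarith) hρ).trans hnρ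
      have hρ1 : ρ ≤ 1 / 4000 := by
        have := mul_le_mul_of_nonneg_right hn1 hρ
        linarith
      have hiρ0 : 0 ≤ (i : ℝ) * ρ := mul_nonneg hi0 hρ
      have hiT : (i : ℝ) * ρ * T ≤ 1 / 4000 * T := mul_le_mul_of_nonneg_right hiρ (by linarith)
      have hiT0 : 0 ≤ (i : ℝ) * ρ * T := mul_nonneg hiρ0 (by linarith)
      have h14' : 10 ^ 14 * ((M : ℝ) ^ (2 * (s₀ + i * m) + 6 * m) * H ^ (2 * δ)) ≤ H * T := by
        refine le_trans ?_ h14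
        have h2 : (M : ℝ) ^ (2 * (s₀ + i * m) + 6 * m) ≤ (M : ℝ) ^ (2 * (s₀ + n * m) + 6 * m) := by
          refine pow_le_pow_right₀ hMr ?_
          have := Nat.mul_le_mul_right m hi'
          omega
        have h3 : 0 ≤ H ^ (2 * δ) := by positivity
        exact mul_le_mul_of_nonneg_left (mul_le_mul_of_nonneg_right h2 h3) (by norm_num)
      have h8' : 10 ^ 8 * ((M : ℝ) ^ (3 * (s₀ + i * m + m)) * H ^ δ) ≤ ρ * (H * T) := by
        refine le_trans ?_ h8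
        have h2 : (M : ℝ) ^ (3 * (s₀ + i * m + m)) ≤ (M : ℝ) ^ (3 * (s₀ + n * m)) := by
          refine pow_le_pow_right₀ hMr ?_
          have h4 := Nat.mul_le_mul_right m hi
          have h5 : (i + 1) * m = i * m + m := by ring
          omega
        have h3 : 0 ≤ H ^ δ := by positivity
        exact mul_le_mul_of_nonneg_left (mul_le_mul_of_nonneg_right h2 h3) (by norm_num)
      have h2 : ∀ r ∈ Finset.range (M ^ (i * m)),
          (TT (arc b₀ S (M ^ (s₀ + i * m)) (M ^ (i * m) * j₀ + r)) a (r₁ - i * ρ * T) (r₂ + i * ρ * T) (β₁ - i * ρ) (β₂ + i * ρ) + K) ^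
            (1 / 6 : ℝ) ≤ A * ∑ r' ∈ Finset.range (M ^ m),
          (TT (arc b₀ S (M ^ (s₀ + (i + 1) * m)) (M ^ ((i + 1) * m) * j₀ + (M ^ m * r + r'))) a
            (r₁ - (i + 1 : ℕ) * ρ * T) (r₂ + (i + 1 : ℕ) * ρ * T) (β₁ - (i + 1 : ℕ) * ρ) (β₂ + (i + 1 : ℕ) * ρ) + K) ^ (1 / 6 : ℝ) := by
        intro r _
        have hsub : arc b₀ S (M ^ (s₀ + i * m)) (M ^ (i * m) * j₀ + r) ⊆
            arc b₀ (reg b₀ H) (M ^ (s₀ + i * m)) (M ^ (i * m) * j₀ + r) := by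
          intro k hk
          rw [mem_arc92] at hk ⊢
          exact ⟨(mem_arc92.1 (hS hk.1)).1, hk.2⟩
        have h3 := hstep m (s₀ + i * m) (M ^ (i * m) * j₀ + r) b₀ H T ρ (r₁ - i * ρ * T) (r₂ + i * ρ * T) (β₁ - i * ρ) (β₂ + i * ρ) a
          (arc b₀ S (M ^ (s₀ + i * m)) (M ^ (i * m) * j₀ + r)) hH hHT hTB hb₀ (by linarith) (by linarith) (by linarith)
          (by linarith) (by linarith) (by linarith) ha hsub
          (fun b hb k hk k' hk' => hu b hb k (mem_arc92.1 hk).1 k' (mem_arc92.1 hk').1) h14' h8' (by linarith)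
        rw [← hA] at h3
        refine h3.trans (mul_le_mul_of_nonneg_left (le_of_eq (Finset.sum_congr rfl fun r' hr' => ?_)) hA0)
        have hr2 : r' < M ^ m := Finset.mem_range.1 hr'
        have e1 : M ^ (s₀ + i * m + m) = M ^ (s₀ + i * m) * M ^ m := pow_add _ _ _
        have e2 : s₀ + (i + 1) * m = s₀ + i * m + m := by ring
        have e3 : M ^ ((i + 1) * m) * j₀ + (M ^ m * r + r') = M ^ m * (M ^ (i * m) * j₀ + r) + r' := by
          have : (i + 1) * m = i * m + m := by ring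
          rw [this, pow_add]
          ring
        rw [e2, e3, e1, arc_arc92 (Nat.one_le_pow _ _ hM1) hr2]
        have e4 : r₁ - (i + 1 : ℕ) * ρ * T = r₁ - i * ρ * T - ρ * T := by
          push_cast
          ring
        have e5 : r₂ + (i + 1 : ℕ) * ρ * T = r₂ + i * ρ * T + ρ * T := by
          push_cast
          ring
        have e6 : β₁ - (i + 1 : ℕ) * ρ = β₁ - i * ρ - ρ := by
          push_cast
          ring
        have e7 : β₂ + (i + 1 : ℕ) * ρ = β₂ + i * ρ + ρ := by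
          push_cast
          ring
        rw [e4, e5, e6, e7]
      refine h1.trans ?_
      calc A ^ i * ∑ r ∈ Finset.range (M ^ (i * m)),
            (TT (arc b₀ S (M ^ (s₀ + i * m)) (M ^ (i * m) * j₀ + r)) a (r₁ - i * ρ * T) (r₂ + i * ρ * T) (β₁ - i * ρ) (β₂ + i * ρ) + K) ^
              (1 / 6 : ℝ) ≤ A ^ i * ∑ r ∈ Finset.range (M ^ (i * m)), (A * ∑ r' ∈ Finset.range (M ^ m),
          (TT (arc b₀ S (M ^ (s₀ + (i + 1) * m)) (M ^ ((i + 1) * m) * j₀ + (M ^ m * r + r'))) a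
            (r₁ - (i + 1 : ℕ) * ρ * T) (r₂ + (i + 1 : ℕ) * ρ * T) (β₁ - (i + 1 : ℕ) * ρ) (β₂ + (i + 1 : ℕ) * ρ) + K) ^ (1 / 6 : ℝ)) :=
            mul_le_mul_of_nonneg_left (Finset.sum_le_sum h2) (pow_nonneg hA0 i)
        _ = A ^ (i + 1) * ∑ r ∈ Finset.range (M ^ ((i + 1) * m)),
          (TT (arc b₀ S (M ^ (s₀ + (i + 1) * m)) (M ^ ((i + 1) * m) * j₀ + r)) a
            (r₁ - (i + 1 : ℕ) * ρ * T) (r₂ + (i + 1 : ℕ) * ρ * T) (β₁ - (i + 1 : ℕ) * ρ) (β₂ + (i + 1 : ℕ) * ρ) + K) ^ (1 / 6 : ℝ) := by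
            have e : M ^ ((i + 1) * m) = M ^ (i * m) * M ^ m := by
              rw [← pow_add]
              congr 1
              ring
            rw [← Finset.mul_sum, ← mul_assoc, ← pow_succ]
            congr 1
            rw [e, Pool.Agent.Helper22.AC.sum_range_mul']
  have h := key n le_rfl
  rw [hA] at h
  exact h

end Pool.Agent.Helper76.MM
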