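import Pool.Agent.Helper92.DT.Defs
import Pool.Agent.Helper92.GC.Q1
import Pool.Agent.Helper78.CE.B5

/-!
# MM (helper76): the twelfth moment of the true family (project D3, WP3). Definitions

Plan: /team-store/h76_MM_README.md. `tf` is the twelfth moment over the centres for the phases `r · ph b k`, `lf` the one for the linear family `t · p2 + g · p3`.
-/

open MeasureTheory Real Set Filter Topology

set_option autoImplicit false

namespace Pool.Agent.Helper76.MM

open Pool.Agent.Helper22.AE
open Pool.Agent.Helper92.GC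
open Pool.Agent.Helper92.DT (m12)
open Pool.Agent.Helper78.CE (p2 p3 hs mu2 InReg)

/-- the twelfth moment over the centres, true family -/
noncomputable def tf (S : Finset (ℤ × ℤ)) (a : ℤ × ℤ → ℂ) (r b : ℝ) : ℝ := m12 S (fun k => a k * ee (r * ph b k))

/-- the twelfth moment over the centres, linear family -/
noncomputable def lf (S : Finset (ℤ × ℤ)) (a : ℤ × ℤ → ℂ) (β z t g : ℝ) : ℝ :=
  m12 S (fun k => a k * ee (t * p2 β z k + g * p3 β z k))

/-- the linear family against two weights -/
noncomputable def LL (v w : ℝ → ℝ) (β z : ℝ) (S : Finset (ℤ × ℤ)) (a : ℤ × ℤ → ℂ) : ℝ := ∫ t, ∫ g, v t * w g * lf S a β z t g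

/-- the true family on a rectangle -/
noncomputable def TT (S : Finset (ℤ × ℤ)) (a : ℤ × ℤ → ℂ) (r₁ r₂ β₁ β₂ : ℝ) : ℝ := ∫ b in Icc β₁ β₂, ∫ r in Icc r₁ r₂, tf S a r b

end Pool.Agent.Helper76.MM
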